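import Pool.Agent.H42.TQ.A1

/-! The envelope `ec` (MP_09540e_TQ, group A2). -/

set_option autoImplicit false

open Set Filter Topology MeasureTheory
open scoped ContDiff InnerProductSpace

namespace Pool.Agent.H42.TQ

/-- Competitors, with the quadratic gain. -/
theorem ec_ge' {c : ℝ} (f : Hz) {p : Hz} (hp : p ∈ Kc c) :
    ⟪f, p⟫_ℝ - ‖p‖ ^ 2 / 2 + ‖Pc c f - p‖ ^ 2 / 2 ≤ ec c f := by
  have h1 := Pc_vi f hp
  unfold ec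
  have h2 : ⟪f - Pc c f, p - Pc c f⟫_ℝ = ⟪f, p⟫_ℝ - ⟪f, Pc c f⟫_ℝ - ⟪Pc c f, p⟫_ℝ + ‖Pc c f‖ ^ 2 := by
    rw [inner_sub_left, inner_sub_right, inner_sub_right, real_inner_self_eq_norm_sq]
    ring
  have h3 := norm_sub_sq_real (Pc c f) p
  linarith

theorem ec_ge {c : ℝ} (f : Hz) {p : Hz} (hp : p ∈ Kc c) : ⟪f, p⟫_ℝ - ‖p‖ ^ 2 / 2 ≤ ec c f := by
  have h1 := ec_ge' f hp
  nlinarith [sq_nonneg ‖Pc c f - p‖]

/-- `e = |v|² / 2 + ⟨g, v⟩`. -/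
theorem ec_eq (c : ℝ) (f : Hz) : ec c f = ‖Pc c f‖ ^ 2 / 2 + ⟪gc c f, Pc c f⟫_ℝ := by
  unfold ec gc
  rw [inner_sub_left, real_inner_self_eq_norm_sq]
  ring

/-- `e = |f|² / 2 - |g|² / 2`. -/
theorem ec_eq' (c : ℝ) (f : Hz) : ec c f = ‖f‖ ^ 2 / 2 - ‖gc c f‖ ^ 2 / 2 := by
  unfold ec gc
  rw [norm_sub_sq_real]
  ring

theorem ec_le (c : ℝ) (f : Hz) : ec c f ≤ ‖f‖ ^ 2 / 2 := by
  rw [ec_eq']
  nlinarith [sq_nonneg ‖gc c f‖]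

theorem Pc_sq {c : ℝ} (hc : 0 ≤ c) (f : Hz) : ‖Pc c f‖ ^ 2 ≤ 2 * ec c f := by
  rw [ec_eq]
  have := gc_Pc_nonneg hc f
  linarith

theorem gP_le {c : ℝ} (f : Hz) : ⟪gc c f, Pc c f⟫_ℝ ≤ ec c f := by
  rw [ec_eq]
  nlinarith [sq_nonneg ‖Pc c f‖]

theorem ec_nonneg {c : ℝ} (hc : 0 ≤ c) (f : Hz) : 0 ≤ ec c f := by
  have := Pc_sq hc f
  nlinarith [sq_nonneg ‖Pc c f‖]

theorem Pc_norm {c : ℝ} (hc : 0 ≤ c) (f : Hz) : ‖Pc c f‖ ≤ ‖f‖ := by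
  have h1 := Pc_sq hc f
  have h2 := ec_le c f
  exact le_of_sq_le_sq (by linarith) (norm_nonneg _)

theorem gc_norm {c : ℝ} (hc : 0 ≤ c) (f : Hz) : ‖gc c f‖ ≤ ‖f‖ := by
  have h1 := ec_nonneg hc f
  rw [ec_eq'] at h1
  exact le_of_sq_le_sq (by linarith) (norm_nonneg _)

theorem Pc_zero {c : ℝ} (hc : 0 ≤ c) : Pc c (0 : Hz) = 0 := by
  have := Pc_norm hc (0 : Hz)
  rw [norm_zero] at this
  exact norm_le_zero_iff.1 this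

theorem ec_zero {c : ℝ} (hc : 0 ≤ c) : ec c (0 : Hz) = 0 := by
  unfold ec
  rw [Pc_zero hc]
  simp

/-- Upper bound of the second order. -/
theorem ec_up {c : ℝ} (hc : 0 ≤ c) (f h : Hz) : ec c (f + h) ≤ ec c f + ⟪Pc c f, h⟫_ℝ + ‖h‖ ^ 2 / 2 := by
  have h1 := ec_ge' f (Pc_mem hc (f + h))
  have h2 : ec c (f + h) = ⟪f, Pc c (f + h)⟫_ℝ + ⟪h, Pc c (f + h)⟫_ℝ - ‖Pc c (f + h)‖ ^ 2 / 2 := by
    unfold ec
    rw [inner_add_left]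
  have h3 : ⟪h, Pc c (f + h)⟫_ℝ = ⟪Pc c f, h⟫_ℝ - ⟪h, Pc c f - Pc c (f + h)⟫_ℝ := by
    rw [inner_sub_right, real_inner_comm h (Pc c f)]
    ring
  have h4 : -⟪h, Pc c f - Pc c (f + h)⟫_ℝ ≤ ‖h‖ ^ 2 / 2 + ‖Pc c f - Pc c (f + h)‖ ^ 2 / 2 := by
    have h5 := abs_real_inner_le_norm h (Pc c f - Pc c (f + h))
    have h6 := neg_abs_le ⟪h, Pc c f - Pc c (f + h)⟫_ℝ
    linarith only [sq_nonneg (‖h‖ - ‖Pc c f - Pc c (f + h)‖), h5, h6]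
  linarith

/-- The gradient inequality. -/
theorem ec_lo {c : ℝ} (hc : 0 ≤ c) (f h : Hz) : ec c f + ⟪Pc c f, h⟫_ℝ ≤ ec c (f + h) := by
  have h1 := ec_ge (f + h) (Pc_mem hc f)
  rw [inner_add_left, real_inner_comm (Pc c f) h] at h1
  unfold ec at h1 ⊢
  linarith

theorem ec_mono {c c' : ℝ} (hc : 0 ≤ c) (h : c ≤ c') (f : Hz) : ec c f ≤ ec c' f :=
  ec_ge f (Kc_mono h (Pc_mem hc f))

theorem Pc_diff {c c' : ℝ} (hc : 0 ≤ c) (h : c ≤ c') (f : Hz) :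
    ‖Pc c' f - Pc c f‖ ^ 2 ≤ 2 * (ec c' f - ec c f) := by
  have h1 := ec_ge' f (Kc_mono h (Pc_mem hc f))
  have h2 : ec c f = ⟪f, Pc c f⟫_ℝ - ‖Pc c f‖ ^ 2 / 2 := rfl
  linarith

/-- Dependence on the threshold. -/
theorem Pc_rel {c c' : ℝ} (hc : 0 < c) (hc' : 0 < c') (f : Hz) :
    ‖Pc c' f - Pc c f‖ ≤ |c' / c - 1| * ‖Pc c f‖ := by
  obtain ⟨s, hs⟩ : ∃ s, s = c' / c := ⟨_, rfl⟩
  have hs0 : 0 < s := by rw [hs]; positivity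
  have hsc : s * c = c' := by rw [hs]; field_simp
  have hsc' : s⁻¹ * c' = c := by rw [← hsc]; field_simp
  rw [← hs]
  have m1 : s⁻¹ • Pc c' f ∈ Kc c := by
    have := Kc_smul (t := s⁻¹) (Pc_mem hc'.le f)
    rwa [abs_of_pos (inv_pos.2 hs0), hsc'] at this
  have m2 : s • Pc c f ∈ Kc c' := by
    have := Kc_smul (t := s) (Pc_mem hc.le f)
    rwa [abs_of_pos hs0, hsc] at this
  have h1 := Pc_vi f m1
  have h2 := Pc_vi f m2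
  have h3 : ⟪f - Pc c f, Pc c' f - s • Pc c f⟫_ℝ ≤ 0 := by
    have e : Pc c' f - s • Pc c f = s • (s⁻¹ • Pc c' f - Pc c f) := by
      rw [smul_sub, smul_smul, mul_inv_cancel₀ hs0.ne', one_smul]
    rw [e, real_inner_smul_right]
    exact mul_nonpos_of_nonneg_of_nonpos hs0.le h1
  have h4 : ⟪Pc c' f - Pc c f, Pc c' f - s • Pc c f⟫_ℝ ≤ 0 := by
    have e : Pc c' f - Pc c f = (f - Pc c f) - (f - Pc c' f) := by abel
    have e2 : s • Pc c f - Pc c' f = -(Pc c' f - s • Pc c f) := by abel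
    rw [e2, inner_neg_right] at h2
    rw [e, inner_sub_left]
    linarith
  have h5 : ‖Pc c' f - Pc c f‖ ^ 2 ≤ (s - 1) * ⟪Pc c' f - Pc c f, Pc c f⟫_ℝ := by
    have e : Pc c' f - s • Pc c f = (Pc c' f - Pc c f) - (s - 1) • Pc c f := by
      rw [sub_smul, one_smul]
      abel
    rw [e, inner_sub_right, real_inner_self_eq_norm_sq, real_inner_smul_right] at h4
    linarith
  have h6 : (s - 1) * ⟪Pc c' f - Pc c f, Pc c f⟫_ℝ ≤ |s - 1| * (‖Pc c' f - Pc c f‖ * ‖Pc c f‖) := by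
    refine (le_abs_self _).trans ?_
    rw [abs_mul]
    exact mul_le_mul_of_nonneg_left (abs_real_inner_le_norm _ _) (abs_nonneg _)
  rcases eq_or_lt_of_le (norm_nonneg (Pc c' f - Pc c f)) with h7 | h7
  · rw [← h7]
    positivity
  · have h8 : ‖Pc c' f - Pc c f‖ * ‖Pc c' f - Pc c f‖ ≤ (|s - 1| * ‖Pc c f‖) * ‖Pc c' f - Pc c f‖ := by
      linarith only [h5, h6]
    exact le_of_mul_le_mul_right h8 h7

theorem Pc_cont : ContinuousOn (fun p : ℝ × Hz => Pc p.1 p.2) (Ioi 0 ×ˢ univ) := by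
  intro p hp
  have hp1 : 0 < p.1 := hp.1
  have hsq : ContinuousAt (fun q : ℝ × Hz => ‖q.2 - p.2‖ + |q.1 / p.1 - 1| * ‖Pc p.1 p.2‖) p := by
    fun_prop
  refine ContinuousAt.continuousWithinAt ?_
  rw [Metric.continuousAt_iff'] at *
  have h0 : Tendsto (fun q : ℝ × Hz => ‖q.2 - p.2‖ + |q.1 / p.1 - 1| * ‖Pc p.1 p.2‖) (𝓝 p) (𝓝 0) := by
    have h1 : ContinuousAt (fun q : ℝ × Hz => ‖q.2 - p.2‖ + |q.1 / p.1 - 1| * ‖Pc p.1 p.2‖) p := by fun_prop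
    have h2 : ‖p.2 - p.2‖ + |p.1 / p.1 - 1| * ‖Pc p.1 p.2‖ = 0 := by
      rw [sub_self, norm_zero, div_self hp1.ne', sub_self, abs_zero, zero_mul, add_zero]
    have h3 := h1.tendsto
    rwa [h2] at h3
  intro ε hε
  filter_upwards [h0 (Iio_mem_nhds hε), (continuous_fst.tendsto p) (Ioi_mem_nhds hp1)] with q hq hq1
  have hq1' : 0 < q.1 := hq1
  refine lt_of_le_of_lt ?_ hq
  rw [dist_eq_norm]
  calc ‖Pc q.1 q.2 - Pc p.1 p.2‖ = ‖(Pc q.1 q.2 - Pc q.1 p.2) + (Pc q.1 p.2 - Pc p.1 p.2)‖ := by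
        congr 1; abel
    _ ≤ ‖Pc q.1 q.2 - Pc q.1 p.2‖ + ‖Pc q.1 p.2 - Pc p.1 p.2‖ := norm_add_le _ _
    _ ≤ ‖q.2 - p.2‖ + |q.1 / p.1 - 1| * ‖Pc p.1 p.2‖ :=
        add_le_add (Pc_lip hq1'.le _ _) (Pc_rel hp1 hq1' _)

theorem ec_cont : ContinuousOn (fun p : ℝ × Hz => ec p.1 p.2) (Ioi 0 ×ˢ univ) := by
  unfold ec
  exact (ContinuousOn.inner (𝕜 := ℝ) continuousOn_snd Pc_cont).sub ((Pc_cont.norm.pow 2).div_const 2)

/-- Concavity in the threshold. -/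
theorem ec_concave {c₀ c₁ s t : ℝ} (h0 : 0 ≤ c₀) (h1 : 0 ≤ c₁) (hs : 0 ≤ s) (ht : 0 ≤ t) (hst : s + t = 1) (f : Hz) :
    s * ec c₀ f + t * ec c₁ f ≤ ec (s * c₀ + t * c₁) f := by
  have m := Kc_add (Kc_smul (t := s) (Pc_mem h0 f)) (Kc_smul (t := t) (Pc_mem h1 f))
  rw [abs_of_nonneg hs, abs_of_nonneg ht] at m
  refine le_trans ?_ (ec_ge f m)
  have e1 : ⟪f, s • Pc c₀ f + t • Pc c₁ f⟫_ℝ = s * ⟪f, Pc c₀ f⟫_ℝ + t * ⟪f, Pc c₁ f⟫_ℝ := by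
    rw [inner_add_right, real_inner_smul_right, real_inner_smul_right]
  have e2 : ‖s • Pc c₀ f + t • Pc c₁ f‖ ^ 2 ≤ s * ‖Pc c₀ f‖ ^ 2 + t * ‖Pc c₁ f‖ ^ 2 := by
    have e3 := norm_add_sq_real (s • Pc c₀ f) (t • Pc c₁ f)
    have e4 := norm_sub_sq_real (Pc c₀ f) (Pc c₁ f)
    rw [norm_smul, norm_smul, real_inner_smul_left, real_inner_smul_right, Real.norm_eq_abs, Real.norm_eq_abs,
      abs_of_nonneg hs, abs_of_nonneg ht] at e3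
    rw [e3]
    have e5 : 0 ≤ s * t * ‖Pc c₀ f - Pc c₁ f‖ ^ 2 := by positivity
    rw [e4] at e5
    have hs' : s = 1 - t := by linarith
    subst hs'
    linarith only [e5]
  unfold ec
  rw [e1]
  linarith

/-- Increments at smaller thresholds are larger. -/
theorem ec_scale {c₀ c ν : ℝ} (h0 : 0 < c₀) (hc : c₀ ≤ c) (hν : 0 < ν) (hν1 : ν ≤ 1) (f : Hz) :
    ν * (ec c f - ec c₀ f) ≤ ec (ν * c) f - ec (ν * c₀) f := by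
  have hd : 0 ≤ c - ν * c₀ := by nlinarith
  rcases eq_or_lt_of_le hd with hd0 | hd0
  · -- then `c = c₀` and `ν = 1`
    have h1 : c = c₀ := by nlinarith
    subst h1
    simp
  have hcp : 0 < c := lt_of_lt_of_le h0 hc
  obtain ⟨s, hs⟩ : ∃ s, s = ν * (c - c₀) / (c - ν * c₀) := ⟨_, rfl⟩
  obtain ⟨s', hs'⟩ : ∃ s', s' = c₀ * (1 - ν) / (c - ν * c₀) := ⟨_, rfl⟩
  have hs0 : 0 ≤ s := by rw [hs]; exact div_nonneg (mul_nonneg hν.le (by linarith)) hd0.le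
  have hs'0 : 0 ≤ s' := by rw [hs']; exact div_nonneg (mul_nonneg h0.le (by linarith)) hd0.le
  have hs1 : s ≤ 1 := by
    rw [hs, div_le_one hd0]
    nlinarith
  have hs'1 : s' ≤ 1 := by
    rw [hs', div_le_one hd0]
    nlinarith
  have c1 := ec_concave (c₀ := ν * c₀) (c₁ := c) (mul_nonneg hν.le h0.le) hcp.le (by linarith : 0 ≤ 1 - s) hs0 (by ring) f
  have c2 := ec_concave (c₀ := ν * c₀) (c₁ := c) (mul_nonneg hν.le h0.le) hcp.le (by linarith : 0 ≤ 1 - s') hs'0 (by ring) f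
  have q1 : s * (c - ν * c₀) = ν * (c - c₀) := by rw [hs]; exact div_mul_cancel₀ _ hd0.ne'
  have q2 : s' * (c - ν * c₀) = c₀ * (1 - ν) := by rw [hs']; exact div_mul_cancel₀ _ hd0.ne'
  have e1 : (1 - s) * (ν * c₀) + s * c = ν * c := by linear_combination q1
  have e2 : (1 - s') * (ν * c₀) + s' * c = c₀ := by linear_combination q2
  rw [e1] at c1
  rw [e2] at c2
  have e3 : ν * (1 - s') = s := by
    refine mul_right_cancel₀ hd0.ne' ?_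
    linear_combination (-ν) * q2 - q1
  have h1 : ν * (ec c f - ec c₀ f) ≤ ν * ((1 - s') * (ec c f - ec (ν * c₀) f)) := by
    refine mul_le_mul_of_nonneg_left ?_ hν.le
    linarith
  rw [← mul_assoc, e3] at h1
  linarith

/-- Sublinearity in the threshold. -/
theorem ec_hom {c t : ℝ} (hc : 0 ≤ c) (ht : 1 ≤ t) (f : Hz) : ec (t * c) f ≤ t * ec c f := by
  have ht0 : 0 < t := by linarith
  have m : t⁻¹ • Pc (t * c) f ∈ Kc c := by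
    have := Kc_smul (t := t⁻¹) (Pc_mem (mul_nonneg ht0.le hc) f)
    rwa [abs_of_pos (inv_pos.2 ht0), ← mul_assoc, inv_mul_cancel₀ ht0.ne', one_mul] at this
  have h1 := mul_le_mul_of_nonneg_left (ec_ge f m) ht0.le
  refine le_trans ?_ h1
  rw [real_inner_smul_right, norm_smul, Real.norm_eq_abs, abs_of_pos (inv_pos.2 ht0)]
  have h2 : t * (t⁻¹ * ⟪f, Pc (t * c) f⟫_ℝ - (t⁻¹ * ‖Pc (t * c) f‖) ^ 2 / 2) =
      ⟪f, Pc (t * c) f⟫_ℝ - t⁻¹ * ‖Pc (t * c) f‖ ^ 2 / 2 := by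
    field_simp
  rw [h2]
  have h3 : t⁻¹ ≤ 1 := inv_le_one_of_one_le₀ ht
  have h4 : t⁻¹ * ‖Pc (t * c) f‖ ^ 2 ≤ 1 * ‖Pc (t * c) f‖ ^ 2 := mul_le_mul_of_nonneg_right h3 (sq_nonneg _)
  unfold ec
  linarith

/-- Fenchel's inequality against the increment of the envelope. -/
theorem ec_fenchel {c₀ c τ : ℝ} (h0 : 0 < c₀) (hc : c₀ < c) (hτ : 0 < τ) (f : Hz) {G : Hz} (hG : G ∈ Kc (τ * c)) :
    ⟪f, G⟫_ℝ ≤ τ * ((ec c f - ec c₀ f) / (1 - c₀ / c)) + ‖G‖ ^ 2 / (2 * τ) + ⟪Pc c₀ f, G⟫_ℝ := by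
  have hcp : 0 < c := h0.trans hc
  obtain ⟨s, hs⟩ : ∃ s, s = 1 - c₀ / c := ⟨_, rfl⟩
  have hq : c₀ / c < 1 := (div_lt_one hcp).2 hc
  have hq0 : 0 < c₀ / c := by positivity
  have hs0 : 0 < s := by rw [hs]; linarith
  have hs1 : s ≤ 1 := by rw [hs]; linarith
  have hsc : c₀ + s * c = c := by rw [hs]; field_simp; ring
  have mp : τ⁻¹ • G ∈ Kc c := by
    have := Kc_smul (t := τ⁻¹) hG
    rwa [abs_of_pos (inv_pos.2 hτ), ← mul_assoc, inv_mul_cancel₀ hτ.ne', one_mul] at this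
  obtain ⟨p, hp⟩ : ∃ p, p = τ⁻¹ • G := ⟨_, rfl⟩
  rw [← hp] at mp
  have hGp : G = τ • p := by rw [hp, smul_smul, mul_inv_cancel₀ hτ.ne', one_smul]
  have m : Pc c₀ f + s • p ∈ Kc c := by
    have := Kc_add (Pc_mem h0.le f) (Kc_smul (t := s) mp)
    rwa [abs_of_pos hs0, hsc] at this
  have h1 := ec_ge f m
  have e1 : ‖Pc c₀ f + s • p‖ ^ 2 = ‖Pc c₀ f‖ ^ 2 + 2 * (s * ⟪Pc c₀ f, p⟫_ℝ) + s ^ 2 * ‖p‖ ^ 2 := by
    rw [norm_add_sq_real, real_inner_smul_right, norm_smul, Real.norm_eq_abs, abs_of_pos hs0]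
    ring
  rw [inner_add_right, real_inner_smul_right, e1] at h1
  have e2 : ec c₀ f = ⟪f, Pc c₀ f⟫_ℝ - ‖Pc c₀ f‖ ^ 2 / 2 := rfl
  have h2 : s * (⟪f, p⟫_ℝ - ⟪Pc c₀ f, p⟫_ℝ) ≤ (ec c f - ec c₀ f) + s ^ 2 * ‖p‖ ^ 2 / 2 := by
    rw [e2]
    linarith only [h1]
  have h3 : ⟪f, p⟫_ℝ - ⟪Pc c₀ f, p⟫_ℝ ≤ (ec c f - ec c₀ f) / s + ‖p‖ ^ 2 / 2 := by
    have h4 : ⟪f, p⟫_ℝ - ⟪Pc c₀ f, p⟫_ℝ ≤ ((ec c f - ec c₀ f) + s ^ 2 * ‖p‖ ^ 2 / 2) / s := by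
      rw [le_div_iff₀ hs0]
      linarith
    refine h4.trans ?_
    rw [add_div]
    have h5 : s ^ 2 * ‖p‖ ^ 2 / 2 / s = s * (‖p‖ ^ 2 / 2) := by field_simp
    rw [h5]
    have h6 : s * (‖p‖ ^ 2 / 2) ≤ 1 * (‖p‖ ^ 2 / 2) := mul_le_mul_of_nonneg_right hs1 (by positivity)
    linarith
  have h7 := mul_le_mul_of_nonneg_left h3 hτ.le
  rw [hGp, real_inner_smul_right, real_inner_smul_right, norm_smul, Real.norm_eq_abs, abs_of_pos hτ, ← hs]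
  have e3 : (τ * ‖p‖) ^ 2 / (2 * τ) = τ * (‖p‖ ^ 2 / 2) := by field_simp
  rw [e3]
  linarith

end Pool.Agent.H42.TQ
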