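import Pool.Agent.H42.TQ.A3b

/-!
The neighbour inequality (row TQ_A7 of MP_09540e_TQ): with `g = f - Pc c f`, `u0 = Pc c f / c` and `u ∈ Kc 1`,
`∫ g (θ (u - u0) + θ' (w0 - w)) ≤ 0` for every nonnegative `θ` of class `C^1` whose derivative has compact support.
-/

set_option autoImplicit false

open Set Filter Topology MeasureTheory
open scoped ContDiff InnerProductSpace

namespace Pool.Agent.H42.TQ

open Pool.Agent.H16 Pool.Agent.H87.NS Pool.Agent.H72.CC Pool.Agent.H16.TU Pool.Agent.H94.EP Pool.Agent.H87.EP Pool.Agent.H88.TQ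

private theorem A7_bdd {θ : ℝ → ℝ} (hs : ContDiff ℝ 1 θ) (hd : HasCompactSupport (deriv θ)) :
    ∃ M : ℝ, 0 < M ∧ ∀ z, θ z ≤ M := by
  have hc : Continuous (deriv θ) := hs.continuous_deriv le_rfl
  have hi : Integrable (deriv θ) := hc.integrable_of_hasCompactSupport hd
  have hI : 0 ≤ ∫ z, ‖deriv θ z‖ := integral_nonneg fun z => norm_nonneg _
  refine ⟨|θ 0| + (∫ z, ‖deriv θ z‖) + 1, by positivity, fun z => ?_⟩
  have h1 : ∫ x in (0 : ℝ)..z, deriv θ x = θ z - θ 0 :=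
    intervalIntegral.integral_deriv_eq_sub (fun x _ => (hs.differentiable one_ne_zero).differentiableAt)
      (hc.intervalIntegrable _ _)
  have h2 : ‖∫ x in (0 : ℝ)..z, deriv θ x‖ ≤ ∫ x, ‖deriv θ x‖ :=
    (intervalIntegral.norm_integral_le_integral_norm_uIoc).trans
      (setIntegral_le_integral hi.norm (Filter.Eventually.of_forall fun x => norm_nonneg _))
  rw [h1, Real.norm_eq_abs] at h2
  have h3 := le_abs_self (θ z - θ 0)
  have h4 := le_abs_self (θ 0)
  linarith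

theorem neighbour {c : ℝ} (hc : 0 < c) (f : Hz) {u : Hz} (hu : u ∈ Kc 1) {θ : ℝ → ℝ} (hs : ContDiff ℝ 1 θ)
    (hd : HasCompactSupport (deriv θ)) (hn : ∀ z, 0 ≤ θ z) :
    ∫ z, gc c f z * (θ z * (u z - (c⁻¹ • Pc c f) z) + deriv θ z * (wp (c⁻¹ • Pc c f) z - wp u z)) ≤ 0 := by
  obtain ⟨M, hM, hb⟩ := A7_bdd hs hd
  have hu0 : c⁻¹ • Pc c f ∈ Kc 1 := by
    have := Kc_smul (t := c⁻¹) (Pc_mem hc.le f)
    rwa [abs_of_pos (inv_pos.2 hc), inv_mul_cancel₀ hc.ne'] at this
  have h1 : ContDiff ℝ 1 (fun z => θ z / M) := hs.div_const M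
  have hdv : deriv (fun z => θ z / M) = fun z => deriv θ z / M := by
    funext z
    exact deriv_div_const M
  have h2 : HasCompactSupport (deriv fun z => θ z / M) := by
    rw [hdv]
    exact hd.comp_left (g := fun y => y / M) (zero_div M)
  obtain ⟨r, hr, he⟩ := competitor hu0 hu h1 h2 (fun z => div_nonneg (hn z) hM.le) (fun z => (div_le_one hM).2 (hb z))
  have hcr : c • r ∈ Kc c := by
    have := Kc_smul (t := c) hr
    rwa [abs_of_pos hc, mul_one] at this
  have h3 := Pc_vi f hcr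
  have h4 : c • r - Pc c f = c • (r - c⁻¹ • Pc c f) := by rw [smul_sub, smul_inv_smul₀ hc.ne']
  rw [h4, inner_smul_right] at h3
  have h5 : ⟪gc c f, r - c⁻¹ • Pc c f⟫_ℝ ≤ 0 := by
    by_contra h
    push Not at h
    have h6 := mul_pos hc h
    exact absurd h3 (not_le.2 h6)
  have h7 : ∫ z, gc c f z * (θ z * (u z - (c⁻¹ • Pc c f) z) + deriv θ z * (wp (c⁻¹ • Pc c f) z - wp u z)) =
      M * ⟪gc c f, r - c⁻¹ • Pc c f⟫_ℝ := by
    rw [L2.inner_def, ← integral_const_mul]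
    refine integral_congr_ae ?_
    filter_upwards [he, Lp.coeFn_sub r (c⁻¹ • Pc c f)] with z hz hz'
    rw [hz', Pi.sub_apply, hz, hdv]
    simp only [RCLike.inner_apply, conj_trivial]
    field_simp
    ring
  rw [h7]
  exact mul_nonpos_of_nonneg_of_nonpos hM.le h5

end Pool.Agent.H42.TQ
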