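import Pool.Agent.H42.TQ.A2
import Pool.Agent.H72.CC.Cyl

/-! The fibration over the horizontal plane: basic facts (MP_09540e_TQ, group B1). -/

set_option autoImplicit false

open Set Filter Topology MeasureTheory
open scoped ContDiff InnerProductSpace

namespace Pool.Agent.H42.TQ

open Pool.Agent.H16 Pool.Agent.H87.NS Pool.Agent.H72.CC Pool.Agent.H16.TU Pool.Agent.H94.EP Pool.Agent.H87.EP

theorem pt_0 (q : ℝ × ℝ) (z : ℝ) : pt q z 0 = q.1 := rfl
theorem pt_1 (q : ℝ × ℝ) (z : ℝ) : pt q z 1 = q.2 := rfl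
theorem pt_2 (q : ℝ × ℝ) (z : ℝ) : pt q z 2 = z := rfl

theorem pt_eta (x : E3) : pt (x 0, x 1) (x 2) = x := by
  apply ext3 <;> rfl

theorem pt_cont : Continuous fun p : (ℝ × ℝ) × ℝ => pt p.1 p.2 := by
  refine (PiLp.continuous_toLp 2 (fun _ : Fin 3 => ℝ)).comp ?_
  refine continuous_pi fun i => ?_
  fin_cases i
  · exact continuous_fst.fst
  · exact continuous_fst.snd
  · exact continuous_snd

theorem pt_cont' {α : Type} [TopologicalSpace α] {f : α → ℝ × ℝ} {g : α → ℝ} (hf : Continuous f) (hg : Continuous g) :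
    Continuous fun a => pt (f a) (g a) := pt_cont.comp (hf.prodMk hg)

theorem pt_norm (q : ℝ × ℝ) (z : ℝ) : ‖pt q z‖ ^ 2 = sq2 q + z ^ 2 := by
  rw [EuclideanSpace.norm_sq_eq, Fin.sum_univ_three]
  simp only [Real.norm_eq_abs, sq_abs]
  rfl

/-- The cylinder containing the support. -/
theorem Cs.box {F : E3 → ℝ} (hF : Cs F) : ∃ R : ℝ, 0 < R ∧ (∀ q z, R ≤ |z| → F (pt q z) = 0) ∧ (∀ q z, R ^ 2 ≤ sq2 q → F (pt q z) = 0) := by
  obtain ⟨R, hR⟩ := hF.cs.isCompact.isBounded.exists_norm_le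
  have hz : ∀ x, |R| + 1 ≤ ‖x‖ → F x = 0 := by
    intro x hx
    by_contra h
    have h1 := hR x (subset_tsupport _ h)
    have h2 := le_abs_self R
    linarith
  have hR0 : 0 < |R| + 1 := by positivity
  refine ⟨|R| + 1, hR0, fun q z h => hz _ ?_, fun q z h => hz _ ?_⟩
  · refine le_of_sq_le_sq ?_ (norm_nonneg _)
    rw [pt_norm]
    have h1 : (|R| + 1) ^ 2 ≤ |z| ^ 2 := pow_le_pow_left₀ hR0.le h 2
    rw [sq_abs] at h1
    have : 0 ≤ sq2 q := by unfold sq2; positivity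
    linarith
  · refine le_of_sq_le_sq ?_ (norm_nonneg _)
    rw [pt_norm]
    nlinarith [sq_nonneg z]

theorem Cs.cont {F : E3 → ℝ} (hF : Cs F) : Continuous F := hF.sm.continuous

theorem Cs.slice {F : E3 → ℝ} (hF : Cs F) (q : ℝ × ℝ) : Continuous (fun z => F (pt q z)) ∧ HasCompactSupport (fun z => F (pt q z)) := by
  obtain ⟨R, hR, h1, -⟩ := hF.box
  refine ⟨hF.cont.comp (pt_cont' continuous_const continuous_id), ?_⟩
  refine HasCompactSupport.intro (isCompact_Icc (a := -R) (b := R)) ?_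
  intro z hz
  refine h1 q z ?_
  by_contra h
  push Not at h
  exact hz ⟨(abs_lt.1 h).1.le, (abs_lt.1 h).2.le⟩

theorem Cs.memLp {F : E3 → ℝ} (hF : Cs F) (q : ℝ × ℝ) : MemLp (fun z => F (pt q z)) 2 volume :=
  (hF.slice q).1.memLp_of_hasCompactSupport (hF.slice q).2

theorem fib_eq {F : E3 → ℝ} (hF : Cs F) (q : ℝ × ℝ) : fib F q = (hF.memLp q).toLp _ := by
  unfold fib
  rw [dif_pos (hF.memLp q)]

theorem fib_coe {F : E3 → ℝ} (hF : Cs F) (q : ℝ × ℝ) : (fib F q : ℝ → ℝ) =ᵐ[volume] fun z => F (pt q z) := by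
  rw [fib_eq hF]
  exact (hF.memLp q).coeFn_toLp

/-- Inner product of a fibre and an arbitrary element. -/
theorem fib_inner' {F : E3 → ℝ} (hF : Cs F) (q : ℝ × ℝ) (p : Hz) : ⟪p, fib F q⟫_ℝ = ∫ z, p z * F (pt q z) := by
  rw [L2.inner_def]
  refine integral_congr_ae ?_
  filter_upwards [fib_coe hF q] with z hz
  rw [hz]
  simp [mul_comm]

theorem fib_inner {F G : E3 → ℝ} (hF : Cs F) (hG : Cs G) (q : ℝ × ℝ) :
    ⟪fib F q, fib G q⟫_ℝ = ∫ z, F (pt q z) * G (pt q z) := by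
  rw [fib_inner' hG]
  refine integral_congr_ae ?_
  filter_upwards [fib_coe hF q] with z hz
  rw [hz]

theorem fib_norm {F : E3 → ℝ} (hF : Cs F) (q : ℝ × ℝ) : ‖fib F q‖ ^ 2 = ∫ z, F (pt q z) ^ 2 := by
  rw [← real_inner_self_eq_norm_sq, fib_inner hF hF]
  simp only [pow_two]

theorem Cs.add {F G : E3 → ℝ} (hF : Cs F) (hG : Cs G) : Cs (fun x => F x + G x) :=
  ⟨hF.sm.add hG.sm, hF.cs.add hG.cs⟩

theorem Cs.smul {F : E3 → ℝ} (a : ℝ) (hF : Cs F) : Cs (fun x => a * F x) :=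
  ⟨contDiff_const.mul hF.sm, hF.cs.mul_left⟩

theorem Cs.sub {F G : E3 → ℝ} (hF : Cs F) (hG : Cs G) : Cs (fun x => F x - G x) := by
  have := hF.add (hG.smul (-1))
  refine cast ?_ this
  congr 1
  funext x
  ring

theorem Cs.mul_left {F a : E3 → ℝ} (ha : ContDiff ℝ ∞ a) (hF : Cs F) : Cs (fun x => a x * F x) :=
  ⟨ha.mul hF.sm, hF.cs.mul_left⟩

theorem Cs.pd {F : E3 → ℝ} (hF : Cs F) (i : Fin 3) : Cs (Pool.Agent.H87.NS.pd i F) := by
  constructor
  · have h1 : ContDiff ℝ ∞ (fderiv ℝ F) := hF.sm.fderiv_right (by simp)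
    exact h1.clm_apply contDiff_const
  · have h1 : HasCompactSupport (fderiv ℝ F) := hF.cs.fderiv ℝ
    exact h1.comp_left (g := fun L : E3 →L[ℝ] ℝ => L (e i)) (by simp)

theorem fib_add {F G : E3 → ℝ} (hF : Cs F) (hG : Cs G) (q : ℝ × ℝ) : fib (fun x => F x + G x) q = fib F q + fib G q := by
  rw [fib_eq hF, fib_eq hG, fib_eq (hF.add hG)]
  rfl

theorem fib_sub {F G : E3 → ℝ} (hF : Cs F) (hG : Cs G) (q : ℝ × ℝ) : fib (fun x => F x - G x) q = fib F q - fib G q := by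
  rw [fib_eq hF, fib_eq hG, fib_eq (hF.sub hG)]
  rfl

theorem fib_smul {F : E3 → ℝ} (a : ℝ) (hF : Cs F) (q : ℝ × ℝ) : fib (fun x => a * F x) q = a • fib F q := by
  rw [fib_eq hF, fib_eq (hF.smul a)]
  rfl

theorem fib_hor {F : E3 → ℝ} (a : ℝ × ℝ → ℝ) (hF : Cs F) (hG : Cs (fun x => a (x 0, x 1) * F x)) (q : ℝ × ℝ) :
    fib (fun x => a (x 0, x 1) * F x) q = a q • fib F q := by
  rw [fib_eq hF, fib_eq hG, ← MemLp.toLp_const_smul]
  rfl

/-- Fibres of two functions over two points. -/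
theorem fib_dist {F G : E3 → ℝ} (hF : Cs F) (hG : Cs G) {R M : ℝ} (hR : 0 ≤ R) (hM : 0 ≤ M) (q q' : ℝ × ℝ)
    (hz : ∀ z, R ≤ |z| → F (pt q z) = G (pt q' z)) (hb : ∀ z, |F (pt q z) - G (pt q' z)| ≤ M) :
    ‖fib F q - fib G q'‖ ≤ √(2 * R) * M := by
  have h1 : ‖fib F q - fib G q'‖ ^ 2 = ∫ z, (F (pt q z) - G (pt q' z)) ^ 2 := by
    rw [← real_inner_self_eq_norm_sq, L2.inner_def]
    refine integral_congr_ae ?_
    filter_upwards [fib_coe hF q, fib_coe hG q', Lp.coeFn_sub (fib F q) (fib G q')] with z h1 h2 h3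
    rw [h3, Pi.sub_apply, h1, h2]
    simp [pow_two]
  have h2 : ∫ z, (F (pt q z) - G (pt q' z)) ^ 2 ≤ 2 * R * M ^ 2 := by
    have h3 : ∀ z, (F (pt q z) - G (pt q' z)) ^ 2 ≤ (Icc (-R) R).indicator (fun _ => M ^ 2) z := by
      intro z
      by_cases h : z ∈ Icc (-R) R
      · rw [indicator_of_mem h, ← sq_abs]
        exact pow_le_pow_left₀ (abs_nonneg _) (hb z) 2
      · rw [indicator_of_notMem h, hz z]
        · simp
        · by_contra h4
          push Not at h4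
          exact h ⟨(abs_lt.1 h4).1.le, (abs_lt.1 h4).2.le⟩
    have h40 : IntegrableOn (fun _ : ℝ => M ^ 2) (Icc (-R) R) := by
      exact integrable_const _
    have h4 : Integrable ((Icc (-R) R).indicator (fun _ : ℝ => M ^ 2)) := h40.integrable_indicator measurableSet_Icc
    refine (integral_mono_of_nonneg (ae_of_all _ fun z => sq_nonneg _) h4 (ae_of_all _ h3)).trans ?_
    rw [integral_indicator measurableSet_Icc, setIntegral_const, smul_eq_mul, Real.volume_real_Icc_of_le (by linarith)]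
    apply le_of_eq
    ring
  refine le_of_sq_le_sq ?_ (by positivity)
  rw [h1, mul_pow, Real.sq_sqrt (by positivity)]
  exact h2

/-- `F` is Lipschitz. -/
theorem Cs.lip {F : E3 → ℝ} (hF : Cs F) : ∃ M : ℝ, 0 ≤ M ∧ ∀ x y, |F x - F y| ≤ M * ‖x - y‖ := by
  obtain ⟨M, hM⟩ := (hF.sm.of_le (by simp : (1 : WithTop ℕ∞) ≤ ∞)).lipschitzWith_of_hasCompactSupport hF.cs (by norm_num)
  refine ⟨M, M.2, fun x y => ?_⟩
  have := hM.dist_le_mul x y
  rwa [Real.dist_eq, dist_eq_norm] at this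

theorem pt_sub_norm (q q' : ℝ × ℝ) (z : ℝ) : ‖pt q z - pt q' z‖ = √((q.1 - q'.1) ^ 2 + (q.2 - q'.2) ^ 2) := by
  rw [EuclideanSpace.norm_eq, Fin.sum_univ_three]
  congr 1
  simp only [Real.norm_eq_abs, sq_abs]
  show (q.1 - q'.1) ^ 2 + (q.2 - q'.2) ^ 2 + (z - z) ^ 2 = _
  ring

theorem fib_cont {F : E3 → ℝ} (hF : Cs F) : Continuous (fib F) := by
  obtain ⟨R, hR, h1, -⟩ := hF.box
  obtain ⟨M, hM, h2⟩ := hF.lip
  rw [continuous_iff_continuousAt]
  intro q
  rw [ContinuousAt, tendsto_iff_norm_sub_tendsto_zero]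
  have h3 : Tendsto (fun q' : ℝ × ℝ => √(2 * R) * (M * √((q'.1 - q.1) ^ 2 + (q'.2 - q.2) ^ 2))) (𝓝 q) (𝓝 0) := by
    have h4 : Continuous (fun q' : ℝ × ℝ => √(2 * R) * (M * √((q'.1 - q.1) ^ 2 + (q'.2 - q.2) ^ 2))) := by fun_prop
    have h5 := h4.tendsto q
    simpa using h5
  refine squeeze_zero (fun _ => norm_nonneg _) (fun q' => ?_) h3
  refine fib_dist hF hF hR.le (by positivity) q' q (fun z hz => ?_) (fun z => ?_)
  · rw [h1 _ z hz, h1 _ z hz]
  · rw [← pt_sub_norm q' q z]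
    exact h2 _ _

/-- Taylor's formula of the first order in a coordinate direction. -/
theorem Cs.taylor {F : E3 → ℝ} (hF : Cs F) (i : Fin 3) : ∃ M : ℝ, 0 ≤ M ∧ ∀ (x : E3) (h : ℝ),
    |F (x + h • e i) - F x - h * Pool.Agent.H87.NS.pd i F x| ≤ M * h ^ 2 := by
  obtain ⟨M, hM, h2⟩ := (hF.pd i).lip
  refine ⟨M, hM, fun x h => ?_⟩
  have hd : ∀ s : ℝ, HasDerivAt (fun s : ℝ => F (x + s • e i) - s * Pool.Agent.H87.NS.pd i F x)
      (Pool.Agent.H87.NS.pd i F (x + s • e i) - Pool.Agent.H87.NS.pd i F x) s := by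
    intro s
    have h3 : HasFDerivAt F (fderiv ℝ F (x + s • e i)) (x + s • e i) :=
      ((hF.sm.differentiable (by simp)) _).hasFDerivAt
    have h4 : HasDerivAt (fun s : ℝ => x + s • e i) (e i) s := by
      have := ((hasDerivAt_id s).smul_const (e i)).const_add x
      simpa using this
    have h5 := h3.comp_hasDerivAt s h4
    have h6 : HasDerivAt (fun s : ℝ => s * Pool.Agent.H87.NS.pd i F x) (Pool.Agent.H87.NS.pd i F x) s := by
      have := (hasDerivAt_id s).mul_const (Pool.Agent.H87.NS.pd i F x)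
      simpa using this
    exact h5.sub h6
  have hei : ‖(e i : E3)‖ = 1 := by
    unfold e
    simp
  have hb : ∀ s ∈ uIcc 0 h, ‖Pool.Agent.H87.NS.pd i F (x + s • e i) - Pool.Agent.H87.NS.pd i F x‖ ≤ M * |h| := by
    intro s hs
    rw [Real.norm_eq_abs]
    refine (h2 _ _).trans ?_
    rw [add_sub_cancel_left, norm_smul, hei, mul_one, Real.norm_eq_abs]
    refine mul_le_mul_of_nonneg_left ?_ hM
    have := abs_sub_left_of_mem_uIcc hs
    simpa using this
  have key := (convex_uIcc (0 : ℝ) h).norm_image_sub_le_of_norm_hasDerivWithin_le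
    (fun s _ => (hd s).hasDerivWithinAt) hb left_mem_uIcc right_mem_uIcc
  have e1 : F (x + h • e i) - F x - h * Pool.Agent.H87.NS.pd i F x =
      (F (x + h • e i) - h * Pool.Agent.H87.NS.pd i F x) - (F (x + (0 : ℝ) • e i) - 0 * Pool.Agent.H87.NS.pd i F x) := by
    rw [zero_smul, add_zero]
    ring
  rw [e1, ← Real.norm_eq_abs]
  refine key.trans (le_of_eq ?_)
  rw [sub_zero, Real.norm_eq_abs, mul_assoc, abs_mul_abs_self]
  ring

private theorem B1_deriv {F : E3 → ℝ} (hF : Cs F) (i : Fin 3) (γ : ℝ → ℝ × ℝ) (s : ℝ)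
    (hγ : ∀ t z, pt (γ t) z = pt (γ s) z + (t - s) • e i) :
    HasDerivAt (fun t => fib F (γ t)) (fib (Pool.Agent.H87.NS.pd i F) (γ s)) s := by
  obtain ⟨R, hR, h1, -⟩ := hF.box
  obtain ⟨R', hR', h1', -⟩ := (hF.pd i).box
  obtain ⟨M, hM, h2⟩ := hF.taylor i
  rw [hasDerivAt_iff_isLittleO, Asymptotics.isLittleO_iff]
  intro c hc
  have hb : ∀ t, ‖fib F (γ t) - fib F (γ s) - (t - s) • fib (Pool.Agent.H87.NS.pd i F) (γ s)‖ ≤
      √(2 * max R R') * (M * (t - s) ^ 2) := by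
    intro t
    have e1 : fib F (γ s) + (t - s) • fib (Pool.Agent.H87.NS.pd i F) (γ s) =
        fib (fun x => F x + (t - s) * Pool.Agent.H87.NS.pd i F x) (γ s) := by
      rw [fib_add hF ((hF.pd i).smul _), fib_smul _ (hF.pd i)]
    rw [sub_sub, e1]
    refine fib_dist hF (hF.add ((hF.pd i).smul _)) (by positivity) (by positivity) _ _ (fun z hz => ?_) (fun z => ?_)
    · rw [h1 _ z ((le_max_left _ _).trans hz), h1 _ z ((le_max_left _ _).trans hz), h1' _ z ((le_max_right _ _).trans hz)]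
      ring
    · rw [hγ t z]
      have := h2 (pt (γ s) z) (t - s)
      rwa [sub_sub] at this
  have hlim : ∀ᶠ t in 𝓝 s, √(2 * max R R') * (M * |t - s|) < c := by
    have h4 : Continuous (fun t : ℝ => √(2 * max R R') * (M * |t - s|)) := by fun_prop
    have h5 := h4.tendsto s
    simp only [sub_self, abs_zero, mul_zero] at h5
    exact h5 (Iio_mem_nhds hc)
  filter_upwards [hlim] with t ht
  refine (hb t).trans ?_
  rw [Real.norm_eq_abs]
  calc √(2 * max R R') * (M * (t - s) ^ 2) = (√(2 * max R R') * (M * |t - s|)) * |t - s| := by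
        rw [← sq_abs (t - s)]; ring
    _ ≤ c * |t - s| := mul_le_mul_of_nonneg_right ht.le (abs_nonneg _)

theorem fib_d0 {F : E3 → ℝ} (hF : Cs F) (q : ℝ × ℝ) :
    HasDerivAt (fun t => fib F (t, q.2)) (fib (Pool.Agent.H87.NS.pd 0 F) q) q.1 := by
  refine B1_deriv hF 0 (fun t => (t, q.2)) q.1 (fun t z => ?_)
  apply ext3
  · show t = q.1 + (t - q.1) * e 0 0
    rw [e_apply]; simp
  · show q.2 = q.2 + (t - q.1) * e 0 1
    rw [e_apply]; simp
  · show z = z + (t - q.1) * e 0 2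
    rw [e_apply]; simp

theorem fib_d1 {F : E3 → ℝ} (hF : Cs F) (q : ℝ × ℝ) :
    HasDerivAt (fun t => fib F (q.1, t)) (fib (Pool.Agent.H87.NS.pd 1 F) q) q.2 := by
  refine B1_deriv hF 1 (fun t => (q.1, t)) q.2 (fun t z => ?_)
  apply ext3
  · show q.1 = q.1 + (t - q.2) * e 1 0
    rw [e_apply]; simp
  · show t = q.2 + (t - q.2) * e 1 1
    rw [e_apply]; simp
  · show z = z + (t - q.2) * e 1 2
    rw [e_apply]; simp

/-- Fubini. -/
theorem fib_fub {H : E3 → ℝ} (hc : Continuous H) (hi : Integrable H) :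
    ∫ q : ℝ × ℝ, ∫ z, H (pt q z) = ∫ x, H x := by
  obtain ⟨G, hG⟩ : ∃ G : ℝ × (ℝ × ℝ) → ℝ, G = fun p => H (pt p.2 p.1) := ⟨_, rfl⟩
  have hGc : Continuous G := by
    rw [hG]
    exact hc.comp (pt_cont' continuous_snd continuous_fst)
  have e1 : (fun x : E3 => G (x 2, (x 0, x 1))) = H := by
    funext x
    rw [hG]
    show H (pt (x 0, x 1) (x 2)) = H x
    rw [pt_eta]
  have hm := Cyl_mp
  have e2 : ∫ p, G p = ∫ x, H x := by
    rw [← hm.map_eq, integral_map hm.aemeasurable hGc.aestronglyMeasurable, ← e1]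
  have hGi : Integrable G := by
    rw [← hm.map_eq, integrable_map_measure hGc.aestronglyMeasurable hm.aemeasurable]
    show Integrable (fun x : E3 => G (x 2, (x 0, x 1)))
    rw [e1]
    exact hi
  have e3 := integral_prod_symm (μ := (volume : Measure ℝ)) (ν := (volume : Measure (ℝ × ℝ))) G hGi
  rw [← e2]
  refine Eq.trans ?_ e3.symm
  rw [hG]

theorem fib_int {F G : E3 → ℝ} (hF : Cs F) (hG : Cs G) : (∫ q, ⟪fib F q, fib G q⟫_ℝ) = ∫ x, F x * G x := by
  simp only [fib_inner hF hG]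
  refine fib_fub (H := fun x => F x * G x) (hF.cont.mul hG.cont) ?_
  exact (hF.cont.mul hG.cont).integrable_of_hasCompactSupport hF.cs.mul_right

theorem fib_out {F : E3 → ℝ} (hF : Cs F) : ∃ A : ℝ, ∀ q : ℝ × ℝ, A ≤ sq2 q → fib F q = 0 := by
  obtain ⟨R, hR, -, h2⟩ := hF.box
  refine ⟨R ^ 2, fun q hq => ?_⟩
  rw [← norm_eq_zero, ← sq_eq_zero_iff, fib_norm hF]
  simp only [h2 q _ hq]
  simp

end Pool.Agent.H42.TQ
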