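import Pool.Agent.H42.TQ.A4b
import Pool.Agent.H42.TQ.B1

/-!
ROW TQ_T0 (transport: the fields of projections over the plane). MP_09540e_TQ, PI helper42. Hz = Lp R 2 on the line; Kc, Pc (projection), gc = f - Pc, ec in TQ/Defs.lean; proved facts (helper94) in TQ/A1, A2 (Kc_add, Kc_smul,
Pc_mem, Pc_vi, Pc_lip, gc_lip, Pc_norm, gc_norm, Pc_rel, Pc_cont, int_ii, int_add, int_smul ...), B1 (fib_coe, fib_inner, fib_inner', fib_norm, fib_cont, fib_add, fib_out, fib_fub,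
Cs.taylor, Cs.lip, Cs.box, Cs.pd ...), translations Ts s (p(z+s)) in H88/TQ/A4a.lean (Ts_coe, Ts_Kc, Pc_Ts, ec_Ts). Use only the STATEMENTS of imported rows; auxiliary lemmas private or with the
prefix T0_ ; statements FIXED (tell helper42 at once if one is wrong or awkward); proofs complete; no double quotes in the file; lake build the file; land only your own
file (tools/land.sh --force), set state done, message helper42. Proof:

cq_pos clear. pt_dir: coordinates. cE_pd: quotient rule. cont: cq is continuous and positive: Pc_cont composed with (cq q, fib F q) (fib_cont). uq_Kc: Kc_smul. Sz: fib_coe and the support hypothesis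
give Sz for fib F q, then A4b (Sz is closed under scalars). wq_cont: |wq q z - wq q0 z0| <= |wp (uq q) z - wp (uq q0) z| + |wp (uq q0) z - wp (uq q0) z0| <= 2 sqrt(2l)|uq q - uq q0| + (continuity of wp (uq q0)) (wp_lip, wp_cont).
gq_lip: g(q) - g(q') with c = cq q, c' = cq q': (gc c (fib F q) - gc c (fib F q')) + (Pc c' (fib F q') - Pc c (fib F q')), gc_lip and Pc_rel (applied with the roles such that the factor is |c/c' - 1| |Pc c' (fib F q')|,
Pc_norm). sub_eq: gc + Pc = f. out: fib F q = 0 gives Pc 0 = 0 (Pc_zero).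
-/

set_option autoImplicit false

open Set Filter Topology MeasureTheory
open scoped ContDiff InnerProductSpace

namespace Pool.Agent.H42.TQ

open Pool.Agent.H16 Pool.Agent.H87.NS Pool.Agent.H72.CC Pool.Agent.H16.TU Pool.Agent.H94.EP Pool.Agent.H87.EP Pool.Agent.H88.TQ

/-- The coordinate directions of the plane. -/
def Dir (i : Fin 3) (d : ℝ × ℝ) : Prop := (i = 0 ∧ d = (1, 0)) ∨ (i = 1 ∧ d = (0, 1))

/-- The threshold over the plane. -/
noncomputable def cq (N r2 : ℝ) (q : ℝ × ℝ) : ℝ := N / (sq2 q + r2)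

/-- The threshold as a function of the point. -/
noncomputable def cE (N r2 : ℝ) (x : E3) : ℝ := N / (rsq x + r2)

/-- The projection of the fibre. -/
noncomputable def vq (N r2 : ℝ) (F : E3 → ℝ) (q : ℝ × ℝ) : Hz := Pc (cq N r2 q) (fib F q)

/-- Its complement. -/
noncomputable def gq (N r2 : ℝ) (F : E3 → ℝ) (q : ℝ × ℝ) : Hz := gc (cq N r2 q) (fib F q)

/-- The normalised projection. -/
noncomputable def uq (N r2 : ℝ) (F : E3 → ℝ) (q : ℝ × ℝ) : Hz := (cq N r2 q)⁻¹ • vq N r2 F q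

/-- The normalised primitive. -/
noncomputable def wq (N r2 : ℝ) (F : E3 → ℝ) (q : ℝ × ℝ) (z : ℝ) : ℝ := wp (uq N r2 F q) z

theorem pt_dir {i : Fin 3} {d : ℝ × ℝ} (h : Dir i d) (q : ℝ × ℝ) (s z : ℝ) : pt (q + s • d) z = pt q z + s • e i := by
  rcases h with ⟨rfl, rfl⟩ | ⟨rfl, rfl⟩
  · apply ext3 <;> simp [pt, e]
  · apply ext3 <;> simp [pt, e]

theorem cq_pos {N r2 : ℝ} (hN : 0 < N) (hr : 0 < r2) (q : ℝ × ℝ) : 0 < cq N r2 q := by
  unfold cq sq2
  positivity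

theorem cE_pt (N r2 : ℝ) (q : ℝ × ℝ) (z : ℝ) : cE N r2 (pt q z) = cq N r2 q := rfl

private theorem T0_rsq_sm : ContDiff ℝ ∞ (rsq : E3 → ℝ) := by
  unfold rsq
  fun_prop

private theorem T0_ne {r2 : ℝ} (hr : 0 < r2) (x : E3) : rsq x + r2 ≠ 0 := by
  unfold rsq
  positivity

theorem cE_sm {N r2 : ℝ} (hr : 0 < r2) : ContDiff ℝ ∞ (cE N r2) :=
  contDiff_const.div (T0_rsq_sm.add contDiff_const) (T0_ne hr)

private theorem T0_pd {N r2 : ℝ} (hr : 0 < r2) (i : Fin 3) (x : E3) :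
    pd i (cE N r2) x = - (pd i rsq x / (rsq x + r2)) * cE N r2 x := by
  have h1 : HasFDerivAt (rsq : E3 → ℝ) (fderiv ℝ rsq x) x :=
    (T0_rsq_sm.differentiable (by simp)).differentiableAt.hasFDerivAt
  have hne := T0_ne hr x
  have h2 := ((hasDerivAt_inv hne).comp_hasFDerivAt x (h1.add_const r2)).const_mul N
  have h3 : (fun y : E3 => N * ((fun t : ℝ => t⁻¹) ∘ fun y => rsq y + r2) y) = cE N r2 := by
    funext y
    simp [cE, div_eq_mul_inv]
  rw [h3] at h2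
  have h4 : pd i (cE N r2) x = _ := congrArg (fun A : E3 →L[ℝ] ℝ => A (e i)) h2.fderiv
  rw [h4]
  simp only [ContinuousLinearMap.smul_apply, smul_eq_mul]
  unfold cE pd
  field_simp

theorem cE_pd {N r2 : ℝ} (hr : 0 < r2) {i : Fin 3} (h : i = 0 ∨ i = 1) (x : E3) :
    pd i (cE N r2) x = - (2 * x i / (rsq x + r2)) * cE N r2 x := by
  rw [T0_pd hr, Psi_rsq, if_neg]
  rcases h with rfl | rfl <;> decide

theorem cE_pd2 {N r2 : ℝ} (hr : 0 < r2) (x : E3) : pd 2 (cE N r2) x = 0 := by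
  rw [T0_pd hr, Psi_rsq, if_pos rfl]
  simp

private theorem T0_cq_cont {N r2 : ℝ} (hr : 0 < r2) : Continuous (cq N r2) := by
  unfold cq sq2
  refine continuous_const.div (by fun_prop) fun q => ?_
  positivity

theorem vq_cont {N r2 : ℝ} (hN : 0 < N) (hr : 0 < r2) {F : E3 → ℝ} (hF : Cs F) :
    Continuous (vq N r2 F) ∧ Continuous (gq N r2 F) ∧ Continuous (uq N r2 F) := by
  have hc := T0_cq_cont (N := N) hr
  have hv : Continuous (vq N r2 F) :=
    Pc_cont.comp_continuous (hc.prodMk (fib_cont hF)) fun q => ⟨cq_pos hN hr q, mem_univ _⟩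
  refine ⟨hv, ?_, ?_⟩
  · exact (fib_cont hF).sub hv
  · exact (hc.inv₀ fun q => (cq_pos hN hr q).ne').smul hv

theorem vq_out {N r2 : ℝ} (hN : 0 < N) (hr : 0 < r2) {F : E3 → ℝ} {q : ℝ × ℝ} (h : fib F q = 0) :
    vq N r2 F q = 0 ∧ gq N r2 F q = 0 ∧ uq N r2 F q = 0 := by
  have h1 : vq N r2 F q = 0 := by
    rw [vq, h]
    exact Pc_zero (cq_pos hN hr q).le
  refine ⟨h1, ?_, ?_⟩
  · have h2 : gq N r2 F q = fib F q - vq N r2 F q := rfl
    rw [h2, h, h1, sub_zero]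
  · rw [uq, h1, smul_zero]

theorem vq_add {N r2 : ℝ} (hN : 0 < N) (hr : 0 < r2) (F : E3 → ℝ) (q : ℝ × ℝ) :
    fib F q = gq N r2 F q + cq N r2 q • uq N r2 F q ∧ vq N r2 F q = cq N r2 q • uq N r2 F q := by
  have h1 : cq N r2 q • uq N r2 F q = vq N r2 F q := smul_inv_smul₀ (cq_pos hN hr q).ne' _
  refine ⟨?_, h1.symm⟩
  rw [h1]
  exact (gc_add _ _).symm

theorem vq_le {N r2 : ℝ} (hN : 0 < N) (hr : 0 < r2) (F : E3 → ℝ) (q : ℝ × ℝ) :
    ‖vq N r2 F q‖ ≤ ‖fib F q‖ ∧ ‖gq N r2 F q‖ ≤ ‖fib F q‖ ∧ ‖vq N r2 F q‖ ^ 2 + ‖gq N r2 F q‖ ^ 2 ≤ ‖fib F q‖ ^ 2 := by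
  have hc := (cq_pos hN hr q).le
  refine ⟨Pc_norm hc _, gc_norm hc _, ?_⟩
  have h := Pc_firm hc (fib F q) 0
  have h0 : gc (cq N r2 q) (0 : Hz) = 0 := by
    rw [gc, Pc_zero hc, sub_zero]
  rwa [Pc_zero hc, h0, sub_zero, sub_zero, sub_zero] at h

theorem uq_Kc {N r2 : ℝ} (hN : 0 < N) (hr : 0 < r2) (F : E3 → ℝ) (q : ℝ × ℝ) : uq N r2 F q ∈ Kc 1 := by
  have hc := cq_pos hN hr q
  have h := Kc_smul (t := (cq N r2 q)⁻¹) (Pc_mem hc.le (fib F q))
  rwa [abs_of_pos (inv_pos.mpr hc), inv_mul_cancel₀ hc.ne'] at h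

theorem vq_Sz {N r2 a b : ℝ} (hN : 0 < N) (hr : 0 < r2) (hab : a ≤ b) {F : E3 → ℝ} (hF : Cs F)
    (hs : ∀ x, F x ≠ 0 → x 2 ∈ Icc a b) (q : ℝ × ℝ) :
    Sz a b (fib F q) ∧ Sz a b (vq N r2 F q) ∧ Sz a b (gq N r2 F q) ∧ Sz a b (uq N r2 F q) := by
  have hc := cq_pos hN hr q
  have h0 : Sz a b (fib F q) := by
    filter_upwards [fib_coe hF q] with z hz hzab
    rw [hz]
    by_contra hne
    exact hzab (hs _ hne)
  have h1 : Sz a b (vq N r2 F q) := Pc_supp hc.le hab h0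
  refine ⟨h0, h1, gc_supp hc.le hab h0, ?_⟩
  have h2 := Lp.coeFn_smul (cq N r2 q)⁻¹ (vq N r2 F q)
  filter_upwards [h1, h2] with z hz1 hz2 hzab
  have h3 : (uq N r2 F q) z = (cq N r2 q)⁻¹ * (vq N r2 F q) z := hz2
  rw [h3, hz1 hzab, mul_zero]

theorem wq_le {N r2 : ℝ} (hN : 0 < N) (hr : 0 < r2) (F : E3 → ℝ) (q : ℝ × ℝ) (z : ℝ) : |wq N r2 F q z| ≤ 1 :=
  wp_le (uq_Kc hN hr F q) z

theorem wq_cont {N r2 : ℝ} (hN : 0 < N) (hr : 0 < r2) {F : E3 → ℝ} (hF : Cs F) :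
    Continuous (fun p : (ℝ × ℝ) × ℝ => wq N r2 F p.1 p.2) := by
  obtain ⟨R, hR, hz, -⟩ := hF.box
  have hs : ∀ x, F x ≠ 0 → x 2 ∈ Icc (-R) R := by
    intro x hx
    have h1 : |x 2| < R := by
      by_contra h
      push Not at h
      have h2 := hz (x 0, x 1) (x 2) h
      rw [pt_eta] at h2
      exact hx h2
    exact ⟨(abs_lt.mp h1).1.le, (abs_lt.mp h1).2.le⟩
  have hab : -R ≤ R := by linarith
  rw [continuous_iff_continuousAt]
  rintro ⟨q0, z0⟩
  rw [ContinuousAt, tendsto_iff_dist_tendsto_zero]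
  have hu := (vq_cont hN hr hF).2.2
  have h1 : Tendsto (fun p : (ℝ × ℝ) × ℝ => 2 * √(R - -R) * ‖uq N r2 F p.1 - uq N r2 F q0‖ +
      |wp (uq N r2 F q0) p.2 - wp (uq N r2 F q0) z0|) (𝓝 (q0, z0)) (𝓝 0) := by
    have hc : Continuous (fun p : (ℝ × ℝ) × ℝ => 2 * √(R - -R) * ‖uq N r2 F p.1 - uq N r2 F q0‖ +
        |wp (uq N r2 F q0) p.2 - wp (uq N r2 F q0) z0|) := by
      have ha : Continuous (fun p : (ℝ × ℝ) × ℝ => uq N r2 F p.1) := hu.comp continuous_fst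
      have hb : Continuous (fun p : (ℝ × ℝ) × ℝ => wp (uq N r2 F q0) p.2) := (wp_cont _).comp continuous_snd
      exact (continuous_const.mul (ha.sub continuous_const).norm).add (hb.sub continuous_const).abs
    have := hc.tendsto (q0, z0)
    simpa using this
  refine squeeze_zero (fun p => dist_nonneg) (fun p => ?_) h1
  rw [Real.dist_eq]
  have h2 := wp_lip (uq_Kc hN hr F p.1) (uq_Kc hN hr F q0) (vq_Sz hN hr hab hF hs p.1).2.2.2
    (vq_Sz hN hr hab hF hs q0).2.2.2 p.2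
  calc |wq N r2 F p.1 p.2 - wq N r2 F q0 z0|
      = |(wp (uq N r2 F p.1) p.2 - wp (uq N r2 F q0) p.2) + (wp (uq N r2 F q0) p.2 - wp (uq N r2 F q0) z0)| := by
        unfold wq
        ring_nf
    _ ≤ _ := (abs_add_le _ _).trans (add_le_add h2 le_rfl)

theorem gq_lip {N r2 : ℝ} (hN : 0 < N) (hr : 0 < r2) (F : E3 → ℝ) (q q' : ℝ × ℝ) :
    ‖gq N r2 F q - gq N r2 F q'‖ ≤ ‖fib F q - fib F q'‖ + |cq N r2 q / cq N r2 q' - 1| * ‖fib F q'‖ := by
  have hc := cq_pos hN hr q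
  have hc' := cq_pos hN hr q'
  have h1 := gc_lip hc.le (fib F q) (fib F q')
  have h2 := Pc_rel hc' hc (fib F q')
  have h3 := Pc_norm hc'.le (fib F q')
  have h4 : gq N r2 F q - gq N r2 F q' = (gc (cq N r2 q) (fib F q) - gc (cq N r2 q) (fib F q')) -
      (Pc (cq N r2 q) (fib F q') - Pc (cq N r2 q') (fib F q')) := by
    unfold gq gc
    abel
  rw [h4]
  refine (norm_sub_le _ _).trans (add_le_add h1 (h2.trans ?_))
  exact mul_le_mul_of_nonneg_left h3 (abs_nonneg _)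

end Pool.Agent.H42.TQ
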