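import Pool.Agent.H42.TQ.Defs

/-! The convex sets `Kc c` and the projections: basic facts (MP_09540e_TQ, group A1). -/

set_option autoImplicit false

open Set Filter Topology MeasureTheory
open scoped ContDiff InnerProductSpace

namespace Pool.Agent.H42.TQ

/-- The integral over an interval as an inner product. -/
theorem int_inner {a b : ℝ} (hab : a ≤ b) (p : Hz) :
    ∫ z in a..b, p z = ⟪indicatorConstLp 2 (measurableSet_Ioc (a := a) (b := b)) (by simp) (1 : ℝ), p⟫_ℝ := by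
  rw [L2.inner_indicatorConstLp_one, intervalIntegral.integral_of_le hab]

theorem int_ii (p : Hz) (a b : ℝ) : IntervalIntegrable (fun z => p z) volume a b :=
  (((Lp.memLp p).locallyIntegrable (by norm_num)).integrableOn_isCompact isCompact_uIcc).intervalIntegrable

theorem int_add (p q : Hz) (a b : ℝ) : ∫ z in a..b, (p + q) z = (∫ z in a..b, p z) + ∫ z in a..b, q z := by
  rw [← intervalIntegral.integral_add (int_ii p a b) (int_ii q a b)]
  exact intervalIntegral.integral_congr_ae ((Lp.coeFn_add p q).mono fun z hz _ => hz)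

theorem int_smul (t : ℝ) (p : Hz) (a b : ℝ) : ∫ z in a..b, (t • p) z = t * ∫ z in a..b, p z := by
  rw [← intervalIntegral.integral_const_mul]
  refine intervalIntegral.integral_congr_ae ((Lp.coeFn_smul t p).mono fun z hz _ => ?_)
  simpa using hz

theorem int_neg (p : Hz) (a b : ℝ) : ∫ z in a..b, (-p) z = - ∫ z in a..b, p z := by
  have := int_smul (-1) p a b
  simpa using this

theorem int_sub (p q : Hz) (a b : ℝ) : ∫ z in a..b, (p - q) z = (∫ z in a..b, p z) - ∫ z in a..b, q z := by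
  rw [sub_eq_add_neg, int_add, int_neg, sub_eq_add_neg]

theorem int_cont (a b : ℝ) : Continuous fun p : Hz => ∫ z in a..b, p z := by
  rcases le_total a b with hab | hab
  · have : (fun p : Hz => ∫ z in a..b, p z) = fun p : Hz =>
        ⟪indicatorConstLp 2 (measurableSet_Ioc (a := a) (b := b)) (by simp) (1 : ℝ), p⟫_ℝ :=
      funext fun p => int_inner hab p
    rw [this]
    exact continuous_const.inner continuous_id
  · have : (fun p : Hz => ∫ z in a..b, p z) = fun p : Hz =>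
        - ⟪indicatorConstLp 2 (measurableSet_Ioc (a := b) (b := a)) (by simp) (1 : ℝ), p⟫_ℝ :=
      funext fun p => by rw [intervalIntegral.integral_symm, int_inner hab p]
    rw [this]
    exact (continuous_const.inner continuous_id).neg

theorem Kc_zero {c : ℝ} (hc : 0 ≤ c) : (0 : Hz) ∈ Kc c := by
  intro a b
  have : ∫ z in a..b, (0 : Hz) z = 0 := by
    have := int_smul 0 (0 : Hz) a b
    simp at this ⊢
  rw [this, abs_zero]
  linarith

theorem Kc_closed (c : ℝ) : IsClosed (Kc c) := by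
  have : Kc c = ⋂ a : ℝ, ⋂ b : ℝ, {p : Hz | |∫ z in a..b, p z| ≤ 2 * c} := by
    ext p
    simp [Kc]
  rw [this]
  exact isClosed_iInter fun a => isClosed_iInter fun b => isClosed_le (int_cont a b).abs continuous_const

theorem Kc_add {c c' : ℝ} {p q : Hz} (hp : p ∈ Kc c) (hq : q ∈ Kc c') : p + q ∈ Kc (c + c') := by
  intro a b
  rw [int_add]
  have h1 := hp a b
  have h2 := hq a b
  have h3 := abs_add_le (∫ z in a..b, p z) (∫ z in a..b, q z)
  linarith

theorem Kc_smul {c t : ℝ} {p : Hz} (hp : p ∈ Kc c) : t • p ∈ Kc (|t| * c) := by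
  intro a b
  rw [int_smul, abs_mul]
  have h1 := mul_le_mul_of_nonneg_left (hp a b) (abs_nonneg t)
  linarith

theorem Kc_mono {c c' : ℝ} (h : c ≤ c') : Kc c ⊆ Kc c' := fun p hp a b => by
  have := hp a b
  linarith

theorem Kc_neg {c : ℝ} {p : Hz} (hp : p ∈ Kc c) : -p ∈ Kc c := by
  have := Kc_smul (t := -1) hp
  simpa using this

theorem Kc_convex (c : ℝ) : Convex ℝ (Kc c) := by
  intro p hp q hq s t hs ht hst
  have h := Kc_add (Kc_smul (t := s) hp) (Kc_smul (t := t) hq)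
  rw [abs_of_nonneg hs, abs_of_nonneg ht, ← add_mul, hst, one_mul] at h
  exact h

/-- For `c < 0` the set is empty. -/
theorem Kc_nonneg {c : ℝ} {p : Hz} (hp : p ∈ Kc c) : 0 ≤ c := by
  have := hp 0 0
  simp at this
  linarith

private theorem A1_ex {c : ℝ} (hc : 0 ≤ c) (f : Hz) : ∃ v ∈ Kc c, ‖f - v‖ = ⨅ w : Kc c, ‖f - w‖ :=
  exists_norm_eq_iInf_of_complete_convex ⟨0, Kc_zero hc⟩ (Kc_closed c).isComplete (Kc_convex c) f

private theorem A1_spec {c : ℝ} (hc : 0 ≤ c) (f : Hz) :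
    Pc c f ∈ Kc c ∧ ‖f - Pc c f‖ = ⨅ w : Kc c, ‖f - w‖ := by
  unfold Pc
  rw [dif_pos (A1_ex hc f)]
  exact (A1_ex hc f).choose_spec

theorem Pc_mem {c : ℝ} (hc : 0 ≤ c) (f : Hz) : Pc c f ∈ Kc c := (A1_spec hc f).1

/-- The variational inequality. -/
theorem Pc_vi {c : ℝ} (f : Hz) {p : Hz} (hp : p ∈ Kc c) : ⟪f - Pc c f, p - Pc c f⟫_ℝ ≤ 0 := by
  have hc := Kc_nonneg hp
  exact (norm_eq_iInf_iff_real_inner_le_zero (Kc_convex c) (A1_spec hc f).1).1 (A1_spec hc f).2 p hp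

theorem Pc_inner_le {c : ℝ} (f : Hz) {p : Hz} (hp : p ∈ Kc c) : ⟪gc c f, p⟫_ℝ ≤ ⟪gc c f, Pc c f⟫_ℝ := by
  have := Pc_vi f hp
  rw [inner_sub_right] at this
  unfold gc
  linarith

/-- `0 ≤ ⟨g, v⟩`. -/
theorem gc_Pc_nonneg {c : ℝ} (hc : 0 ≤ c) (f : Hz) : 0 ≤ ⟪gc c f, Pc c f⟫_ℝ := by
  have := Pc_inner_le f (Kc_zero hc)
  rwa [inner_zero_right] at this

/-- `g + v = f`. -/
theorem gc_add (c : ℝ) (f : Hz) : gc c f + Pc c f = f := by
  unfold gc
  abel

/-- The two Lipschitz bounds at once: `|v - v'|² + |g - g'|² ≤ |f - f'|²`. -/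
theorem Pc_firm {c : ℝ} (hc : 0 ≤ c) (f f' : Hz) :
    ‖Pc c f - Pc c f'‖ ^ 2 + ‖gc c f - gc c f'‖ ^ 2 ≤ ‖f - f'‖ ^ 2 := by
  have h1 := Pc_inner_le f (Pc_mem hc f')
  have h2 := Pc_inner_le f' (Pc_mem hc f)
  have e : f - f' = (gc c f - gc c f') + (Pc c f - Pc c f') := by
    unfold gc
    abel
  have h3 : 0 ≤ ⟪gc c f - gc c f', Pc c f - Pc c f'⟫_ℝ := by
    rw [inner_sub_left, inner_sub_right, inner_sub_right]
    linarith
  rw [e, norm_add_sq_real]
  linarith

theorem Pc_lip {c : ℝ} (hc : 0 ≤ c) (f f' : Hz) : ‖Pc c f - Pc c f'‖ ≤ ‖f - f'‖ := by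
  have h := Pc_firm hc f f'
  exact le_of_sq_le_sq (by nlinarith [sq_nonneg ‖gc c f - gc c f'‖]) (norm_nonneg _)

theorem gc_lip {c : ℝ} (hc : 0 ≤ c) (f f' : Hz) : ‖gc c f - gc c f'‖ ≤ ‖f - f'‖ := by
  have h := Pc_firm hc f f'
  exact le_of_sq_le_sq (by nlinarith [sq_nonneg ‖Pc c f - Pc c f'‖]) (norm_nonneg _)

end Pool.Agent.H42.TQ
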