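import Pool.Agent.H42.TQ.A2
import Pool.Agent.H88.TQ.A4a

/-!
ROW TQ_A3a (the centred primitive). MP_09540e_TQ, PI helper42. Hz = Lp R 2 on the line; Kc, Pc (projection), gc = f - Pc, ec in TQ/Defs.lean; proved facts (helper94) in TQ/A1, A2 (Kc_add, Kc_smul,
Pc_mem, Pc_vi, Pc_lip, gc_lip, Pc_norm, gc_norm, Pc_rel, Pc_cont, int_ii, int_add, int_smul ...), B1 (fib_coe, fib_inner, fib_inner', fib_norm, fib_cont, fib_add, fib_out, fib_fub,
Cs.taylor, Cs.lip, Cs.box, Cs.pd ...), translations Ts s (p(z+s)) in H88/TQ/A4a.lean (Ts_coe, Ts_Kc, Pc_Ts, ec_Ts). Use only the STATEMENTS of imported rows; auxiliary lemmas private or with the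
prefix A3a_ ; statements FIXED (tell helper42 at once if one is wrong or awkward); replace every sorry; no double quotes in the file; lake build the file; land only your own
file (tools/land.sh --force), set state done, message helper42. Proof:

Put P(x) = int_0^x p. hz_cs: Cauchy-Schwarz (int_inner of A1 and the norm of the indicator, or the square of the integral). wp_sub: integral_add_adjacent_intervals, int_ii.
wp_cont: |P(b) - P(a)| <= sqrt|b-a| |p|. wp_le: p in Kc c: P(x) - P(y) <= 2c for all x, y, so the family is bounded, sup P - inf P <= 2c, inf P <= P(z) <= sup P, and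
w = (sup+inf)/2 - P(z) lies in [-(sup-inf)/2, (sup-inf)/2].
wp_lip: |P(x) - Q(x)| = |int_0^x (p - q)| <= sqrt(b-a) |p - q| =: D as p - q = 0 a.e. outside [a,b] (integral over the interval intersected with [a,b]; for b < a both vanish a.e.).
|sup P - sup Q| <= D, |inf P - inf Q| <= D (both families bounded), so |w - w'| <= D + D.
wp_smul: Real.mul_iSup_of_nonneg, Real.mul_iInf_of_nonneg, int_smul. wp_Ts: with P'(x) = int_0^x (Ts s p) = P(x+s) - P(s) (Ts_int): the sup over x of P(x+s) - P(s) is sup P - P(s)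
(Equiv.addRight / Function.Surjective.iSup_comp; bounded), same for inf, so w' (z) = (sup+inf)/2 - P(s) - P(z+s) + P(s).
-/

set_option autoImplicit false

open Set Filter Topology MeasureTheory
open scoped ContDiff InnerProductSpace

namespace Pool.Agent.H42.TQ

open Pool.Agent.H16 Pool.Agent.H87.NS Pool.Agent.H72.CC Pool.Agent.H16.TU Pool.Agent.H94.EP Pool.Agent.H87.EP Pool.Agent.H88.TQ

/-- Elements of `Hz` which vanish outside `[a, b]`. -/
def Sz (a b : ℝ) (p : Hz) : Prop := ∀ᵐ z : ℝ, z ∉ Icc a b → p z = 0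

/-- The centred primitive of `-p`. -/
noncomputable def wp (p : Hz) (z : ℝ) : ℝ :=
  ((⨆ x : ℝ, ∫ s in (0 : ℝ)..x, p s) + (⨅ x : ℝ, ∫ s in (0 : ℝ)..x, p s)) / 2 - ∫ s in (0 : ℝ)..z, p s

theorem hz_cs (p : Hz) (a b : ℝ) : |∫ z in a..b, p z| ≤ √|b - a| * ‖p‖ := by
  have key : ∀ a b : ℝ, a ≤ b → |∫ z in a..b, p z| ≤ √|b - a| * ‖p‖ := by
    intro a b hab
    rw [int_inner hab p]
    refine (abs_real_inner_le_norm _ _).trans ?_
    refine mul_le_mul_of_nonneg_right ?_ (norm_nonneg _)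
    rw [norm_indicatorConstLp (by norm_num) (by norm_num)]
    have h1 : (volume : Measure ℝ).real (Ioc a b) = b - a := by
      rw [Real.volume_real_Ioc_of_le hab]
    rw [h1, norm_one, one_mul, abs_of_nonneg (sub_nonneg.2 hab), Real.sqrt_eq_rpow]
    norm_num
  rcases le_total a b with hab | hab
  · exact key a b hab
  · rw [intervalIntegral.integral_symm, abs_neg, abs_sub_comm]
    exact key b a hab

theorem wp_sub (p : Hz) (a b : ℝ) : wp p b - wp p a = - ∫ z in a..b, p z := by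
  have h := intervalIntegral.integral_add_adjacent_intervals (int_ii p 0 a) (int_ii p a b)
  unfold wp
  linarith

theorem wp_cont (p : Hz) : Continuous (wp p) := by
  unfold wp
  exact continuous_const.sub (intervalIntegral.continuous_primitive (int_ii p) 0)

private theorem A3a_osc {c : ℝ} {p : Hz} (h : p ∈ Kc c) (x y : ℝ) :
    (∫ s in (0 : ℝ)..x, p s) ≤ (∫ s in (0 : ℝ)..y, p s) + 2 * c := by
  have h1 := intervalIntegral.integral_add_adjacent_intervals (int_ii p 0 y) (int_ii p y x)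
  have h2 := (abs_le.1 (h y x)).2
  linarith

private theorem A3a_ba {c : ℝ} {p : Hz} (h : p ∈ Kc c) : BddAbove (range fun x : ℝ => ∫ s in (0 : ℝ)..x, p s) := by
  refine ⟨(∫ s in (0 : ℝ)..0, p s) + 2 * c, ?_⟩
  rintro _ ⟨x, rfl⟩
  exact A3a_osc h x 0

private theorem A3a_bb {c : ℝ} {p : Hz} (h : p ∈ Kc c) : BddBelow (range fun x : ℝ => ∫ s in (0 : ℝ)..x, p s) := by
  refine ⟨(∫ s in (0 : ℝ)..0, p s) - 2 * c, ?_⟩
  rintro _ ⟨x, rfl⟩
  have := A3a_osc h 0 x
  simp only
  linarith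

theorem wp_le {c : ℝ} {p : Hz} (h : p ∈ Kc c) (z : ℝ) : |wp p z| ≤ c := by
  have h1 := le_ciSup (A3a_ba h) z
  have h2 := ciInf_le (A3a_bb h) z
  have h3 : (⨆ x : ℝ, ∫ s in (0 : ℝ)..x, p s) ≤ (⨅ x : ℝ, ∫ s in (0 : ℝ)..x, p s) + 2 * c := by
    refine ciSup_le fun x => ?_
    have : (∫ s in (0 : ℝ)..x, p s) - 2 * c ≤ ⨅ x : ℝ, ∫ s in (0 : ℝ)..x, p s := by
      refine le_ciInf fun y => ?_
      have := A3a_osc h x y
      linarith
    linarith
  unfold wp
  rw [abs_le]
  constructor <;> linarith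

private theorem A3a_zero {a b : ℝ} {u : Hz} (hu : Sz a b u) {x y : ℝ} (hxy : ∀ z ∈ Ioo (min x y) (max x y), z ∉ Icc a b) :
    ∫ z in x..y, u z = 0 := by
  have h1 : ∫ z in x..y, u z = ∫ z in x..y, (0 : ℝ) := by
    refine intervalIntegral.integral_congr_ae ?_
    have h2 : ∀ᵐ z : ℝ, z ≠ max x y := by
      simp [ae_iff]
    filter_upwards [hu, h2] with z hz h3 h4
    rw [uIoc, mem_Ioc] at h4
    exact hz (hxy z ⟨h4.1, lt_of_le_of_ne h4.2 h3⟩)
  rw [h1, intervalIntegral.integral_zero]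

private theorem A3a_cl {a b : ℝ} (hab : a ≤ b) {u : Hz} (hu : Sz a b u) (x : ℝ) :
    ∫ z in x..(max a (min b x)), u z = 0 := by
  refine A3a_zero hu ?_
  intro z hz h
  rcases lt_or_ge x a with h1 | h1
  · have h2 : min b x = x := min_eq_right (by linarith)
    have h3 : max a x = a := max_eq_left h1.le
    rw [h2, h3, max_eq_right h1.le] at hz
    linarith [hz.2, h.1]
  · rcases le_or_gt x b with h2 | h2
    · have h3 : min b x = x := min_eq_right h2
      have h4 : max a x = x := max_eq_right h1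
      rw [h3, h4, min_self, max_self] at hz
      linarith [hz.1, hz.2]
    · have h3 : min b x = b := min_eq_left h2.le
      have h4 : max a b = b := max_eq_right hab
      rw [h3, h4, min_eq_right h2.le] at hz
      linarith [hz.1, h.2]

private theorem A3a_D {a b : ℝ} (hab : a ≤ b) {u : Hz} (hu : Sz a b u) (x : ℝ) :
    |∫ s in (0 : ℝ)..x, u s| ≤ √(b - a) * ‖u‖ := by
  have h1 := A3a_cl hab hu 0
  have h2 := A3a_cl hab hu x
  have h3 := intervalIntegral.integral_add_adjacent_intervals (int_ii u 0 x) (int_ii u x (max a (min b x)))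
  have h4 := intervalIntegral.integral_add_adjacent_intervals (int_ii u 0 (max a (min b 0))) (int_ii u (max a (min b 0)) (max a (min b x)))
  have h5 : ∫ s in (0 : ℝ)..x, u s = ∫ s in (max a (min b 0))..(max a (min b x)), u s := by linarith
  rw [h5]
  refine (hz_cs u _ _).trans (mul_le_mul_of_nonneg_right (Real.sqrt_le_sqrt ?_) (norm_nonneg _))
  have k1 : a ≤ max a (min b 0) := le_max_left _ _
  have k2 : max a (min b 0) ≤ b := max_le hab (min_le_left _ _)
  have k3 : a ≤ max a (min b x) := le_max_left _ _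
  have k4 : max a (min b x) ≤ b := max_le hab (min_le_left _ _)
  rw [abs_le]
  constructor <;> linarith

theorem wp_lip {c a b : ℝ} {p q : Hz} (hp : p ∈ Kc c) (hq : q ∈ Kc c) (h1 : Sz a b p) (h2 : Sz a b q) (z : ℝ) :
    |wp p z - wp q z| ≤ 2 * √(b - a) * ‖p - q‖ := by
  rcases le_or_gt a b with hab | hab
  · have hu : Sz a b (p - q) := by
      unfold Sz
      filter_upwards [h1, h2, Lp.coeFn_sub p q] with z k1 k2 k3 k4
      rw [k3, Pi.sub_apply, k1 k4, k2 k4, sub_zero]
    set D := √(b - a) * ‖p - q‖ with hD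
    have hx : ∀ x : ℝ, |(∫ s in (0 : ℝ)..x, p s) - ∫ s in (0 : ℝ)..x, q s| ≤ D := by
      intro x
      rw [← int_sub]
      exact A3a_D hab hu x
    have s1 : (⨆ x : ℝ, ∫ s in (0 : ℝ)..x, p s) ≤ (⨆ x : ℝ, ∫ s in (0 : ℝ)..x, q s) + D := by
      refine ciSup_le fun x => ?_
      have k1 := le_ciSup (A3a_ba hq) x
      have k2 := (abs_le.1 (hx x)).2
      linarith
    have s2 : (⨆ x : ℝ, ∫ s in (0 : ℝ)..x, q s) ≤ (⨆ x : ℝ, ∫ s in (0 : ℝ)..x, p s) + D := by
      refine ciSup_le fun x => ?_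
      have k1 := le_ciSup (A3a_ba hp) x
      have k2 := (abs_le.1 (hx x)).1
      linarith
    have s3 : (⨅ x : ℝ, ∫ s in (0 : ℝ)..x, p s) - D ≤ ⨅ x : ℝ, ∫ s in (0 : ℝ)..x, q s := by
      refine le_ciInf fun x => ?_
      have k1 := ciInf_le (A3a_bb hp) x
      have k2 := (abs_le.1 (hx x)).2
      linarith
    have s4 : (⨅ x : ℝ, ∫ s in (0 : ℝ)..x, q s) - D ≤ ⨅ x : ℝ, ∫ s in (0 : ℝ)..x, p s := by
      refine le_ciInf fun x => ?_
      have k1 := ciInf_le (A3a_bb hq) x
      have k2 := (abs_le.1 (hx x)).1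
      linarith
    have s5 := abs_le.1 (hx z)
    have s6 : 2 * √(b - a) * ‖p - q‖ = 2 * D := by rw [hD]; ring
    rw [s6]
    unfold wp
    rw [abs_le]
    constructor <;> linarith [s5.1, s5.2]
  · have e : p = q := by
      apply Lp.ext
      filter_upwards [h1, h2] with z k1 k2
      rw [k1 (by rw [Icc_eq_empty (not_le.2 hab)]; exact notMem_empty z),
        k2 (by rw [Icc_eq_empty (not_le.2 hab)]; exact notMem_empty z)]
    rw [e, sub_self, abs_zero]
    positivity

theorem wp_smul (r : ℝ) (hr : 0 ≤ r) (p : Hz) (z : ℝ) : wp (r • p) z = r * wp p z := by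
  unfold wp
  simp only [int_smul]
  rw [← Real.mul_iSup_of_nonneg hr, ← Real.mul_iInf_of_nonneg hr]
  ring

theorem wp_Ts {c : ℝ} {p : Hz} (h : p ∈ Kc c) (s z : ℝ) : wp (Ts s p) z = wp p (z + s) := by
  have h1 : ∀ x : ℝ, (∫ t in (0 : ℝ)..x, (Ts s p) t) = (∫ t in (0 : ℝ)..(x + s), p t) - ∫ t in (0 : ℝ)..s, p t := by
    intro x
    have h2 := intervalIntegral.integral_add_adjacent_intervals (int_ii p 0 s) (int_ii p s (x + s))
    rw [Ts_int, zero_add]
    linarith
  have hs : Function.Surjective fun x : ℝ => x + s := fun y => ⟨y - s, by simp⟩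
  have h3 : (⨆ x : ℝ, ∫ t in (0 : ℝ)..x, (Ts s p) t) = (⨆ x : ℝ, ∫ t in (0 : ℝ)..x, p t) - ∫ t in (0 : ℝ)..s, p t := by
    rw [ciSup_sub (A3a_ba h)]
    simp only [h1]
    exact hs.iSup_comp fun y : ℝ => (∫ t in (0 : ℝ)..y, p t) - ∫ t in (0 : ℝ)..s, p t
  have h4 : (⨅ x : ℝ, ∫ t in (0 : ℝ)..x, (Ts s p) t) = (⨅ x : ℝ, ∫ t in (0 : ℝ)..x, p t) - ∫ t in (0 : ℝ)..s, p t := by
    rw [ciInf_sub (A3a_bb h)]
    simp only [h1]
    exact hs.iInf_comp fun y : ℝ => (∫ t in (0 : ℝ)..y, p t) - ∫ t in (0 : ℝ)..s, p t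
  unfold wp
  rw [h3, h4, h1]
  ring

end Pool.Agent.H42.TQ
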