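import Pool.Agent.H42.TQ.A3a

/-!
ROW TQ_A3b (integration by parts with the primitive, the competitor). MP_09540e_TQ, PI helper42. Hz = Lp R 2 on the line; Kc, Pc (projection), gc = f - Pc, ec in TQ/Defs.lean; proved facts (helper94) in TQ/A1, A2 (Kc_add, Kc_smul,
Pc_mem, Pc_vi, Pc_lip, gc_lip, Pc_norm, gc_norm, Pc_rel, Pc_cont, int_ii, int_add, int_smul ...), B1 (fib_coe, fib_inner, fib_inner', fib_norm, fib_cont, fib_add, fib_out, fib_fub,
Cs.taylor, Cs.lip, Cs.box, Cs.pd ...), translations Ts s (p(z+s)) in H88/TQ/A4a.lean (Ts_coe, Ts_Kc, Pc_Ts, ec_Ts). Use only the STATEMENTS of imported rows; auxiliary lemmas private or with the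
prefix A3b_ ; statements FIXED (tell helper42 at once if one is wrong or awkward); no double quotes in the file; lake build the file; land only your own
file (tools/land.sh --force), set state done, message helper42. Proof:

P(x) = int_0^x p, wp p = const - P. wp_ibp (main tool): for phi in C^1 and a, b: int_a^b (phi(z) p(z) - deriv phi(z) wp(z)) dz = phi(a) wp(a) - phi(b) wp(b), i.e. (phi wp)' = phi' wp - phi p
a.e.: Fubini (int_a^b phi'(z) (int_a^z p) dz = int_a^b p(s)(phi(b) - phi(s)) ds), or approximation of p by continuous functions in L2 on [a,b] (both sides continuous in p by hz_cs), or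
the integration by parts for absolutely continuous functions if Mathlib has it. wp_parts: take supp phi inside (a,b) (first vanishing terms), wp_le not needed.
competitor: r(z) = (1-th) p + th q + th' (w_p - w_q); W = (1-th) w_p + th w_q satisfies W(a) - W(b) = int_a^b r (wp_ibp with 1 - th for p and th for q), |W| <= (1-th) c + th c = c (wp_le),
so |int_a^b r| <= 2c. r is in L2: th in [0,1] continuous times L2, th' (w_p - w_q) continuous with compact support (MemLp); take toLp.
-/

set_option autoImplicit false

open Set Filter Topology MeasureTheory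
open scoped ContDiff InnerProductSpace

namespace Pool.Agent.H42.TQ

open Pool.Agent.H16 Pool.Agent.H87.NS Pool.Agent.H72.CC Pool.Agent.H16.TU Pool.Agent.H94.EP Pool.Agent.H87.EP Pool.Agent.H88.TQ

theorem wp_ibp (p : Hz) {φ : ℝ → ℝ} (h1 : ContDiff ℝ 1 φ) (a b : ℝ) :
    ∫ z in a..b, φ z * p z = (∫ z in a..b, deriv φ z * wp p z) + φ a * wp p a - φ b * wp p b := by
  have hi : IntervalIntegrable (fun z => p z) volume a b := int_ii p a b
  have hg : AbsolutelyContinuousOnInterval (fun x => ∫ v in a..x, p v) a b :=
    hi.absolutelyContinuousOnInterval_intervalIntegral left_mem_uIcc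
  have hf : AbsolutelyContinuousOnInterval φ a b := h1.contDiffOn.absolutelyContinuousOnInterval
  have h := hf.integral_mul_deriv_eq_deriv_mul hg
  have e1 : ∫ x in a..b, φ x * deriv (fun x => ∫ v in a..x, p v) x = ∫ x in a..b, φ x * p x := by
    refine intervalIntegral.integral_congr_ae ?_
    filter_upwards [hi.ae_hasDerivAt_integral] with x hx hx'
    rw [(hx (uIoc_subset_uIcc hx') a left_mem_uIcc).deriv]
  have e2 : ∀ x, wp p x = wp p a - ∫ v in a..x, p v := fun x => by
    have := wp_sub p a x
    linarith
  have cφ : Continuous (deriv φ) := h1.continuous_deriv le_rfl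
  have cg : ContinuousOn (fun x => ∫ v in a..x, p v) (uIcc a b) := hg.continuousOn
  have e3 : ∫ z in a..b, deriv φ z * wp p z
      = wp p a * (φ b - φ a) - ∫ z in a..b, deriv φ z * ∫ v in a..z, p v := by
    have k1 : ∀ z, deriv φ z * wp p z = wp p a * deriv φ z - deriv φ z * ∫ v in a..z, p v := fun z => by
      rw [e2 z]
      ring
    have k2 : IntervalIntegrable (fun z => wp p a * deriv φ z) volume a b :=
      (continuous_const.mul cφ).intervalIntegrable a b
    have k3 : IntervalIntegrable (fun z => deriv φ z * ∫ v in a..z, p v) volume a b :=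
      (cφ.continuousOn.mul cg).intervalIntegrable
    rw [intervalIntegral.integral_congr (g := fun z => wp p a * deriv φ z - deriv φ z * ∫ v in a..z, p v)
      fun z _ => k1 z, intervalIntegral.integral_sub k2 k3, intervalIntegral.integral_const_mul,
      hf.integral_deriv_eq_sub]
  rw [e1] at h
  rw [h, e3, intervalIntegral.integral_same, e2 b]
  ring

theorem wp_parts (p : Hz) {φ : ℝ → ℝ} (h1 : ContDiff ℝ 1 φ) (h2 : HasCompactSupport φ) :
    ∫ z, p z * φ z = ∫ z, wp p z * deriv φ z := by
  obtain ⟨R, hR⟩ := h2.isCompact.isBounded.subset_closedBall (0 : ℝ)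
  have hs : ∀ z, φ z ≠ 0 → |z| ≤ R := fun z hz => by
    have := hR (subset_tsupport φ hz)
    simpa using this
  have hd : ∀ z, deriv φ z ≠ 0 → |z| ≤ R := fun z hz => by
    have := hR (support_deriv_subset hz)
    simpa using this
  have k1 : ∫ z in (-(R + 1))..(R + 1), p z * φ z = ∫ z, p z * φ z := by
    refine intervalIntegral.integral_eq_integral_of_support_subset fun z hz => ?_
    have := abs_le.1 (hs z (right_ne_zero_of_mul hz))
    exact ⟨by linarith [this.1], by linarith [this.2]⟩
  have k2 : ∫ z in (-(R + 1))..(R + 1), wp p z * deriv φ z = ∫ z, wp p z * deriv φ z := by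
    refine intervalIntegral.integral_eq_integral_of_support_subset fun z hz => ?_
    have := abs_le.1 (hd z (right_ne_zero_of_mul hz))
    exact ⟨by linarith [this.1], by linarith [this.2]⟩
  have z1 : φ (-(R + 1)) = 0 := by
    by_contra hz
    have := abs_le.1 (hs _ hz)
    linarith [this.1]
  have z2 : φ (R + 1) = 0 := by
    by_contra hz
    have := abs_le.1 (hs _ hz)
    linarith [this.2]
  have h := wp_ibp p h1 (-(R + 1)) (R + 1)
  rw [z1, z2] at h
  rw [← k1, ← k2]
  rw [intervalIntegral.integral_congr (g := fun z => φ z * p z) fun z _ => mul_comm _ _, h,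
    intervalIntegral.integral_congr (g := fun z => wp p z * deriv φ z) fun z _ => mul_comm _ _]
  ring

/-- The competitor. -/
theorem competitor {c : ℝ} {p q : Hz} (hp : p ∈ Kc c) (hq : q ∈ Kc c) {θ : ℝ → ℝ} (h1 : ContDiff ℝ 1 θ)
    (h2 : HasCompactSupport (deriv θ)) (h0 : ∀ z, 0 ≤ θ z) (h3 : ∀ z, θ z ≤ 1) :
    ∃ r ∈ Kc c, r =ᵐ[volume] fun z => (1 - θ z) * p z + θ z * q z + deriv θ z * (wp p z - wp q z) := by
  have cθ : Continuous θ := h1.continuous
  have cd : Continuous (deriv θ) := h1.continuous_deriv le_rfl
  have m1 : MemLp (fun z => (1 - θ z) * p z) 2 volume := by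
    refine (Lp.memLp p).of_le_mul (c := 1) ((continuous_const.sub cθ).aestronglyMeasurable.mul
      (Lp.aestronglyMeasurable p)) (Eventually.of_forall fun z => ?_)
    rw [norm_mul, Real.norm_eq_abs (1 - θ z)]
    refine mul_le_mul_of_nonneg_right ?_ (norm_nonneg _)
    rw [abs_le]
    exact ⟨by linarith [h3 z], by linarith [h0 z]⟩
  have m2 : MemLp (fun z => θ z * q z) 2 volume := by
    refine (Lp.memLp q).of_le_mul (c := 1) (cθ.aestronglyMeasurable.mul
      (Lp.aestronglyMeasurable q)) (Eventually.of_forall fun z => ?_)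
    rw [norm_mul, Real.norm_eq_abs (θ z)]
    refine mul_le_mul_of_nonneg_right ?_ (norm_nonneg _)
    rw [abs_le]
    exact ⟨by linarith [h0 z], h3 z⟩
  have cw : Continuous fun z => deriv θ z * (wp p z - wp q z) := cd.mul ((wp_cont p).sub (wp_cont q))
  have m3 : MemLp (fun z => deriv θ z * (wp p z - wp q z)) 2 volume :=
    cw.memLp_of_hasCompactSupport h2.mul_right
  have m : MemLp (fun z => (1 - θ z) * p z + θ z * q z + deriv θ z * (wp p z - wp q z)) 2 volume :=
    (m1.add m2).add m3
  refine ⟨m.toLp _, fun a b => ?_, m.coeFn_toLp⟩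
  have i1 : IntervalIntegrable (fun z => (1 - θ z) * p z) volume a b :=
    (int_ii p a b).continuousOn_mul (continuous_const.sub cθ).continuousOn
  have i2 : IntervalIntegrable (fun z => θ z * q z) volume a b := (int_ii q a b).continuousOn_mul cθ.continuousOn
  have i3 : IntervalIntegrable (fun z => deriv θ z * (wp p z - wp q z)) volume a b := cw.intervalIntegrable a b
  have j1 : IntervalIntegrable (fun z => deriv θ z * wp p z) volume a b := (cd.mul (wp_cont p)).intervalIntegrable a b
  have j2 : IntervalIntegrable (fun z => deriv θ z * wp q z) volume a b := (cd.mul (wp_cont q)).intervalIntegrable a b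
  have e0 : ∫ z in a..b, (m.toLp _ : Hz) z
      = ∫ z in a..b, ((1 - θ z) * p z + θ z * q z + deriv θ z * (wp p z - wp q z)) :=
    intervalIntegral.integral_congr_ae (m.coeFn_toLp.mono fun z hz _ => hz)
  have e1 := wp_ibp p (φ := fun z => 1 - θ z) (contDiff_const.sub h1) a b
  have e2 := wp_ibp q h1 a b
  have e3 : ∫ z in a..b, deriv (fun z => 1 - θ z) z * wp p z = - ∫ z in a..b, deriv θ z * wp p z := by
    rw [← intervalIntegral.integral_neg]
    refine intervalIntegral.integral_congr fun z _ => ?_
    have : deriv (fun z => 1 - θ z) z = - deriv θ z := by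
      rw [deriv_const_sub]
    show deriv (fun z => 1 - θ z) z * wp p z = -(deriv θ z * wp p z)
    rw [this]
    ring
  have e4 : ∫ z in a..b, deriv θ z * (wp p z - wp q z)
      = (∫ z in a..b, deriv θ z * wp p z) - ∫ z in a..b, deriv θ z * wp q z := by
    rw [← intervalIntegral.integral_sub j1 j2]
    refine intervalIntegral.integral_congr fun z _ => ?_
    show deriv θ z * (wp p z - wp q z) = deriv θ z * wp p z - deriv θ z * wp q z
    ring
  have e5 : ∫ z in a..b, (m.toLp _ : Hz) z
      = ((1 - θ a) * wp p a + θ a * wp q a) - ((1 - θ b) * wp p b + θ b * wp q b) := by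
    rw [e0, intervalIntegral.integral_add (i1.add i2) i3, intervalIntegral.integral_add i1 i2, e4, e2]
    rw [e3] at e1
    rw [e1]
    ring
  have hW : ∀ z, |(1 - θ z) * wp p z + θ z * wp q z| ≤ c := fun z => by
    have a1 := abs_le.1 (wp_le hp z)
    have a2 := abs_le.1 (wp_le hq z)
    have t0 := h0 z
    have t1 : 0 ≤ 1 - θ z := by linarith [h3 z]
    rw [abs_le]
    constructor
    · have b1 := mul_le_mul_of_nonneg_left a1.1 t1
      have b2 := mul_le_mul_of_nonneg_left a2.1 t0
      linarith
    · have b1 := mul_le_mul_of_nonneg_left a1.2 t1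
      have b2 := mul_le_mul_of_nonneg_left a2.2 t0
      linarith
  rw [e5]
  have w1 := abs_le.1 (hW a)
  have w2 := abs_le.1 (hW b)
  rw [abs_le]
  exact ⟨by linarith [w1.1, w2.2], by linarith [w1.2, w2.1]⟩

end Pool.Agent.H42.TQ
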