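import Pool.Agent.H42.TQ.A3a

/-!
ROW TQ_A3c (averages of a Lipschitz curve of translates). MP_09540e_TQ, PI helper42. Hz = Lp R 2 on the line; Kc, Pc (projection), gc = f - Pc, ec in TQ/Defs.lean; proved facts (helper94) in TQ/A1, A2 (Kc_add, Kc_smul,
Pc_mem, Pc_vi, Pc_lip, gc_lip, Pc_norm, gc_norm, Pc_rel, Pc_cont, int_ii, int_add, int_smul ...), B1 (fib_coe, fib_inner, fib_inner', fib_norm, fib_cont, fib_add, fib_out, fib_fub,
Cs.taylor, Cs.lip, Cs.box, Cs.pd ...), translations Ts s (p(z+s)) in H88/TQ/A4a.lean (Ts_coe, Ts_Kc, Pc_Ts, ec_Ts). Use only the STATEMENTS of imported rows; auxiliary lemmas private or with the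
prefix A3c_ ; statements FIXED (tell helper42 at once if one is wrong or awkward); no double quotes in the file; lake build the file; land only your own
file (tools/land.sh --force), set state done, message helper42. Proof:

w_p(z) - w_p(z+s) - s p(z) = int_z^{z+s} p - s p(z) (wp_sub) = s int_0^1 (p(z + s t) - p(z)) dt for a.e. z; the square is <= s^2 int_0^1 |p(z+st)-p(z)|^2 dt (Cauchy-Schwarz),
integrate over z with Tonelli: <= s^2 int_0^1 |Ts (s t) p - p|^2 dt <= s^2 A^2 s^2. With lintegrals both the integrability and the bound follow. (Measurability in (z,t) of p(z + s t): p is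
a.e. strongly measurable, choose a measurable representative: Lp.stronglyMeasurable p gives a strongly measurable coercion.)
avg_lim: |int h (w(z) - w(z+s)) - s int h p| <= |h|_2 A s^2 (Cauchy-Schwarz with avg_l2).
-/

set_option autoImplicit false

open Set Filter Topology MeasureTheory
open scoped ContDiff InnerProductSpace

namespace Pool.Agent.H42.TQ

open Pool.Agent.H16 Pool.Agent.H87.NS Pool.Agent.H72.CC Pool.Agent.H16.TU Pool.Agent.H94.EP Pool.Agent.H87.EP Pool.Agent.H88.TQ

private theorem A3c_rep (p : Hz) (s z : ℝ) :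
    wp p z - wp p (z + s) - s * p z = ∫ t in (0 : ℝ)..1, s * (p (z + s * t) - p z) := by
  have h1 := wp_sub p z (z + s)
  have h2 : ∫ t in (0 : ℝ)..1, s * (p (z + s * t)) = ∫ x in z..(z + s), p x := by
    rw [intervalIntegral.integral_const_mul]
    simp
  have hi : IntervalIntegrable (fun t => s * (p (z + s * t))) volume 0 1 := by
    rcases eq_or_ne s 0 with hs | hs
    · simp [hs]
    · have h4 := (int_ii p (z + s * 0) (z + s * 1)).comp_add_left z
      have h5 := h4.comp_mul_left (c := s)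
      have h6 : IntervalIntegrable (fun t => p (z + s * t)) volume 0 1 := by
        convert h5 using 1 <;> field_simp <;> ring
      exact h6.const_mul s
  have h7 : ∫ t in (0 : ℝ)..1, s * (p (z + s * t) - p z) =
      (∫ t in (0 : ℝ)..1, s * (p (z + s * t))) - ∫ t in (0 : ℝ)..1, s * p z := by
    rw [← intervalIntegral.integral_sub hi (by simp)]
    congr 1
    funext t
    ring
  rw [h7, h2]
  simp
  linarith

private theorem A3c_sq (p : Hz) {s : ℝ} (hs : s ≠ 0) (z : ℝ) :
    Integrable (fun t => (p (z + s * t)) ^ 2) := by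
  have h1 : Integrable fun x : ℝ => p x ^ 2 := (Lp.memLp p).integrable_sq
  have h2 := (h1.comp_add_left z).comp_mul_left' hs
  exact h2

private theorem A3c_ii (p : Hz) {s : ℝ} (hs : s ≠ 0) (z : ℝ) :
    IntervalIntegrable (fun t => p (z + s * t)) volume 0 1 := by
  have h4 := (int_ii p (z + s * 0) (z + s * 1)).comp_add_left z
  have h5 := h4.comp_mul_left (c := s)
  convert h5 using 1 <;> field_simp <;> ring

private theorem A3c_ii2 (p : Hz) {s : ℝ} (hs : s ≠ 0) (z : ℝ) :
    IntervalIntegrable (fun t => (s * (p (z + s * t) - p z)) ^ 2) volume 0 1 := by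
  have h1 : IntervalIntegrable (fun t => (p (z + s * t)) ^ 2) volume 0 1 := (A3c_sq p hs z).intervalIntegrable
  have h2 := ((h1.sub ((A3c_ii p hs z).const_mul (2 * p z))).add
    (intervalIntegrable_const (c := p z ^ 2))).const_mul (s ^ 2)
  refine h2.congr fun t _ => ?_
  ring

private theorem A3c_pt (p : Hz) {s : ℝ} (hs : s ≠ 0) (z : ℝ) :
    (wp p z - wp p (z + s) - s * p z) ^ 2 ≤ ∫ t in (0 : ℝ)..1, (s * (p (z + s * t) - p z)) ^ 2 := by
  rw [A3c_rep]
  set I : ℝ := ∫ t in (0 : ℝ)..1, s * (p (z + s * t) - p z) with hI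
  have hi : IntervalIntegrable (fun t => s * (p (z + s * t) - p z)) volume 0 1 :=
    ((A3c_ii p hs z).sub intervalIntegrable_const).const_mul s
  have h1 : ∫ t in (0 : ℝ)..1, (2 * I * (s * (p (z + s * t) - p z)) - I ^ 2) ≤
      ∫ t in (0 : ℝ)..1, (s * (p (z + s * t) - p z)) ^ 2 := by
    refine intervalIntegral.integral_mono_on zero_le_one ((hi.const_mul _).sub intervalIntegrable_const)
      (A3c_ii2 p hs z) fun t _ => ?_
    linarith only [sq_nonneg (s * (p (z + s * t) - p z) - I)]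
  rw [intervalIntegral.integral_sub (hi.const_mul _) intervalIntegrable_const,
    intervalIntegral.integral_const_mul, ← hI] at h1
  simp at h1
  nlinarith [h1]

private theorem A3c_nrm (p : Hz) (u : ℝ) :
    Integrable (fun z => (p (z + u) - p z) ^ 2) ∧ ∫ z, (p (z + u) - p z) ^ 2 = ‖Ts u p - p‖ ^ 2 := by
  have h1 : (fun z => (p (z + u) - p z) ^ 2) =ᵐ[volume] fun z => ((Ts u p - p : Hz) z) ^ 2 := by
    filter_upwards [Ts_coe u p, Lp.coeFn_sub (Ts u p) p] with z h2 h3
    rw [h3, Pi.sub_apply, h2]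
  refine ⟨(Lp.memLp (Ts u p - p)).integrable_sq.congr h1.symm, ?_⟩
  rw [integral_congr_ae h1, ← real_inner_self_eq_norm_sq, L2.inner_def]
  refine integral_congr_ae ?_
  filter_upwards with z
  simp [pow_two]

private theorem A3c_main {A : ℝ} {p : Hz} (h : ∀ t : ℝ, ‖Ts t p - p‖ ≤ A * |t|) {s : ℝ} (hs : s ≠ 0) :
    ∫⁻ z, ENNReal.ofReal ((wp p z - wp p (z + s) - s * p z) ^ 2) ≤ ENNReal.ofReal (A ^ 2 * s ^ 4) := by
  have hm : Measurable fun z => p z := (Lp.stronglyMeasurable p).measurable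
  have h1 : ∀ z, ENNReal.ofReal ((wp p z - wp p (z + s) - s * p z) ^ 2) ≤
      ∫⁻ t in Ioc (0 : ℝ) 1, ENNReal.ofReal ((s * (p (z + s * t) - p z)) ^ 2) := fun z => by
    have h2 := A3c_pt p hs z
    rw [intervalIntegral.integral_of_le zero_le_one] at h2
    refine (ENNReal.ofReal_le_ofReal h2).trans ?_
    rw [ofReal_integral_eq_lintegral_ofReal]
    · exact (intervalIntegrable_iff_integrableOn_Ioc_of_le zero_le_one).1 (A3c_ii2 p hs z)
    · exact Filter.Eventually.of_forall fun t => sq_nonneg _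
  have hF : Measurable (Function.uncurry fun z t : ℝ => ENNReal.ofReal ((s * (p (z + s * t) - p z)) ^ 2)) := by
    have e1 : Measurable fun x : ℝ × ℝ => p (x.1 + s * x.2) :=
      hm.comp (measurable_fst.add (measurable_snd.const_mul s))
    have e2 : Measurable fun x : ℝ × ℝ => p x.1 := hm.comp measurable_fst
    exact (((e1.sub e2).const_mul s).pow_const 2).ennreal_ofReal
  calc ∫⁻ z, ENNReal.ofReal ((wp p z - wp p (z + s) - s * p z) ^ 2)
      ≤ ∫⁻ z, ∫⁻ t in Ioc (0 : ℝ) 1, ENNReal.ofReal ((s * (p (z + s * t) - p z)) ^ 2) := lintegral_mono h1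
    _ = ∫⁻ t in Ioc (0 : ℝ) 1, ∫⁻ z, ENNReal.ofReal ((s * (p (z + s * t) - p z)) ^ 2) :=
        lintegral_lintegral_swap hF.aemeasurable
    _ ≤ ∫⁻ t in Ioc (0 : ℝ) 1, ENNReal.ofReal (A ^ 2 * s ^ 4) := by
        refine setLIntegral_mono measurable_const fun t ht => ?_
        obtain ⟨k1, k2⟩ := A3c_nrm p (s * t)
        have e3 : ∀ z, (s * (p (z + s * t) - p z)) ^ 2 = s ^ 2 * (p (z + s * t) - p z) ^ 2 := fun z => by ring
        simp only [e3]
        rw [← ofReal_integral_eq_lintegral_ofReal (k1.const_mul _)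
          (Filter.Eventually.of_forall fun z => by positivity), integral_const_mul, k2]
        refine ENNReal.ofReal_le_ofReal ?_
        have e4 := h (s * t)
        have e5 : ‖Ts (s * t) p - p‖ ^ 2 ≤ (A * |s * t|) ^ 2 := by gcongr
        have e6 : (A * |s * t|) ^ 2 = A ^ 2 * s ^ 2 * t ^ 2 := by rw [mul_pow, sq_abs]; ring
        have e7 : t ^ 2 ≤ 1 := by nlinarith only [ht.1, ht.2]
        rw [e6] at e5
        have e8 : A ^ 2 * s ^ 2 * t ^ 2 ≤ A ^ 2 * s ^ 2 * 1 := by gcongr
        calc s ^ 2 * ‖Ts (s * t) p - p‖ ^ 2 ≤ s ^ 2 * (A ^ 2 * s ^ 2 * 1) := by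
              gcongr
              exact e5.trans e8
          _ = A ^ 2 * s ^ 4 := by ring
    _ = ENNReal.ofReal (A ^ 2 * s ^ 4) := by simp

theorem avg_l2 {A : ℝ} (hA : 0 ≤ A) {p : Hz} (h : ∀ t : ℝ, ‖Ts t p - p‖ ≤ A * |t|) (s : ℝ) :
    Integrable (fun z => (wp p z - wp p (z + s) - s * p z) ^ 2) ∧
      ∫ z, (wp p z - wp p (z + s) - s * p z) ^ 2 ≤ A ^ 2 * s ^ 4 := by
  rcases eq_or_ne s 0 with hs | hs
  · subst hs
    simp
  have h0 := A3c_main h hs
  have hm : Measurable fun z => (wp p z - wp p (z + s) - s * p z) ^ 2 := by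
    have hw : Measurable (wp p) := (wp_cont p).measurable
    have hp : Measurable fun z => p z := (Lp.stronglyMeasurable p).measurable
    exact ((hw.sub (hw.comp (measurable_id.add_const s))).sub (hp.const_mul s)).pow_const 2
  have hI : Integrable (fun z => (wp p z - wp p (z + s) - s * p z) ^ 2) := by
    refine ⟨hm.aestronglyMeasurable, ?_⟩
    rw [hasFiniteIntegral_iff_ofReal (Filter.Eventually.of_forall fun z => sq_nonneg _)]
    exact h0.trans_lt ENNReal.ofReal_lt_top
  refine ⟨hI, ?_⟩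
  rw [integral_eq_lintegral_of_nonneg_ae (Filter.Eventually.of_forall fun z => sq_nonneg _) hm.aestronglyMeasurable]
  exact ENNReal.toReal_le_of_le_ofReal (by positivity) h0

theorem avg_lim {A : ℝ} (hA : 0 ≤ A) {p : Hz} (h : ∀ t : ℝ, ‖Ts t p - p‖ ≤ A * |t|) (g : Hz) (s : ℝ)
    (hg : Integrable fun z => g z * (wp p z - wp p (z + s))) :
    |(∫ z, g z * (wp p z - wp p (z + s))) - s * ⟪g, p⟫_ℝ| ≤ ‖g‖ * (A * s ^ 2) := by
  obtain ⟨h1, h2⟩ := avg_l2 hA h s
  set D : ℝ → ℝ := fun z => wp p z - wp p (z + s) - s * p z with hD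
  have hDm : AEStronglyMeasurable D volume := by
    have hw : Measurable (wp p) := (wp_cont p).measurable
    have hp : Measurable fun z => p z := (Lp.stronglyMeasurable p).measurable
    exact ((hw.sub (hw.comp (measurable_id.add_const s))).sub (hp.const_mul s)).aestronglyMeasurable
  have hDL : MemLp D 2 volume := (memLp_two_iff_integrable_sq hDm).2 h1
  have hDn : ‖hDL.toLp D‖ ≤ A * s ^ 2 := by
    have e1 : ‖hDL.toLp D‖ ^ 2 ≤ (A * s ^ 2) ^ 2 := by
      rw [← real_inner_self_eq_norm_sq, L2.inner_def]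
      have e2 : ∫ z, ⟪(hDL.toLp D : Hz) z, (hDL.toLp D : Hz) z⟫_ℝ = ∫ z, D z ^ 2 := by
        refine integral_congr_ae ?_
        filter_upwards [hDL.coeFn_toLp] with z hz
        rw [hz]
        simp [pow_two]
      rw [e2]
      calc ∫ z, D z ^ 2 ≤ A ^ 2 * s ^ 4 := h2
        _ = (A * s ^ 2) ^ 2 := by ring
    exact (sq_le_sq₀ (norm_nonneg _) (by positivity)).1 e1
  have h3 : ⟪g, hDL.toLp D⟫_ℝ = (∫ z, g z * (wp p z - wp p (z + s))) - s * ⟪g, p⟫_ℝ := by
    have e1 : ⟪g, p⟫_ℝ = ∫ z, g z * p z := by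
      rw [L2.inner_def]
      refine integral_congr_ae ?_
      filter_upwards with z
      simp [mul_comm]
    have i1 : Integrable fun z => g z * p z := (Lp.memLp g).integrable_mul (Lp.memLp p)
    rw [L2.inner_def, e1, ← integral_const_mul, ← integral_sub hg (i1.const_mul s)]
    refine integral_congr_ae ?_
    filter_upwards [hDL.coeFn_toLp] with z hz
    rw [hz]
    simp only [hD]
    simp
    ring
  rw [← h3]
  refine (abs_real_inner_le_norm _ _).trans ?_
  gcongr

end Pool.Agent.H42.TQ
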