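import Pool.Agent.H42.TQ.A3a

/-! The projection keeps the support; Lipschitz constants of the translates of a fibre. -/

set_option autoImplicit false

open Set Filter Topology MeasureTheory
open scoped ContDiff InnerProductSpace

namespace Pool.Agent.H42.TQ

open Pool.Agent.H16 Pool.Agent.H87.NS Pool.Agent.H72.CC Pool.Agent.H16.TU Pool.Agent.H94.EP Pool.Agent.H87.EP Pool.Agent.H88.TQ

private theorem A4b_nsq (q : Hz) : ‖q‖ ^ 2 = ∫ z, q z ^ 2 := by
  rw [← real_inner_self_eq_norm_sq, L2.inner_def]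
  refine integral_congr_ae (Eventually.of_forall fun z => ?_)
  simp [pow_two]

private theorem A4b_pt {f : ℝ → ℝ} (h1 : ContDiff ℝ 1 f) (z t : ℝ) :
    (f (z + t) - f z) ^ 2 ≤ t ^ 2 * ∫ s in (0 : ℝ)..1, deriv f (z + t * s) ^ 2 := by
  have hc : Continuous (deriv f) := h1.continuous_deriv le_rfl
  have hd : ∀ s : ℝ, HasDerivAt (fun s => f (z + t * s)) (deriv f (z + t * s) * t) s := by
    intro s
    have k1 : HasDerivAt f (deriv f (z + t * s)) (z + t * s) :=
      (h1.differentiable one_ne_zero (z + t * s)).hasDerivAt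
    have k2 : HasDerivAt (fun s : ℝ => z + t * s) t s := by
      simpa using ((hasDerivAt_id s).const_mul t).const_add z
    exact k1.comp s k2
  have hcs : Continuous fun s : ℝ => deriv f (z + t * s) := by fun_prop
  obtain ⟨m, hm⟩ : ∃ m, m = ∫ s in (0 : ℝ)..1, deriv f (z + t * s) := ⟨_, rfl⟩
  have e : f (z + t) - f z = m * t := by
    have k := intervalIntegral.integral_eq_sub_of_hasDerivAt (a := 0) (b := 1) (fun s _ => hd s)
      ((hcs.mul continuous_const).intervalIntegrable _ _)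
    rw [intervalIntegral.integral_mul_const, ← hm] at k
    simpa using k.symm
  have k0 : 0 ≤ ∫ s in (0 : ℝ)..1, (deriv f (z + t * s) - m) ^ 2 :=
    intervalIntegral.integral_nonneg zero_le_one fun _ _ => sq_nonneg _
  have k1 : (∫ s in (0 : ℝ)..1, (deriv f (z + t * s) - m) ^ 2) =
      (∫ s in (0 : ℝ)..1, deriv f (z + t * s) ^ 2) - m ^ 2 := by
    have k2 : (∫ s in (0 : ℝ)..1, (deriv f (z + t * s) - m) ^ 2) =
        ∫ s in (0 : ℝ)..1, (deriv f (z + t * s) ^ 2 - (2 * m * deriv f (z + t * s) - m ^ 2)) := by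
      refine intervalIntegral.integral_congr fun s _ => ?_
      ring
    have i1 : IntervalIntegrable (fun s : ℝ => deriv f (z + t * s) ^ 2) volume 0 1 := (hcs.pow 2).intervalIntegrable _ _
    have i2 : IntervalIntegrable (fun s : ℝ => 2 * m * deriv f (z + t * s)) volume 0 1 :=
      (continuous_const.mul hcs).intervalIntegrable _ _
    have i3 : IntervalIntegrable (fun _ : ℝ => m ^ 2) volume 0 1 := continuous_const.intervalIntegrable _ _
    rw [k2, intervalIntegral.integral_sub i1 (i2.sub i3), intervalIntegral.integral_sub i2 i3,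
      intervalIntegral.integral_const_mul, ← hm, intervalIntegral.integral_const]
    simp only [sub_zero, one_smul]
    ring
  rw [k1] at k0
  rw [e, mul_pow, mul_comm]
  exact mul_le_mul_of_nonneg_left (by linarith) (sq_nonneg t)

private theorem A4b_fub {g : ℝ → ℝ} (hg : Continuous g) (hs : HasCompactSupport g) (t : ℝ) :
    Integrable (fun z => ∫ s in (0 : ℝ)..1, g (z + t * s)) ∧
      ∫ z, ∫ s in (0 : ℝ)..1, g (z + t * s) = ∫ z, g z := by
  have hgi : Integrable g := hg.integrable_of_hasCompactSupport hs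
  have hi : Integrable (fun p : ℝ × ℝ => g (p.1 + t * p.2)) (volume.prod (volume.restrict (Ioc (0 : ℝ) 1))) := by
    have hc : Continuous fun p : ℝ × ℝ => g (p.1 + t * p.2) := by fun_prop
    rw [integrable_prod_iff' hc.aestronglyMeasurable]
    refine ⟨ae_of_all _ fun s => hgi.comp_add_right (t * s), ?_⟩
    have e : (fun s : ℝ => ∫ z : ℝ, ‖g (z + t * s)‖) = fun _ => ∫ z, ‖g z‖ :=
      funext fun s => integral_add_right_eq_self (fun z => ‖g z‖) (t * s)
    show Integrable (fun s : ℝ => ∫ z : ℝ, ‖g (z + t * s)‖) _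
    rw [e]
    exact integrable_const _
  simp only [intervalIntegral.integral_of_le zero_le_one]
  refine ⟨hi.integral_prod_left, ?_⟩
  rw [integral_integral_swap hi]
  have e : (fun s : ℝ => ∫ z : ℝ, g (z + t * s)) = fun _ => ∫ z, g z :=
    funext fun s => integral_add_right_eq_self g (t * s)
  rw [e]
  simp

private theorem A4b_Kc {c : ℝ} {v v1 : Hz} {a b : ℝ} (hv : v ∈ Kc c)
    (e1 : (v1 : ℝ → ℝ) =ᵐ[volume] (Ioc a b).indicator fun z => v z) : v1 ∈ Kc c := by
  have key : ∀ x y : ℝ, x ≤ y → ∃ x' y' : ℝ, ∫ z in x..y, v1 z = ∫ z in x'..y', v z := by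
    intro x y hxy
    have h2 : ∫ z in x..y, v1 z = ∫ z in Ioc x y ∩ Ioc a b, v z := by
      rw [intervalIntegral.integral_of_le hxy, ← setIntegral_indicator measurableSet_Ioc]
      exact setIntegral_congr_ae measurableSet_Ioc (e1.mono fun z hz _ => hz)
    rw [Ioc_inter_Ioc] at h2
    rcases le_total (x ⊔ a) (y ⊓ b) with h1 | h1
    · exact ⟨x ⊔ a, y ⊓ b, by rw [h2, intervalIntegral.integral_of_le h1]⟩
    · exact ⟨0, 0, by rw [h2, Ioc_eq_empty (not_lt.2 h1)]; simp⟩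
  intro x y
  rcases le_total x y with hxy | hxy
  · obtain ⟨x', y', e⟩ := key x y hxy
    rw [e]
    exact hv x' y'
  · obtain ⟨x', y', e⟩ := key y x hxy
    rw [intervalIntegral.integral_symm, abs_neg, e]
    exact hv x' y'

theorem Pc_supp {c a b : ℝ} (hc : 0 ≤ c) (hab : a ≤ b) {f : Hz} (h : Sz a b f) : Sz a b (Pc c f) := by
  have hvK := Pc_mem hc f
  have hvi := fun {p : Hz} (hp : p ∈ Kc c) => Pc_vi f hp
  generalize Pc c f = v at hvK hvi ⊢
  have hm : MemLp ((Ioc a b).indicator fun z => v z) 2 volume := (Lp.memLp v).indicator measurableSet_Ioc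
  have e1 : (hm.toLp _ : ℝ → ℝ) =ᵐ[volume] (Ioc a b).indicator fun z => v z := hm.coeFn_toLp
  have hi := hvi (A4b_Kc hvK e1)
  generalize hm.toLp _ = v1 at e1 hi
  rw [L2.inner_def] at hi
  have hne : ∀ᵐ z : ℝ, z ≠ a := by
    have : (volume : Measure ℝ) {a} = 0 := by simp
    exact measure_eq_zero_iff_ae_notMem.1 this
  have hpt : ∀ᵐ z : ℝ, (z ∈ Icc a b → inner ℝ ((f - v : Hz) z) ((v1 - v : Hz) z) = 0) ∧
      (z ∉ Icc a b → inner ℝ ((f - v : Hz) z) ((v1 - v : Hz) z) = v z ^ 2) := by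
    filter_upwards [Lp.coeFn_sub f v, Lp.coeFn_sub v1 v, e1, h, hne] with z k1 k2 k3 k4 k5
    rw [k1, k2, Pi.sub_apply, Pi.sub_apply, k3]
    refine ⟨fun hz => ?_, fun hz => ?_⟩
    · have hz' : z ∈ Ioc a b := ⟨lt_of_le_of_ne hz.1 (Ne.symm k5), hz.2⟩
      rw [indicator_of_mem hz', sub_self, inner_zero_right]
    · have hz' : z ∉ Ioc a b := fun hh => hz (Ioc_subset_Icc_self hh)
      rw [indicator_of_notMem hz', k4 hz, zero_sub]
      simp [pow_two]
  have hnn : 0 ≤ᵐ[volume] fun z : ℝ => (inner ℝ ((f - v : Hz) z) ((v1 - v : Hz) z) : ℝ) := by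
    filter_upwards [hpt] with z hz
    by_cases hzz : z ∈ Icc a b
    · exact (hz.1 hzz).ge
    · rw [hz.2 hzz]
      exact sq_nonneg _
  have h0 : ∫ z : ℝ, (inner ℝ ((f - v : Hz) z) ((v1 - v : Hz) z) : ℝ) = 0 :=
    le_antisymm hi (integral_nonneg_of_ae hnn)
  have h3 := (integral_eq_zero_iff_of_nonneg_ae hnn (L2.integrable_inner _ _)).1 h0
  filter_upwards [hpt, h3] with z hz k hzn
  have k' : (inner ℝ ((f - v : Hz) z) ((v1 - v : Hz) z) : ℝ) = 0 := k
  rw [hz.2 hzn] at k'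
  exact pow_eq_zero_iff two_ne_zero |>.1 k'

theorem gc_supp {c a b : ℝ} (hc : 0 ≤ c) (hab : a ≤ b) {f : Hz} (h : Sz a b f) : Sz a b (gc c f) := by
  unfold gc
  filter_upwards [Lp.coeFn_sub f (Pc c f), h, Pc_supp hc hab h] with z k1 k2 k3 hz
  rw [k1, Pi.sub_apply, k2 hz, k3 hz, sub_zero]

theorem Ts_lip {f : ℝ → ℝ} (h1 : ContDiff ℝ 1 f) (h2 : HasCompactSupport f) {p : Hz} (hp : p =ᵐ[volume] f) (t : ℝ) :
    ‖Ts t p - p‖ ≤ √(∫ z, deriv f z ^ 2) * |t| := by
  have hg : Continuous fun z => deriv f z ^ 2 := (h1.continuous_deriv le_rfl).pow 2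
  have hs : HasCompactSupport fun z => deriv f z ^ 2 := h2.deriv.comp_left (g := fun y : ℝ => y ^ 2) (by simp)
  obtain ⟨hi, he⟩ := A4b_fub hg hs t
  have hp2 : (fun z => p (z + t)) =ᵐ[volume] fun z => f (z + t) :=
    (measurePreserving_add_right volume t).quasiMeasurePreserving.ae_eq_comp hp
  have h3 : ‖Ts t p - p‖ ^ 2 ≤ t ^ 2 * ∫ z, deriv f z ^ 2 := by
    rw [A4b_nsq, ← he, ← integral_const_mul]
    refine integral_mono_of_nonneg (ae_of_all _ fun z => sq_nonneg _) (hi.const_mul _) ?_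
    filter_upwards [Lp.coeFn_sub (Ts t p) p, Ts_coe t p, hp, hp2] with z k1 k2 k3 k4
    show (Ts t p - p : Hz) z ^ 2 ≤ t ^ 2 * ∫ s in (0 : ℝ)..1, deriv f (z + t * s) ^ 2
    rw [k1, Pi.sub_apply, k2, k3, k4]
    exact A4b_pt h1 z t
  have h4 := Real.sqrt_le_sqrt h3
  rw [Real.sqrt_sq (norm_nonneg _), Real.sqrt_mul (sq_nonneg t), Real.sqrt_sq_eq_abs] at h4
  rwa [mul_comm] at h4

theorem Pc_Tlip {c : ℝ} (hc : 0 ≤ c) (p : Hz) (t : ℝ) : ‖Ts t (Pc c p) - Pc c p‖ ≤ ‖Ts t p - p‖ := by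
  rw [← Pc_Ts hc]
  exact Pc_lip hc _ _

theorem gc_Tlip {c : ℝ} (hc : 0 ≤ c) (p : Hz) (t : ℝ) : ‖Ts t (gc c p) - gc c p‖ ≤ ‖Ts t p - p‖ := by
  have e : Ts t (gc c p) = gc c (Ts t p) := by
    unfold gc
    rw [map_sub, Pc_Ts hc]
  rw [e]
  exact gc_lip hc _ _

end Pool.Agent.H42.TQ
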