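import Pool.Agent.H42.TQ.A3b
import Pool.Agent.H42.TQ.A3c
import Pool.Agent.H42.TQ.A4b
import Pool.Agent.H42.TQ.B1

/-!
ROW TQ_A5 (tests of Kc, the product of projection and complement). MP_09540e_TQ, PI helper42. Hz = Lp R 2 on the line; Kc, Pc (projection), gc = f - Pc, ec in TQ/Defs.lean; proved facts (helper94) in TQ/A1, A2 (Kc_add, Kc_smul,
Pc_mem, Pc_vi, Pc_lip, gc_lip, Pc_norm, gc_norm, Pc_rel, Pc_cont, int_ii, int_add, int_smul ...), B1 (fib_coe, fib_inner, fib_inner', fib_norm, fib_cont, fib_add, fib_out, fib_fub,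
Cs.taylor, Cs.lip, Cs.box, Cs.pd ...), translations Ts s (p(z+s)) in H88/TQ/A4a.lean (Ts_coe, Ts_Kc, Pc_Ts, ec_Ts). Use only the STATEMENTS of imported rows; auxiliary lemmas private or with the
prefix A5_ ; statements FIXED (tell helper42 at once if one is wrong or awkward); replace every sorry; no double quotes in the file; lake build the file; land only your own
file (tools/land.sh --force), set state done, message helper42. Proof:

Kc_test: wp_parts and wp_le. Pc_self: fib_inner' and Kc_test with phi(z) = F(pt q z) (deriv = pd 2 F (pt q z)).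
vg_le: v = Pc c p, g = gc c p = p - v, w = wp v, |w| <= c; v and g vanish a.e. outside [a,b] (A4b). A = sqrt(int f'^2). First replace psi by psi times a smooth cutoff which is 1 on a
neighbourhood of [a,b]: nothing changes, so psi has compact support. h = g psi (in L2, compact support). For s in (0,1]:
avg_lim (p := v, constant A by Pc_Tlip, Ts_lip; the g of avg_lim := class of h): (1/s) int h(z)(w(z) - w(z+s)) dz -> int h v as s -> 0+.
And int h(z) (w(z) - w(z+s)) dz = int w(z) (h(z) - h(z-s)) dz (translation; h in L1, w bounded continuous), h(z) - h(z-s) = (g(z) - g(z-s)) psi(z-s) + g(z)(psi(z) - psi(z-s)),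
hence |..| <= c ( |g - Ts(-s) g| (int_{a-s}^{b} psi^2)^{1/2} + |g| (int_a^b (psi - psi(.-s))^2)^{1/2} ) <= c ( s A (int_{a-s}^b psi^2)^{1/2} + |g| (int_a^b (psi(z) - psi(z-s))^2)^{1/2} )
(g(z) - g(z-s) vanishes unless z in [a, b+s], so z - s in [a-s, b]). Divide by s and let s -> 0+: continuity of the integral in its limit, uniform convergence of
(psi(z) - psi(z-s))/s to psi' on [a,b].
-/

set_option autoImplicit false

open Set Filter Topology MeasureTheory
open scoped ContDiff InnerProductSpace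

namespace Pool.Agent.H42.TQ

open Pool.Agent.H16 Pool.Agent.H87.NS Pool.Agent.H72.CC Pool.Agent.H16.TU Pool.Agent.H94.EP Pool.Agent.H87.EP Pool.Agent.H88.TQ

theorem Kc_test {c : ℝ} {p : Hz} (hp : p ∈ Kc c) {φ : ℝ → ℝ} (h1 : ContDiff ℝ 1 φ) (h2 : HasCompactSupport φ) :
    |∫ z, p z * φ z| ≤ c * ∫ z, |deriv φ z| := by
  rw [wp_parts p h1 h2, ← integral_const_mul]
  have hd : Continuous (deriv φ) := h1.continuous_deriv le_rfl
  have hi : Integrable (fun z => c * |deriv φ z|) := (hd.abs.integrable_of_hasCompactSupport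
    (h2.deriv.comp_left abs_zero)).const_mul c
  refine (abs_integral_le_integral_abs).trans (integral_mono_of_nonneg (Eventually.of_forall fun z => abs_nonneg _) hi
    (Eventually.of_forall fun z => ?_))
  simp only [abs_mul]
  exact mul_le_mul_of_nonneg_right (wp_le hp z) (abs_nonneg _)

theorem Pc_fib {c : ℝ} {p : Hz} (hp : p ∈ Kc c) {G : E3 → ℝ} (hG : Cs G) (q : ℝ × ℝ) :
    |⟪p, fib G q⟫_ℝ| ≤ c * ∫ z, |pd 2 G (pt q z)| := by
  have hpt : ∀ z, HasDerivAt (fun z => pt q z) (e 2) z := by
    intro z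
    have h : (fun z => pt q z) = fun t : ℝ => pt q z + (t - z) • e 2 := by
      funext t
      apply ext3
      · show q.1 = q.1 + (t - z) * e 2 0
        rw [e_apply]; simp
      · show q.2 = q.2 + (t - z) * e 2 1
        rw [e_apply]; simp
      · show t = z + (t - z) * e 2 2
        rw [e_apply]; simp
    rw [h]
    have h1 := (((hasDerivAt_id z).sub_const z).smul_const (e 2)).const_add (pt q z)
    simpa using h1
  have hd : ∀ z, HasDerivAt (fun z => G (pt q z)) (pd 2 G (pt q z)) z := by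
    intro z
    exact ((hG.sm.differentiable (by simp)).differentiableAt.hasFDerivAt).comp_hasDerivAt z (hpt z)
  have hd' : deriv (fun z => G (pt q z)) = fun z => pd 2 G (pt q z) := funext fun z => (hd z).deriv
  have h1 : ContDiff ℝ 1 (fun z => G (pt q z)) := by
    rw [contDiff_one_iff_deriv]
    refine ⟨fun z => (hd z).differentiableAt, ?_⟩
    rw [hd']
    exact ((hG.pd 2).slice q).1
  rw [fib_inner' hG]
  have h3 := Kc_test hp h1 (hG.slice q).2
  rw [hd'] at h3
  exact h3

private theorem A5_norm (G : Hz) : ‖G‖ = √(∫ z, G z ^ 2) := by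
  have h : ‖G‖ ^ 2 = ∫ z, G z ^ 2 := by
    rw [← real_inner_self_eq_norm_sq, L2.inner_def]
    refine integral_congr_ae (Eventually.of_forall fun z => ?_)
    show G z * G z = _
    ring
  rw [← h, Real.sqrt_sq (norm_nonneg _)]

private theorem A5_mem {α β : ℝ} {φ : ℝ → ℝ} (hφ : Continuous φ) :
    MemLp ((Icc α β).indicator φ) 2 volume := by
  obtain ⟨M, hM⟩ := isCompact_Icc.exists_bound_of_continuousOn (s := Icc α β) hφ.continuousOn
  rw [memLp_indicator_iff_restrict measurableSet_Icc]
  exact MemLp.of_bound hφ.aestronglyMeasurable M ((ae_restrict_iff' measurableSet_Icc).2 (Eventually.of_forall hM))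

private theorem A5_cs {α β : ℝ} (hab : α ≤ β) {G : Hz} (hS : Sz α β G) {φ : ℝ → ℝ} (hφ : Continuous φ) :
    Integrable (fun z => |G z * φ z|) ∧ ∫ z, |G z * φ z| ≤ ‖G‖ * √(∫ z in α..β, φ z ^ 2) := by
  have hm := A5_mem (α := α) (β := β) hφ.abs
  obtain ⟨Φ, hΦ⟩ : ∃ Φ : Hz, Φ = hm.toLp _ := ⟨_, rfl⟩
  have hc : (Φ : ℝ → ℝ) =ᵐ[volume] (Icc α β).indicator (fun z => |φ z|) := by
    rw [hΦ]
    exact hm.coeFn_toLp
  have he : (fun z => |G z * φ z|) =ᵐ[volume] fun z => (|G| : Hz) z * Φ z := by
    filter_upwards [hc, Lp.coeFn_abs G, hS] with z h1 h2 h3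
    rw [h1, h2, abs_mul]
    by_cases hz : z ∈ Icc α β
    · rw [indicator_of_mem hz]
    · rw [h3 hz]
      simp
  have hin : (fun z => (|G| : Hz) z * Φ z) = fun z => ⟪Φ z, (|G| : Hz) z⟫_ℝ := by
    funext z
    rfl
  have hi : Integrable (fun z => (|G| : Hz) z * Φ z) := by
    rw [hin]
    exact L2.integrable_inner Φ |G|
  refine ⟨hi.congr he.symm, ?_⟩
  rw [integral_congr_ae he]
  have h1 : ∫ z, (|G| : Hz) z * Φ z = ⟪Φ, |G|⟫_ℝ := by
    rw [L2.inner_def, hin]
  have h2 : ‖Φ‖ = √(∫ z in α..β, φ z ^ 2) := by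
    rw [A5_norm, intervalIntegral.integral_of_le hab, ← integral_Icc_eq_integral_Ioc,
      ← integral_indicator measurableSet_Icc]
    congr 1
    refine integral_congr_ae ?_
    filter_upwards [hc] with z hz
    rw [hz]
    by_cases h : z ∈ Icc α β
    · rw [indicator_of_mem h, indicator_of_mem h, sq_abs]
    · rw [indicator_of_notMem h, indicator_of_notMem h]
      simp
  rw [h1]
  refine (real_inner_le_norm _ _).trans ?_
  rw [norm_abs_eq_norm, h2, mul_comm]

/-- Difference quotients of a function of class `C¹`. -/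
private theorem A5_dq {ψ : ℝ → ℝ} (h : ContDiff ℝ 1 ψ) :
    Continuous (fun x : ℝ × ℝ => ∫ t in (0 : ℝ)..1, deriv ψ (x.2 - x.1 * t)) ∧
      ∀ s z : ℝ, ψ z - ψ (z - s) = s * ∫ t in (0 : ℝ)..1, deriv ψ (z - s * t) := by
  have hd : Continuous (deriv ψ) := h.continuous_deriv le_rfl
  constructor
  · refine intervalIntegral.continuous_parametric_intervalIntegral_of_continuous' ?_ 0 1
    simp only [Function.uncurry_def]
    fun_prop
  · intro s z
    have h1 : ∀ t : ℝ, HasDerivAt (fun t => - ψ (z - s * t)) (s * deriv ψ (z - s * t)) t := by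
      intro t
      have h2 : HasDerivAt (fun t : ℝ => z - s * t) (-s) t := by
        have := ((hasDerivAt_id t).const_mul s).const_sub z
        simpa using this
      have h3 := ((h.differentiable (by norm_num)).differentiableAt (x := z - s * t)).hasDerivAt
      have h4 := (h3.comp t h2).neg
      refine h4.congr_deriv ?_
      ring
    have h5 := intervalIntegral.integral_eq_sub_of_hasDerivAt (a := 0) (b := 1) (fun t _ => h1 t)
      (Continuous.intervalIntegrable (by fun_prop) _ _)
    rw [intervalIntegral.integral_const_mul] at h5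
    rw [h5, mul_one, mul_zero, sub_zero]
    ring

/-- `∫ v g ψ` for smooth `ψ`, the norms of `ψ` only on the support `[a, b]` of `f`. -/
theorem vg_le {c a b : ℝ} (hc : 0 ≤ c) (hab : a ≤ b) {f : ℝ → ℝ} (h1 : ContDiff ℝ 1 f) (h2 : ∀ z, z ∉ Icc a b → f z = 0)
    {p : Hz} (hp : p =ᵐ[volume] f) {ψ : ℝ → ℝ} (h3 : ContDiff ℝ 1 ψ) :
    |∫ z, Pc c p z * gc c p z * ψ z| ≤ c * (√(∫ z in a..b, ψ z ^ 2) * √(∫ z, deriv f z ^ 2) +
      ‖gc c p‖ * √(∫ z in a..b, deriv ψ z ^ 2)) := by
  obtain ⟨A, hA⟩ : ∃ A, A = √(∫ z, deriv f z ^ 2) := ⟨_, rfl⟩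
  have hA0 : 0 ≤ A := by rw [hA]; exact Real.sqrt_nonneg _
  obtain ⟨v, hv⟩ : ∃ v, v = Pc c p := ⟨_, rfl⟩
  obtain ⟨g, hg⟩ : ∃ g, g = gc c p := ⟨_, rfl⟩
  have hψ : Continuous ψ := h3.continuous
  have hcs : HasCompactSupport f := HasCompactSupport.intro (isCompact_Icc (a := a) (b := b)) h2
  have hpS : Sz a b p := by
    filter_upwards [hp] with z hz h
    rw [hz, h2 z h]
  have hvS : Sz a b v := by rw [hv]; exact Pc_supp hc hab hpS
  have hgS : Sz a b g := by rw [hg]; exact gc_supp hc hab hpS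
  have hTv : ∀ t : ℝ, ‖Ts t v - v‖ ≤ A * |t| := fun t => by
    rw [hv, hA]; exact (Pc_Tlip hc p t).trans (Ts_lip h1 hcs hp t)
  have hTg : ∀ t : ℝ, ‖Ts t g - g‖ ≤ A * |t| := fun t => by
    rw [hg, hA]; exact (gc_Tlip hc p t).trans (Ts_lip h1 hcs hp t)
  obtain ⟨w, hw⟩ : ∃ w, w = wp v := ⟨_, rfl⟩
  have hwb : ∀ z, |w z| ≤ c := fun z => by rw [hw, hv]; exact wp_le (Pc_mem hc p) z
  have hwc : Continuous w := by rw [hw]; exact wp_cont v
  -- the product
  have hm : MemLp (fun z => g z * ψ z) 2 volume := by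
    obtain ⟨M, hM⟩ := isCompact_Icc.exists_bound_of_continuousOn (s := Icc a b) hψ.continuousOn
    refine MemLp.of_le_mul (c := M) (Lp.memLp g) ((Lp.aestronglyMeasurable g).mul hψ.aestronglyMeasurable) ?_
    filter_upwards [hgS] with z hz
    by_cases h : z ∈ Icc a b
    · rw [norm_mul, mul_comm]
      exact mul_le_mul_of_nonneg_right (hM z h) (norm_nonneg _)
    · rw [hz h]
      simp
  obtain ⟨H, hH⟩ : ∃ H : Hz, H = hm.toLp _ := ⟨_, rfl⟩
  have hHc : (H : ℝ → ℝ) =ᵐ[volume] fun z => g z * ψ z := by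
    rw [hH]
    exact hm.coeFn_toLp
  have hHi : Integrable (fun z => H z) := by
    have h := (A5_cs hab hgS hψ).1
    have h' : Integrable (fun z => g z * ψ z) := by
      refine (integrable_norm_iff hm.aestronglyMeasurable).1 ?_
      exact h
    exact h'.congr hHc.symm
  have hHs : ∀ s : ℝ, Integrable (fun z => H (z - s)) := fun s => hHi.comp_sub_right s
  have hbd : ∀ s : ℝ, Integrable (fun z => H z * (w z - w (z + s))) := by
    intro s
    refine hHi.mul_bdd (c := 2 * c) ?_ ?_
    · exact (hwc.sub (hwc.comp (continuous_id.add continuous_const))).aestronglyMeasurable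
    · refine Eventually.of_forall fun z => ?_
      have e1 := abs_sub (w z) (w (z + s))
      have e2 := hwb z
      have e3 := hwb (z + s)
      rw [Real.norm_eq_abs]
      linarith
  have hinner : ⟪H, v⟫_ℝ = ∫ z, Pc c p z * gc c p z * ψ z := by
    rw [L2.inner_def]
    refine integral_congr_ae ?_
    filter_upwards [hHc] with z hz
    show v z * H z = _
    rw [hz, hv, hg]
    ring
  -- the estimate for positive `s`
  have key : ∀ s : ℝ, 0 < s → |⟪H, v⟫_ℝ| ≤ ‖H‖ * (A * s) + c * (A * √(∫ z in (a - s)..b, ψ z ^ 2) +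
      ‖g‖ * √(∫ z in a..b, (∫ t in (0 : ℝ)..1, deriv ψ (z - s * t)) ^ 2)) := by
    intro s hs
    have e1 := avg_lim hA0 hTv H s (by rw [← hw]; exact hbd s)
    rw [← hw] at e1
    -- translation
    have i1 : Integrable (fun z => H z * w z) := by
      refine hHi.mul_bdd (c := c) hwc.aestronglyMeasurable (Eventually.of_forall fun z => hwb z)
    have i2 : Integrable (fun z => H z * w (z + s)) := by
      refine hHi.mul_bdd (c := c) (hwc.comp (continuous_id.add continuous_const)).aestronglyMeasurable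
        (Eventually.of_forall fun z => hwb (z + s))
    have i3 : Integrable (fun z => H (z - s) * w z) := by
      have := i2.comp_sub_right s
      simpa using this
    have e2 : ∫ z, H z * (w z - w (z + s)) = ∫ z, (H z - H (z - s)) * w z := by
      have e3 : ∫ z, H z * w (z + s) = ∫ z, H (z - s) * w z := by
        rw [← integral_sub_right_eq_self (fun z => H z * w (z + s)) s]
        simp
      simp only [mul_sub, sub_mul]
      rw [integral_sub i1 i2, integral_sub i1 i3, e3]
    -- the bound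
    have q1 := A5_cs (α := a - s) (β := b) (by linarith) (G := Ts s g - g) (by
      have hq := (measurePreserving_add_right volume s).quasiMeasurePreserving.ae hgS
      filter_upwards [Ts_coe s g, Lp.coeFn_sub (Ts s g) g, hgS, hq] with z k1 k2 k3 k4 hz
      rw [k2, Pi.sub_apply, k1, k3 (fun h => hz ⟨by linarith [h.1], h.2⟩),
        k4 (fun h => hz ⟨by linarith [h.1], by linarith [h.2]⟩), sub_self]) hψ
    have q2 := A5_cs hab hgS (φ := fun z => ψ z - ψ (z - s)) (by fun_prop)
    have e4 : (fun z => H z - H (z - s)) =ᵐ[volume]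
        fun z => (fun y => (Ts s g - g : Hz) y * ψ y) (z - s) + g z * (ψ z - ψ (z - s)) := by
      have hq1 := (measurePreserving_sub_right volume s).quasiMeasurePreserving.ae hHc
      have hq2 := (measurePreserving_sub_right volume s).quasiMeasurePreserving.ae (Ts_coe s g)
      have hq3 := (measurePreserving_sub_right volume s).quasiMeasurePreserving.ae (Lp.coeFn_sub (Ts s g) g)
      filter_upwards [hHc, hq1, hq2, hq3] with z k1 k2 k3 k4
      simp only [k4, Pi.sub_apply, k3, k1, k2, sub_add_cancel]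
      ring
    have i5 : Integrable (fun z => |(fun y => (Ts s g - g : Hz) y * ψ y) (z - s)|) := q1.1.comp_sub_right s
    have e5 : |∫ z, (H z - H (z - s)) * w z| ≤ c * ((‖Ts s g - g‖ * √(∫ z in (a - s)..b, ψ z ^ 2)) +
        ‖g‖ * √(∫ z in a..b, (ψ z - ψ (z - s)) ^ 2)) := by
      have e6 : |∫ z, (H z - H (z - s)) * w z| ≤ ∫ z, c * (|(fun y => (Ts s g - g : Hz) y * ψ y) (z - s)| +
          |g z * (ψ z - ψ (z - s))|) := by
        refine abs_integral_le_integral_abs.trans (integral_mono_of_nonneg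
          (Eventually.of_forall fun z => abs_nonneg _) ((i5.add q2.1).const_mul c) ?_)
        filter_upwards [e4] with z hz
        rw [hz, abs_mul, mul_comm]
        exact mul_le_mul (hwb z) (abs_add_le _ _) (abs_nonneg _) hc
      refine e6.trans ?_
      rw [integral_const_mul, integral_add i5 q2.1]
      refine mul_le_mul_of_nonneg_left (add_le_add ?_ q2.2) hc
      refine le_trans (le_of_eq ?_) q1.2
      exact integral_sub_right_eq_self (fun z => |(Ts s g - g : Hz) z * ψ z|) s
    rw [e2] at e1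
    have e7 : ∫ z in a..b, (ψ z - ψ (z - s)) ^ 2 = s ^ 2 * ∫ z in a..b, (∫ t in (0 : ℝ)..1, deriv ψ (z - s * t)) ^ 2 := by
      rw [← intervalIntegral.integral_const_mul]
      congr 1
      funext z
      rw [(A5_dq h3).2 s z]
      ring
    rw [e7, Real.sqrt_mul (sq_nonneg s), Real.sqrt_sq hs.le] at e5
    have e8 := hTg s
    rw [abs_of_pos hs] at e8
    obtain ⟨X, hX⟩ : ∃ X, X = √(∫ z in (a - s)..b, ψ z ^ 2) := ⟨_, rfl⟩
    obtain ⟨Y, hY⟩ : ∃ Y, Y = √(∫ z in a..b, (∫ t in (0 : ℝ)..1, deriv ψ (z - s * t)) ^ 2) := ⟨_, rfl⟩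
    rw [← hX, ← hY] at e5 ⊢
    have hX0 : 0 ≤ X := by rw [hX]; exact Real.sqrt_nonneg _
    have e9 : ‖Ts s g - g‖ * X ≤ A * s * X := mul_le_mul_of_nonneg_right e8 hX0
    have e10 : |s * ⟪H, v⟫_ℝ| ≤ ‖H‖ * (A * s ^ 2) + c * (A * s * X + ‖g‖ * (s * Y)) := by
      have k1 := abs_sub_abs_le_abs_sub (s * ⟪H, v⟫_ℝ) (∫ z, (H z - H (z - s)) * w z)
      rw [abs_sub_comm] at k1
      have k2 := mul_le_mul_of_nonneg_left (add_le_add_left e9 (‖g‖ * (s * Y))) hc
      linarith
    rw [abs_mul, abs_of_pos hs] at e10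
    have e11 : s * |⟪H, v⟫_ℝ| ≤ s * (‖H‖ * (A * s) + c * (A * X + ‖g‖ * Y)) := by
      refine e10.trans (le_of_eq ?_)
      ring
    exact le_of_mul_le_mul_left e11 hs
  -- the limit
  have hcont : Continuous (fun s : ℝ => ‖H‖ * (A * s) + c * (A * √(∫ z in (a - s)..b, ψ z ^ 2) +
      ‖g‖ * √(∫ z in a..b, (∫ t in (0 : ℝ)..1, deriv ψ (z - s * t)) ^ 2))) := by
    have k1 : Continuous (fun s : ℝ => ∫ z in (a - s)..b, ψ z ^ 2) := by
      have h : (fun s : ℝ => ∫ z in (a - s)..b, ψ z ^ 2) = fun s : ℝ => - ∫ z in b..(a - s), ψ z ^ 2 := by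
        funext s
        rw [intervalIntegral.integral_symm]
      rw [h]
      refine Continuous.neg ?_
      have h' := intervalIntegral.continuous_primitive (μ := volume) (f := fun z => ψ z ^ 2)
        (fun x y => (hψ.pow 2).intervalIntegrable x y) b
      exact h'.comp (continuous_const.sub continuous_id)
    have k2 : Continuous (fun s : ℝ => ∫ z in a..b, (∫ t in (0 : ℝ)..1, deriv ψ (z - s * t)) ^ 2) := by
      refine intervalIntegral.continuous_parametric_intervalIntegral_of_continuous' ?_ a b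
      exact ((A5_dq h3).1).pow 2
    exact ((continuous_const.mul (continuous_const.mul continuous_id)).add (continuous_const.mul
      ((continuous_const.mul k1.sqrt).add (continuous_const.mul k2.sqrt))))
  have hlim := (hcont.tendsto 0).mono_left (nhdsWithin_le_nhds (s := Ioi (0 : ℝ)))
  have hfin := ge_of_tendsto hlim (by
    filter_upwards [self_mem_nhdsWithin] with s hs
    exact key s hs)
  rw [hinner] at hfin
  simp only [mul_zero, zero_add, sub_zero, zero_mul, intervalIntegral.integral_const, smul_eq_mul, one_mul] at hfin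
  rw [hg, hA] at hfin
  refine hfin.trans (le_of_eq ?_)
  ring

end Pool.Agent.H42.TQ
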