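import Pool.Agent.H42.TQ.A7
import Pool.Agent.H42.TQ.A3c
import Pool.Agent.H42.TQ.A4b

/-!
Transport in the height (row TQ_A6 of MP_09540e_TQ): with `v = Pc c f`, `∫ β v f' = -(1/2) ∫ β' v²`. The neighbour inequality for
the translates of `v / c` has a maximum at the shift zero; its derivative there vanishes.
-/

set_option autoImplicit false

open Set Filter Topology MeasureTheory
open scoped ContDiff InnerProductSpace

namespace Pool.Agent.H42.TQ

open Pool.Agent.H16 Pool.Agent.H87.NS Pool.Agent.H72.CC Pool.Agent.H16.TU Pool.Agent.H94.EP Pool.Agent.H87.EP Pool.Agent.H88.TQ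

private theorem A6_db {F h : ℝ → ℝ} (h1 : ContDiff ℝ 1 F) {K M : ℝ} (hK : ∀ z, |deriv F z| ≤ K)
    (hM : ∀ z, |F z| ≤ M) (hh : Integrable h) :
    HasDerivAt (fun s => ∫ z, F (z - s) * h z) (∫ z, -deriv F z * h z) 0 := by
  have hc : Continuous F := h1.continuous
  have hc' : Continuous (deriv F) := h1.continuous_deriv le_rfl
  have k1 : ∀ s : ℝ, AEStronglyMeasurable (fun z => F (z - s)) volume := fun s =>
    (hc.comp (continuous_id.sub continuous_const)).aestronglyMeasurable
  have k2 : ∀ s : ℝ, AEStronglyMeasurable (fun z => -deriv F (z - s)) volume := fun s =>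
    (hc'.comp (continuous_id.sub continuous_const)).neg.aestronglyMeasurable
  have key := hasDerivAt_integral_of_dominated_loc_of_deriv_le (μ := volume) (F := fun s z => F (z - s) * h z)
    (F' := fun s z => -deriv F (z - s) * h z) (x₀ := (0 : ℝ)) (s := univ) (bound := fun z => K * |h z|)
    univ_mem (Eventually.of_forall fun s => (k1 s).mul hh.aestronglyMeasurable)
    (hh.bdd_mul (c := M) (k1 0) (Eventually.of_forall fun z => by rw [Real.norm_eq_abs]; exact hM _))
    ((k2 0).mul hh.aestronglyMeasurable)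
    (Eventually.of_forall fun z s _ => by
      rw [Real.norm_eq_abs, abs_mul, abs_neg]
      exact mul_le_mul_of_nonneg_right (hK _) (abs_nonneg _))
    (hh.abs.const_mul K)
    (Eventually.of_forall fun z s _ => by
      have e1 : HasDerivAt F (deriv F (z - s)) (z - s) := (h1.differentiable one_ne_zero (z - s)).hasDerivAt
      have e2 : HasDerivAt (fun s : ℝ => z - s) (-1) s := by
        simpa using (hasDerivAt_id s).const_sub z
      have e3 := (e1.comp s e2).mul_const (h z)
      have e4 : deriv F (z - s) * -1 * h z = -deriv F (z - s) * h z := by ring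
      rw [e4] at e3
      exact e3)
  have h3 := key.2
  simp only [sub_zero] at h3
  exact h3

private theorem A6_R {F : ℝ → ℝ} (h2 : HasCompactSupport F) : ∃ R : ℝ, 0 < R ∧ ∀ z, R < |z| → F z = 0 ∧ deriv F z = 0 := by
  obtain ⟨R, hR⟩ := h2.isCompact.isBounded.subset_closedBall (0 : ℝ)
  refine ⟨max R 1, by positivity, fun z hz => ?_⟩
  have hz' : z ∉ tsupport F := fun h => by
    have := hR h
    rw [mem_closedBall_zero_iff, Real.norm_eq_abs] at this
    exact absurd (this.trans (le_max_left R 1)) (not_le.2 hz)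
  refine ⟨image_eq_zero_of_notMem_tsupport hz', ?_⟩
  by_contra h
  exact hz' (support_deriv_subset (Function.mem_support.2 h))

private theorem A6_dc {F : ℝ → ℝ} (h1 : ContDiff ℝ 1 F) (h2 : HasCompactSupport F) (u : Hz) :
    HasDerivAt (fun s => ∫ z, F (z - s) * u z) (∫ z, -deriv F z * u z) 0 := by
  obtain ⟨R, hR0, hR⟩ := A6_R h2
  obtain ⟨M, hM⟩ := h2.exists_bound_of_continuous h1.continuous
  obtain ⟨K, hK⟩ := h2.deriv.exists_bound_of_continuous (h1.continuous_deriv le_rfl)
  have hI : Integrable (indicator (Icc (-R - 1) (R + 1)) fun z => u z) := by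
    rw [integrable_indicator_iff measurableSet_Icc]
    exact ((Lp.memLp u).locallyIntegrable (by norm_num)).integrableOn_isCompact isCompact_Icc
  have key := A6_db h1 (K := K) (M := M) (fun z => by simpa using hK z) (fun z => by simpa using hM z) hI
  have e0 : ∀ s : ℝ, |s| < 1 → ∀ z, F (z - s) * indicator (Icc (-R - 1) (R + 1)) (fun z => u z) z = F (z - s) * u z := by
    intro s hs z
    by_cases hz : z ∈ Icc (-R - 1) (R + 1)
    · rw [indicator_of_mem hz]
    · have : R < |z - s| := by
        rw [abs_lt] at hs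
        rw [mem_Icc, not_and_or, not_le, not_le] at hz
        rcases hz with hz | hz
        · exact lt_of_lt_of_le (by linarith) (neg_le_abs (z - s))
        · exact lt_of_lt_of_le (by linarith) (le_abs_self (z - s))
      rw [(hR _ this).1, zero_mul, zero_mul]
  have e1 : ∀ z, -deriv F z * indicator (Icc (-R - 1) (R + 1)) (fun z => u z) z = -deriv F z * u z := by
    intro z
    by_cases hz : z ∈ Icc (-R - 1) (R + 1)
    · rw [indicator_of_mem hz]
    · have : R < |z| := by
        rw [mem_Icc, not_and_or, not_le, not_le] at hz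
        rcases hz with hz | hz
        · exact lt_of_lt_of_le (by linarith) (neg_le_abs z)
        · exact lt_of_lt_of_le (by linarith) (le_abs_self z)
      rw [(hR _ this).2, neg_zero, zero_mul, zero_mul]
  simp only [e1] at key
  refine key.congr_of_eventuallyEq ?_
  have hn : {s : ℝ | |s| < 1} ∈ 𝓝 (0 : ℝ) := by
    have : IsOpen {s : ℝ | |s| < 1} := isOpen_lt continuous_abs continuous_const
    exact this.mem_nhds (by simp)
  filter_upwards [hn] with s hs
  exact integral_congr_ae (Eventually.of_forall fun z => (e0 s hs z).symm)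

private theorem A6_quad {J : ℝ → ℝ} {L C : ℝ} (h : ∀ s, |J s - s * L| ≤ C * s ^ 2) : HasDerivAt J L 0 := by
  have h0 : J 0 = 0 := by
    have := h 0
    simp only [zero_mul, sub_zero, ne_eq, OfNat.ofNat_ne_zero, not_false_eq_true, zero_pow, mul_zero] at this
    exact abs_eq_zero.1 (le_antisymm this (abs_nonneg _))
  rw [hasDerivAt_iff_isLittleO]
  have h1 : (fun s => J s - J 0 - (s - 0) • L) =O[𝓝 (0 : ℝ)] fun s : ℝ => s ^ 2 := by
    refine Asymptotics.IsBigO.of_bound C (Eventually.of_forall fun s => ?_)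
    rw [h0, sub_zero, sub_zero, smul_eq_mul, Real.norm_eq_abs, Real.norm_eq_abs, abs_of_nonneg (sq_nonneg s)]
    exact h s
  refine (h1.trans_isLittleO (Asymptotics.isLittleO_pow_id one_lt_two)).congr_right fun s => ?_
  rw [sub_zero]

private theorem A6_L2 (u : Hz) (s : ℝ) : MemLp (fun z => u (z + s)) 2 volume :=
  (Lp.memLp u).comp_measurePreserving (measurePreserving_add_right volume s)

private theorem A6_cL2 {F : ℝ → ℝ} (h1 : Continuous F) (h2 : HasCompactSupport F) : MemLp F 2 volume :=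
  h1.memLp_of_hasCompactSupport h2

private theorem A6_mul {F G : ℝ → ℝ} (hF : MemLp F 2 volume) (hG : MemLp G 2 volume) : Integrable fun z => F z * G z :=
  MemLp.integrable_mul (p := 2) (q := 2) hF hG

private theorem A6_star {c : ℝ} (hc : 0 < c) {f : ℝ → ℝ} (h1 : ContDiff ℝ 1 f) (h2 : HasCompactSupport f) {p : Hz}
    (hp : p =ᵐ[volume] f) {θ : ℝ → ℝ} (h3 : ContDiff ℝ 1 θ) (hd : HasCompactSupport (deriv θ)) (hn : ∀ z, 0 ≤ θ z)
    {M : ℝ} (hM : ∀ z, θ z ≤ M) :
    ∫ z, θ z * Pc c p z * deriv f z = - (1 / 2) * ∫ z, deriv θ z * Pc c p z ^ 2 := by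
  have hθc : Continuous θ := h3.continuous
  have hdc : Continuous (deriv θ) := h3.continuous_deriv le_rfl
  have hfc' : Continuous (deriv f) := h1.continuous_deriv le_rfl
  have hM' : ∀ z, ‖θ z‖ ≤ M := fun z => by rw [Real.norm_eq_abs, abs_of_nonneg (hn z)]; exact hM z
  have hM0 : 0 ≤ M := (hn 0).trans (hM 0)
  obtain ⟨K, hK⟩ := hd.exists_bound_of_continuous hdc
  set u : Hz := c⁻¹ • Pc c p with hu
  have hu1 : u ∈ Kc 1 := by
    have := Kc_smul (t := c⁻¹) (Pc_mem hc.le p)
    rwa [abs_of_pos (inv_pos.2 hc), inv_mul_cancel₀ hc.ne'] at this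
  have hv : ∀ᵐ z, Pc c p z = c * u z := by
    filter_upwards [Lp.coeFn_smul c⁻¹ (Pc c p)] with z hz
    rw [hu, hz, Pi.smul_apply, smul_eq_mul, mul_inv_cancel_left₀ hc.ne']
  have hg : ∀ᵐ z, gc c p z = f z - c * u z := by
    filter_upwards [Lp.coeFn_sub p (Pc c p), hv, hp] with z k1 k2 k3
    rw [← k2, ← k3]
    exact k1
  set A : ℝ := c⁻¹ * √(∫ z, deriv f z ^ 2) with hA
  have hA0 : 0 ≤ A := mul_nonneg (inv_nonneg.2 hc.le) (Real.sqrt_nonneg _)
  have hL : ∀ t : ℝ, ‖Ts t u - u‖ ≤ A * |t| := fun t => by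
    have e : Ts t u - u = c⁻¹ • (Ts t (Pc c p) - Pc c p) := by rw [hu, map_smul, smul_sub]
    rw [e, norm_smul, Real.norm_eq_abs, abs_of_pos (inv_pos.2 hc), hA, mul_assoc]
    exact mul_le_mul_of_nonneg_left ((Pc_Tlip hc.le p t).trans (Ts_lip h1 h2 hp t)) (inv_nonneg.2 hc.le)
  -- the four integrals
  set F : ℝ → ℝ := fun z => θ z * f z with hF
  have hF1 : ContDiff ℝ 1 F := h3.mul h1
  have hF2 : HasCompactSupport F := h2.mul_left
  have hu2 : Integrable fun z => u z ^ 2 := (Lp.memLp u).integrable_sq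
  have hG2 : MemLp (fun z => deriv θ z * gc c p z) 2 volume :=
    (Lp.memLp (gc c p)).of_le_mul (c := K) (hdc.aestronglyMeasurable.mul (Lp.aestronglyMeasurable _))
      (Eventually.of_forall fun z => by
        rw [norm_mul]
        exact mul_le_mul_of_nonneg_right (hK z) (norm_nonneg _))
  have hG2c : (hG2.toLp _ : ℝ → ℝ) =ᵐ[volume] fun z => deriv θ z * gc c p z := hG2.coeFn_toLp
  generalize hG2.toLp _ = G at hG2c
  have hw1 : ∀ z, |wp u z| ≤ 1 := wp_le hu1
  have iJ : ∀ s, Integrable fun z => G z * (wp u z - wp u (z + s)) := fun s => by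
    have k1 : Integrable fun z => deriv θ z * gc c p z := A6_mul (A6_cL2 hdc hd) (Lp.memLp _)
    have k2 : Integrable fun z => G z := k1.congr hG2c.symm
    refine k2.mul_bdd (c := 2) ?_ (Eventually.of_forall fun z => ?_)
    · exact ((wp_cont u).sub ((wp_cont u).comp (continuous_id.add continuous_const))).aestronglyMeasurable
    · rw [Real.norm_eq_abs]
      have a1 := abs_sub (wp u z) (wp u (z + s))
      have a2 := hw1 z
      have a3 := hw1 (z + s)
      linarith
  have dJ : HasDerivAt (fun s => ∫ z, G z * (wp u z - wp u (z + s))) ⟪G, u⟫_ℝ 0 :=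
    A6_quad (C := ‖G‖ * A) fun s => by
      have := avg_lim hA0 hL G s (iJ s)
      rwa [← mul_assoc] at this
  have dE1 := A6_dc hF1 hF2 u
  have dE2 := A6_db (F := θ) h3 (K := K) (M := M) (fun z => by simpa using hK z) (fun z => by simpa using hM' z) hu2
  have iR : ∀ s : ℝ, Integrable fun z => θ z * (u (z + s) - u z) ^ 2 := fun s => by
    refine Integrable.bdd_mul (c := M) ?_ hθc.aestronglyMeasurable (Eventually.of_forall hM')
    exact ((A6_L2 u s).sub (Lp.memLp u)).integrable_sq
  have dR : HasDerivAt (fun s => ∫ z, θ z * (u (z + s) - u z) ^ 2) 0 0 := by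
    refine A6_quad (C := M * A ^ 2) fun s => ?_
    rw [mul_zero, sub_zero]
    have e1 : ∫ z, (u (z + s) - u z) ^ 2 = ‖Ts s u - u‖ ^ 2 := by
      rw [← real_inner_self_eq_norm_sq, L2.inner_def]
      refine integral_congr_ae ?_
      filter_upwards [Ts_coe s u, Lp.coeFn_sub (Ts s u) u] with z k1 k2
      rw [k2, Pi.sub_apply, k1]
      simp only [RCLike.inner_apply, conj_trivial]
      ring
    have e2 : 0 ≤ ∫ z, θ z * (u (z + s) - u z) ^ 2 :=
      integral_nonneg fun z => mul_nonneg (hn z) (sq_nonneg _)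
    rw [abs_of_nonneg e2]
    have e3 : ∫ z, θ z * (u (z + s) - u z) ^ 2 ≤ ∫ z, M * (u (z + s) - u z) ^ 2 :=
      integral_mono (iR s) (((A6_L2 u s).sub (Lp.memLp u)).integrable_sq.const_mul M)
        fun z => mul_le_mul_of_nonneg_right (hM z) (sq_nonneg _)
    rw [integral_const_mul, e1] at e3
    have e4 : ‖Ts s u - u‖ ^ 2 ≤ (A * |s|) ^ 2 := pow_le_pow_left₀ (norm_nonneg _) (hL s) 2
    have e5 : (A * |s|) ^ 2 = A ^ 2 * s ^ 2 := by rw [mul_pow, sq_abs]
    rw [e5] at e4
    calc _ ≤ M * ‖Ts s u - u‖ ^ 2 := e3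
      _ ≤ M * (A ^ 2 * s ^ 2) := mul_le_mul_of_nonneg_left e4 hM0
      _ = M * A ^ 2 * s ^ 2 := by ring
  -- the identity
  have i1 : ∀ s, Integrable fun z => F z * u (z + s) := fun s => A6_mul (A6_cL2 hF1.continuous hF2) (A6_L2 u s)
  have i3 : ∀ s : ℝ, Integrable fun z => θ z * u (z + s) ^ 2 := fun s =>
    (A6_L2 u s).integrable_sq.bdd_mul (c := M) hθc.aestronglyMeasurable (Eventually.of_forall hM')
  have key : ∀ s : ℝ, (((∫ z, F (z - s) * u z) - ∫ z, F z * u z) -
      c * (((∫ z, θ (z - s) * u z ^ 2) - ∫ z, θ z * u z ^ 2) / 2 - (∫ z, θ z * (u (z + s) - u z) ^ 2) / 2)) +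
      ∫ z, G z * (wp u z - wp u (z + s)) ≤ 0 := by
    intro s
    have n0 := neighbour hc p (Ts_Kc s hu1) h3 hd hn
    refine le_trans (le_of_eq ?_) n0
    have t1 : ∫ z, F (z - s) * u z = ∫ z, F z * u (z + s) := by
      rw [← integral_sub_right_eq_self (fun z => F z * u (z + s)) s]
      simp only [sub_add_cancel]
    have t2 : ∫ z, θ (z - s) * u z ^ 2 = ∫ z, θ z * u (z + s) ^ 2 := by
      rw [← integral_sub_right_eq_self (fun z => θ z * u (z + s) ^ 2) s]
      simp only [sub_add_cancel]
    have j1 : Integrable fun z => F z * u z := by simpa using i1 0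
    have j3 : Integrable fun z => θ z * u z ^ 2 := by simpa using i3 0
    rw [t1, t2, ← integral_sub (i1 s) j1, ← integral_sub (i3 s) j3, ← integral_div, ← integral_div, ← integral_sub,
      ← integral_const_mul, ← integral_sub, ← integral_add]
    · refine integral_congr_ae ?_
      filter_upwards [hg, hG2c, Ts_coe s u] with z k1 k2 k3
      rw [k2, ← hu, wp_Ts hu1, k3, k1, hF]
      ring
    · exact ((i1 s).sub j1).sub (((((i3 s).sub j3).div_const 2).sub ((iR s).div_const 2)).const_mul c)
    · exact iJ s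
    · exact (i1 s).sub j1
    · exact ((((i3 s).sub j3).div_const 2).sub ((iR s).div_const 2)).const_mul c
    · exact ((i3 s).sub j3).div_const 2
    · exact (iR s).div_const 2
  have dI := ((dE1.sub_const (∫ z, F z * u z)).sub ((((dE2.sub_const (∫ z, θ z * u z ^ 2)).div_const 2).sub
    (dR.div_const 2)).const_mul c)).add dJ
  have hmax := IsLocalMax.hasDerivAt_eq_zero (a := (0 : ℝ)) (Eventually.of_forall fun s => ?_) dI
  swap
  · have k := key s
    have k0 : (((∫ z, F (z - 0) * u z) - ∫ z, F z * u z) -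
      c * (((∫ z, θ (z - 0) * u z ^ 2) - ∫ z, θ z * u z ^ 2) / 2 - (∫ z, θ z * (u (z + 0) - u z) ^ 2) / 2)) +
      ∫ z, G z * (wp u z - wp u (z + 0)) = 0 := by simp
    exact k.trans k0.ge
  -- algebra
  have m1 : Integrable fun z => deriv θ z * f z * u z :=
    A6_mul (A6_cL2 (hdc.mul h1.continuous) h2.mul_left) (Lp.memLp u)
  have m2 : Integrable fun z => θ z * deriv f z * u z :=
    A6_mul (A6_cL2 (hθc.mul hfc') h2.deriv.mul_left) (Lp.memLp u)
  have m3 : Integrable fun z => deriv θ z * u z ^ 2 :=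
    hu2.bdd_mul (c := K) hdc.aestronglyMeasurable (Eventually.of_forall hK)
  have a1 : ∫ z, -deriv F z * u z = -(∫ z, deriv θ z * f z * u z) - ∫ z, θ z * deriv f z * u z := by
    have m1' : Integrable fun z => -(deriv θ z * f z * u z) := m1.neg
    rw [← integral_neg, ← integral_sub m1' m2]
    refine integral_congr_ae (Eventually.of_forall fun z => ?_)
    have : deriv F z = deriv θ z * f z + θ z * deriv f z :=
      deriv_fun_mul (h3.differentiable one_ne_zero z) (h1.differentiable one_ne_zero z)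
    simp only [this]
    ring
  have a2 : ∫ z, -deriv θ z * u z ^ 2 = -∫ z, deriv θ z * u z ^ 2 := by
    rw [← integral_neg]
    refine integral_congr_ae (Eventually.of_forall fun z => ?_)
    ring
  have a3 : ⟪G, u⟫_ℝ = (∫ z, deriv θ z * f z * u z) - c * ∫ z, deriv θ z * u z ^ 2 := by
    rw [L2.inner_def, ← integral_const_mul, ← integral_sub m1 (m3.const_mul c)]
    refine integral_congr_ae ?_
    filter_upwards [hg, hG2c] with z k1 k2
    rw [k2, k1]
    simp only [RCLike.inner_apply, conj_trivial]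
    ring
  rw [a1, a2, a3] at hmax
  have b1 : ∫ z, θ z * Pc c p z * deriv f z = c * ∫ z, θ z * deriv f z * u z := by
    rw [← integral_const_mul]
    refine integral_congr_ae ?_
    filter_upwards [hv] with z k1
    rw [k1]
    ring
  have b2 : ∫ z, deriv θ z * Pc c p z ^ 2 = c ^ 2 * ∫ z, deriv θ z * u z ^ 2 := by
    rw [← integral_const_mul]
    refine integral_congr_ae ?_
    filter_upwards [hv] with z k1
    rw [k1]
    ring
  rw [b1, b2]
  have b3 : ∫ z, θ z * deriv f z * u z = -(c / 2) * ∫ z, deriv θ z * u z ^ 2 := by linarith only [hmax]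
  rw [b3]
  ring

private theorem A6_zero {f : ℝ → ℝ} (h1 : ContDiff ℝ 1 f) (h2 : HasCompactSupport f) {p : Hz}
    (hp : p =ᵐ[volume] f) : Pc 0 p = 0 := by
  have hm := Pc_mem le_rfl p (c := 0)
  have hw : ∀ z, wp (Pc 0 p) z = 0 := fun z => abs_eq_zero.1 (le_antisymm (wp_le hm z) (abs_nonneg _))
  have hL : ∀ t : ℝ, ‖Ts t (Pc 0 p) - Pc 0 p‖ ≤ √(∫ z, deriv f z ^ 2) * |t| := fun t =>
    (Pc_Tlip le_rfl p t).trans (Ts_lip h1 h2 hp t)
  set A := √(∫ z, deriv f z ^ 2) with hA
  generalize Pc 0 p = v at hw hL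
  have k : ∀ s : ℝ, s ≠ 0 → ‖v‖ ^ 2 ≤ A ^ 2 * s ^ 2 := fun s hs => by
    have h := (avg_l2 (Real.sqrt_nonneg _) hL s).2
    have e : ∫ z, (wp v z - wp v (z + s) - s * v z) ^ 2 = s ^ 2 * ‖v‖ ^ 2 := by
      rw [← real_inner_self_eq_norm_sq, L2.inner_def, ← integral_const_mul]
      refine integral_congr_ae (Eventually.of_forall fun z => ?_)
      simp only [hw, RCLike.inner_apply, conj_trivial]
      ring
    rw [e] at h
    have hs2 : 0 < s ^ 2 := by positivity
    have : s ^ 2 * ‖v‖ ^ 2 ≤ s ^ 2 * (A ^ 2 * s ^ 2) := by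
      refine h.trans (le_of_eq ?_)
      ring
    exact le_of_mul_le_mul_left this hs2
  have h0 : ‖v‖ ^ 2 ≤ 0 := by
    have t1 : Tendsto (fun s : ℝ => A ^ 2 * s ^ 2) (𝓝[≠] 0) (𝓝 (A ^ 2 * 0 ^ 2)) :=
      ((continuous_const.mul (continuous_pow 2)).tendsto (0 : ℝ)).mono_left nhdsWithin_le_nhds
    have t2 : A ^ 2 * (0 : ℝ) ^ 2 = 0 := by ring
    rw [t2] at t1
    refine ge_of_tendsto t1 ?_
    filter_upwards [self_mem_nhdsWithin] with s hs
    exact k s hs
  have h3 : ‖v‖ = 0 := by
    have := norm_nonneg v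
    nlinarith only [h0, this]
  exact norm_eq_zero.1 h3

theorem v_dz {c : ℝ} (hc : 0 ≤ c) {f : ℝ → ℝ} (h1 : ContDiff ℝ 1 f) (h2 : HasCompactSupport f) {p : Hz}
    (hp : p =ᵐ[volume] f) {β : ℝ → ℝ} (h3 : ContDiff ℝ 1 β) :
    ∫ z, β z * Pc c p z * deriv f z = - (1 / 2) * ∫ z, deriv β z * Pc c p z ^ 2 := by
  rcases hc.eq_or_lt with h0 | hc0
  · subst h0
    rw [A6_zero h1 h2 hp]
    have e := Lp.coeFn_zero ℝ 2 (volume : Measure ℝ)
    have e1 : ∫ z, β z * (0 : Hz) z * deriv f z = 0 := by
      rw [← integral_zero ℝ ℝ (μ := volume)]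
      refine integral_congr_ae ?_
      filter_upwards [e] with z hz
      rw [hz]
      simp
    have e2 : ∫ z, deriv β z * (0 : Hz) z ^ 2 = 0 := by
      rw [← integral_zero ℝ ℝ (μ := volume)]
      refine integral_congr_ae ?_
      filter_upwards [e] with z hz
      rw [hz]
      simp
    rw [e1, e2, mul_zero]
  obtain ⟨R, hR0, hR⟩ := A6_R h2
  let χ : ContDiffBump (0 : ℝ) := ⟨R + 1, R + 2, by linarith, by linarith⟩
  have hχ1 : ∀ z : ℝ, |z| < R + 1 → χ z = 1 := fun z hz =>
    χ.one_of_mem_closedBall (by rw [mem_closedBall_zero_iff, Real.norm_eq_abs]; exact hz.le)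
  have hχs : ContDiff ℝ 1 (fun z => χ z) := χ.contDiff
  have hχc : HasCompactSupport (fun z => χ z) := χ.hasCompactSupport
  set α : ℝ → ℝ := fun z => χ z * β z with hα
  have hα1 : ContDiff ℝ 1 α := hχs.mul h3
  have hα2 : HasCompactSupport α := hχc.mul_right
  obtain ⟨M, hM⟩ := hα2.exists_bound_of_continuous hα1.continuous
  have hM0 : 0 ≤ M := (norm_nonneg _).trans (hM 0)
  have hda : deriv (fun z => α z + M) = deriv α := by
    funext z
    exact deriv_add_const M
  have s1 := A6_star hc0 h1 h2 hp (θ := fun z => α z + M) (hα1.add contDiff_const) (by rw [hda]; exact hα2.deriv)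
    (fun z => by
      have := hM z
      rw [Real.norm_eq_abs, abs_le] at this
      show 0 ≤ α z + M
      linarith) (M := 2 * M) (fun z => by
      have := hM z
      rw [Real.norm_eq_abs, abs_le] at this
      show α z + M ≤ 2 * M
      linarith)
  have hdc : deriv (fun _ : ℝ => M) = fun _ => 0 := by
    funext z
    exact deriv_const z M
  have s2 := A6_star hc0 h1 h2 hp (θ := fun _ => M) contDiff_const (by rw [hdc]; exact HasCompactSupport.zero)
    (fun z => hM0) (M := M) (fun z => le_rfl)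
  rw [hda] at s1
  rw [hdc] at s2
  have hfc' : Continuous (deriv f) := h1.continuous_deriv le_rfl
  have hz : Sz (-R) R p := by
    filter_upwards [hp] with z hz hzn
    rw [hz]
    refine (hR z ?_).1
    rw [mem_Icc, not_and_or, not_le, not_le] at hzn
    rcases hzn with h | h
    · exact lt_of_lt_of_le (by linarith only [h]) (neg_le_abs z)
    · exact lt_of_lt_of_le h (le_abs_self z)
  have hvs := Pc_supp hc (by linarith : -R ≤ R) hz
  have e1 : ∫ z, β z * Pc c p z * deriv f z = ∫ z, α z * Pc c p z * deriv f z := by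
    refine integral_congr_ae (Eventually.of_forall fun z => ?_)
    show β z * Pc c p z * deriv f z = α z * Pc c p z * deriv f z
    rcases le_or_gt |z| R with h | h
    · rw [hα]
      simp only
      rw [hχ1 z (by linarith), one_mul]
    · rw [(hR z h).2, mul_zero, mul_zero]
  have e2 : ∫ z, deriv β z * Pc c p z ^ 2 = ∫ z, deriv α z * Pc c p z ^ 2 := by
    refine integral_congr_ae ?_
    filter_upwards [hvs] with z hzv
    rcases le_or_gt |z| R with h | h
    · have : α =ᶠ[𝓝 z] β := by
        have ho : {y : ℝ | |y| < R + 1} ∈ 𝓝 z :=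
          (isOpen_lt continuous_abs continuous_const).mem_nhds (by show |z| < R + 1; linarith only [h])
        filter_upwards [ho] with y hy
        rw [hα]
        simp only
        rw [hχ1 y hy, one_mul]
      rw [this.deriv_eq]
    · rw [hzv (fun hh => absurd (abs_le.2 hh) (not_le.2 h))]
      ring
  have i1 : Integrable fun z => α z * Pc c p z * deriv f z := by
    have := A6_mul (A6_cL2 (hα1.continuous.mul hfc') h2.deriv.mul_left) (Lp.memLp (Pc c p))
    refine this.congr (Eventually.of_forall fun z => ?_)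
    simp only [Pi.mul_apply]
    ring
  have i2 : Integrable fun z => M * Pc c p z * deriv f z := by
    have := A6_mul (A6_cL2 (continuous_const.mul hfc') (h2.deriv.mul_left (f := fun _ => M))) (Lp.memLp (Pc c p))
    refine this.congr (Eventually.of_forall fun z => ?_)
    simp only [Pi.mul_apply]
    ring
  have e3 : ∫ z, (α z + M) * Pc c p z * deriv f z =
      (∫ z, α z * Pc c p z * deriv f z) + ∫ z, M * Pc c p z * deriv f z := by
    rw [← integral_add i1 i2]
    refine integral_congr_ae (Eventually.of_forall fun z => ?_)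
    ring
  rw [e3, s2] at s1
  simp only [zero_mul, integral_zero, mul_zero, add_zero] at s1
  rw [e1, e2, s1]

end Pool.Agent.H42.TQ
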