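import Pool.Agent.H88.TQ.D

/-!
ROW TQ_B0a (the density). MP_09540e_TQ, PI helper42. Hz = Lp R 2 on the line; Kc, Pc (projection), gc = f - Pc, ec in TQ/Defs.lean; proved facts (helper94) in TQ/A1, A2 (Kc_add, Kc_smul,
Pc_mem, Pc_vi, Pc_lip, gc_lip, Pc_norm, gc_norm, Pc_rel, Pc_cont, int_ii, int_add, int_smul ...), B1 (fib_coe, fib_inner, fib_inner', fib_norm, fib_cont, fib_add, fib_out, fib_fub,
Cs.taylor, Cs.lip, Cs.box, Cs.pd ...), translations Ts s (p(z+s)) in H88/TQ/A4a.lean (Ts_coe, Ts_Kc, Pc_Ts, ec_Ts). Use only the STATEMENTS of imported rows; auxiliary lemmas private or with the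
prefix B0a_ ; statements FIXED (tell helper42 at once if one is wrong or awkward); replace every sorry; no double quotes in the file; lake build the file; land only your own
file (tools/land.sh --force), set state done, message helper42. Proof:

(helper88 has similar facts in H88/TQ/Di*.lean; you may import them if they are proved.) rho_nn: mu/m0 >= mu, log(1/m0) > 0. rho_le: (max (1-x) 0)^3 >= 1 - 3x for x >= 0, (max(1-mu)0)^3 <= 1,
log(1/m0) >= log 3 >= 1. rho_mass: split at m0: on [0,m0] the integrand is <= (3/m0)(1/log(1/m0)), integral <= 3; on [m0,1] it is <= (1/mu)/log(1/m0), integral = 1 (or exactly 1 by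
helper88's lemma). rho_mass1: rho <= (1-mu)^3/log(1/m0) <= 1/log(1/m0).
-/

set_option autoImplicit false

open Set Filter Topology MeasureTheory
open scoped ContDiff InnerProductSpace

namespace Pool.Agent.H42.TQ

open Pool.Agent.H16 Pool.Agent.H87.NS Pool.Agent.H72.CC Pool.Agent.H16.TU Pool.Agent.H94.EP Pool.Agent.H87.EP Pool.Agent.H88.TQ

theorem rho_nn {m0 μ : ℝ} (h0 : 0 < m0) (h1 : m0 ≤ 1 / 3) (hμ : 0 ≤ μ) : 0 ≤ rho m0 μ := by sorry

theorem rho_le {m0 μ : ℝ} (h0 : 0 < m0) (h1 : m0 ≤ 1 / 3) (hμ : 0 ≤ μ) : rho m0 μ ≤ 3 / m0 * μ := by sorry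

theorem rho_cont (m0 : ℝ) : Continuous (rho m0) := by sorry

theorem rho_mass {m0 : ℝ} (h0 : 0 < m0) (h1 : m0 ≤ 1 / 3) : ∫ μ in (0 : ℝ)..1, rho m0 μ / μ ≤ 4 := by sorry

theorem rho_mass1 {m0 : ℝ} (h0 : 0 < m0) (h1 : m0 ≤ 1 / 3) : ∫ μ in (0 : ℝ)..1, rho m0 μ ≤ 1 / Real.log (1 / m0) := by sorry

end Pool.Agent.H42.TQ
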