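import Pool.Agent.H42.TQ.B0a
import Pool.Agent.H42.TQ.B1

/-!
ROW TQ_B0b (continuity, integrability, linearity of dPsi). MP_09540e_TQ, PI helper42. Hz = Lp R 2 on the line; Kc, Pc (projection), gc = f - Pc, ec in TQ/Defs.lean; proved facts (helper94) in TQ/A1, A2 (Kc_add, Kc_smul,
Pc_mem, Pc_vi, Pc_lip, gc_lip, Pc_norm, gc_norm, Pc_rel, Pc_cont, int_ii, int_add, int_smul ...), B1 (fib_coe, fib_inner, fib_inner', fib_norm, fib_cont, fib_add, fib_out, fib_fub,
Cs.taylor, Cs.lip, Cs.box, Cs.pd ...), translations Ts s (p(z+s)) in H88/TQ/A4a.lean (Ts_coe, Ts_Kc, Pc_Ts, ec_Ts). Use only the STATEMENTS of imported rows; auxiliary lemmas private or with the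
prefix B0b_ ; statements FIXED (tell helper42 at once if one is wrong or awkward); replace every sorry; no double quotes in the file; lake build the file; land only your own
file (tools/land.sh --force), set state done, message helper42. Proof:

cmu m r2 mu q = 2 m mu/(sq2 q + r2) is continuous in (mu, q) and positive for mu > 0. dPsi_cont: Pc_cont, ec_cont composed with (cmu, fib F q), fib_cont.
dPsi_int: on univ x (0,1] the functions are continuous, hence measurable; bounded by (3/m0)|fib F q||fib G q| (rho_le, Pc_norm), respectively (3/m0)|fib F q|^2/2 (ec_le), continuous with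
compact support in q (fib_cont, fib_out), and (0,1] has finite measure. (ContinuousOn.aestronglyMeasurable on the measurable set univ x Ioc 0 1; volume.prod (volume.restrict s) =
(volume.prod volume).restrict (univ x s).)
dPsi_add, dPsi_smul: fib_add, fib_smul, integral_add for the inner integrals (interval integral = integral over Ioc; a.e. q, or every q since the inner integrand is bounded and measurable) and
the outer one (Integrable.integral_prod_left). dPsi_mono: inner integral <= B(q) int rho/mu <= 4 B(q). dPsi_mono1: Fubini: dPsi = int_mu rho/mu (int_q ...) <= int rho int A + int rho/mu int B, rho_mass1, rho_mass.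
-/

set_option autoImplicit false

open Set Filter Topology MeasureTheory
open scoped ContDiff InnerProductSpace

namespace Pool.Agent.H42.TQ

open Pool.Agent.H16 Pool.Agent.H87.NS Pool.Agent.H72.CC Pool.Agent.H16.TU Pool.Agent.H94.EP Pool.Agent.H87.EP Pool.Agent.H88.TQ

theorem dPsi_cont {m r2 : ℝ} (hm : 0 < m) (hr : 0 < r2) {F G : E3 → ℝ} (hF : Cs F) (hG : Cs G) :
    ContinuousOn (fun p : (ℝ × ℝ) × ℝ => ⟪Pc (cmu m r2 p.2 p.1) (fib F p.1), fib G p.1⟫_ℝ) (univ ×ˢ Ioi 0) ∧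
    ContinuousOn (fun p : (ℝ × ℝ) × ℝ => ec (cmu m r2 p.2 p.1) (fib F p.1)) (univ ×ˢ Ioi 0) := by sorry

theorem dPsi_int {m r2 m0 : ℝ} (hm : 0 < m) (hr : 0 < r2) (h0 : 0 < m0) (h1 : m0 ≤ 1 / 3) {F G : E3 → ℝ} (hF : Cs F)
    (hG : Cs G) :
    Integrable (fun p : (ℝ × ℝ) × ℝ => rho m0 p.2 / p.2 * ⟪Pc (cmu m r2 p.2 p.1) (fib F p.1), fib G p.1⟫_ℝ)
      (volume.prod (volume.restrict (Ioc 0 1))) ∧
    Integrable (fun p : (ℝ × ℝ) × ℝ => rho m0 p.2 / p.2 * ec (cmu m r2 p.2 p.1) (fib F p.1))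
      (volume.prod (volume.restrict (Ioc 0 1))) := by sorry

theorem dPsi_add {m r2 m0 : ℝ} (hm : 0 < m) (hr : 0 < r2) (h0 : 0 < m0) (h1 : m0 ≤ 1 / 3) {F G H : E3 → ℝ} (hF : Cs F)
    (hG : Cs G) (hH : Cs H) : dPsi m r2 m0 F (fun x => G x + H x) = dPsi m r2 m0 F G + dPsi m r2 m0 F H := by sorry

theorem dPsi_smul {m r2 m0 : ℝ} (hm : 0 < m) (hr : 0 < r2) (h0 : 0 < m0) (h1 : m0 ≤ 1 / 3) {F G : E3 → ℝ} (hF : Cs F)
    (hG : Cs G) (r : ℝ) : dPsi m r2 m0 F (fun x => r * G x) = r * dPsi m r2 m0 F G := by sorry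

/-- Comparison: a bound of the integrand, uniform in the parameter. -/
theorem dPsi_mono {m r2 m0 : ℝ} (hm : 0 < m) (hr : 0 < r2) (h0 : 0 < m0) (h1 : m0 ≤ 1 / 3) {F G : E3 → ℝ} (hF : Cs F)
    (hG : Cs G) {B : ℝ × ℝ → ℝ} (hB : Integrable B) (hn : ∀ q, 0 ≤ B q)
    (h : ∀ q μ, 0 < μ → μ ≤ 1 → ⟪Pc (cmu m r2 μ q) (fib F q), fib G q⟫_ℝ ≤ B q) :
    dPsi m r2 m0 F G ≤ 4 * ∫ q, B q := by sorry

/-- Comparison after the integration over the plane. -/
theorem dPsi_mono1 {m r2 m0 A B : ℝ} (hm : 0 < m) (hr : 0 < r2) (h0 : 0 < m0) (h1 : m0 ≤ 1 / 3) {F G : E3 → ℝ} (hF : Cs F)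
    (hG : Cs G) (hA : 0 ≤ A) (hB : 0 ≤ B)
    (h : ∀ μ, 0 < μ → μ ≤ 1 → ∫ q : ℝ × ℝ, ⟪Pc (cmu m r2 μ q) (fib F q), fib G q⟫_ℝ ≤ μ * A + B) :
    dPsi m r2 m0 F G ≤ 1 / Real.log (1 / m0) * A + 4 * B := by sorry

end Pool.Agent.H42.TQ
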