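import Pool.Agent.H42.TQ.A5
import Pool.Agent.H42.TQ.B0b

/-!
ROW TQ_B0c (bounds of Psi and dPsi). MP_09540e_TQ, PI helper42. Hz = Lp R 2 on the line; Kc, Pc (projection), gc = f - Pc, ec in TQ/Defs.lean; proved facts (helper94) in TQ/A1, A2 (Kc_add, Kc_smul,
Pc_mem, Pc_vi, Pc_lip, gc_lip, Pc_norm, gc_norm, Pc_rel, Pc_cont, int_ii, int_add, int_smul ...), B1 (fib_coe, fib_inner, fib_inner', fib_norm, fib_cont, fib_add, fib_out, fib_fub,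
Cs.taylor, Cs.lip, Cs.box, Cs.pd ...), translations Ts s (p(z+s)) in H88/TQ/A4a.lean (Ts_coe, Ts_Kc, Pc_Ts, ec_Ts). Use only the STATEMENTS of imported rows; auxiliary lemmas private or with the
prefix B0c_ ; statements FIXED (tell helper42 at once if one is wrong or awkward); no double quotes in the file; lake build the file; land only your own
file (tools/land.sh --force), set state done, message helper42. Proof:

dPsi_le: dPsi_mono for G and -G (dPsi_smul with r = -1) with B = |fib F q||fib G q| (Cauchy-Schwarz, Pc_norm), continuous with compact support. dPsi_l2: Cauchy-Schwarz over q, int |fib F q|^2 = int F^2 (fib_int).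
dPsi_N: for mu in (0,1], cmu is linear in mu: if mu >= m0: <P_mu, G> = <P_mu - P_m0, G> + <P_m0, G>, |P_mu - P_m0|^2 <= 2(ec mu - ec m0) <= 2 (ec 1 - ec m0) (Pc_diff, ec_mono) and
|<P_m0, G>| <= cmu m0 int |d_z G| (Pc_fib); if mu < m0: |<P_mu, G>| <= cmu mu int |d_z G| <= cmu m0 int |d_z G|. Then dPsi_mono for G and -G (the bound is continuous in q with compact support: ec_cont;
int |pd 2 G(pt q z)| dz: integrable by the Fubini theorem as in fib_fub, or continuous by dominated convergence).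
Psi_nn: rho_nn, ec_nonneg. Psi_le: ec_le, rho_mass, int |fib F q|^2 = int F^2: 4 * (1/2). Psi_lo, Psi_up: ec_lo, ec_up with h = fib G q (fib_add) under the integrals, rho >= 0, integrability by
dPsi_int, mass 4 * (1/2) = 2. dPsi_lip: Pc_lip and dPsi_mono applied to the difference (linearity of the integrals, both integrable by dPsi_int), Cauchy-Schwarz.
-/

set_option autoImplicit false

open Set Filter Topology MeasureTheory
open scoped ContDiff InnerProductSpace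

namespace Pool.Agent.H42.TQ

open Pool.Agent.H16 Pool.Agent.H87.NS Pool.Agent.H72.CC Pool.Agent.H16.TU Pool.Agent.H94.EP Pool.Agent.H87.EP Pool.Agent.H88.TQ

private noncomputable abbrev B0c_M : Measure ((ℝ × ℝ) × ℝ) := (volume : Measure (ℝ × ℝ)).prod (volume.restrict (Ioc (0 : ℝ) 1))

private theorem B0c_ae : ∀ᵐ p ∂B0c_M, 0 < p.2 ∧ p.2 ≤ 1 := by
  have h : ∀ᵐ μ : ℝ ∂(volume.restrict (Ioc (0 : ℝ) 1)), 0 < μ ∧ μ ≤ 1 := by
    filter_upwards [ae_restrict_mem measurableSet_Ioc] with μ hμ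
    exact ⟨hμ.1, hμ.2⟩
  exact Measure.quasiMeasurePreserving_snd.ae h

private theorem B0c_csq {g h : ℝ × ℝ → ℝ} (hg0 : ∀ a, 0 ≤ g a) (hh0 : ∀ a, 0 ≤ h a)
    (hgm : Continuous g) (hhm : Continuous h)
    (hg : Integrable (fun a => g a ^ 2)) (hh : Integrable (fun a => h a ^ 2)) :
    ∫ a, g a * h a ≤ √(∫ a, g a ^ 2) * √(∫ a, h a ^ 2) := by
  have hp : (2:ℝ).HolderConjugate 2 := by
    rw [Real.holderConjugate_iff]
    norm_num
  have h2 : ENNReal.ofReal 2 = 2 := by norm_num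
  have h1 := integral_mul_le_Lp_mul_Lq_of_nonneg (μ := volume) hp (Filter.Eventually.of_forall hg0)
    (Filter.Eventually.of_forall hh0)
    (by rw [h2]; exact (memLp_two_iff_integrable_sq hgm.aestronglyMeasurable).2 hg)
    (by rw [h2]; exact (memLp_two_iff_integrable_sq hhm.aestronglyMeasurable).2 hh)
  simpa [Real.sqrt_eq_rpow] using h1

private theorem B0c_int {φ : ℝ × ℝ → ℝ} (hc : Continuous φ) {A : ℝ} (h : ∀ q, A ≤ sq2 q → φ q = 0) : Integrable φ := by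
  refine hc.integrable_of_hasCompactSupport ?_
  refine HasCompactSupport.intro (K := Icc (-(|A| + 1)) (|A| + 1) ×ˢ Icc (-(|A| + 1)) (|A| + 1))
    (isCompact_Icc.prod isCompact_Icc) ?_
  intro q hq
  apply h
  by_contra h1
  have h1' : sq2 q < A := not_le.1 h1
  unfold sq2 at h1'
  have h2 := le_abs_self A
  have h3 := abs_nonneg A
  apply hq
  refine ⟨⟨?_, ?_⟩, ⟨?_, ?_⟩⟩
  · by_contra h4
    have h4' := not_le.1 h4
    nlinarith [sq_nonneg q.2]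
  · by_contra h4
    have h4' := not_le.1 h4
    nlinarith [sq_nonneg q.2]
  · by_contra h4
    have h4' := not_le.1 h4
    nlinarith [sq_nonneg q.1]
  · by_contra h4
    have h4' := not_le.1 h4
    nlinarith [sq_nonneg q.1]

private theorem B0c_cmu {m r2 : ℝ} (hm : 0 < m) (hr : 0 < r2) {μ : ℝ} (hμ : 0 < μ) (q : ℝ × ℝ) : 0 < cmu m r2 μ q := by
  unfold cmu sq2
  positivity

private theorem B0c_cmu0 {m r2 : ℝ} (hm : 0 < m) (hr : 0 < r2) {μ : ℝ} (hμ : 0 ≤ μ) (q : ℝ × ℝ) : 0 ≤ cmu m r2 μ q := by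
  unfold cmu sq2
  positivity

private theorem B0c_cmu_mono {m r2 : ℝ} (hm : 0 < m) (hr : 0 < r2) {μ ν : ℝ} (h : μ ≤ ν) (q : ℝ × ℝ) :
    cmu m r2 μ q ≤ cmu m r2 ν q := by
  unfold cmu
  have h1 : 0 < sq2 q + r2 := by unfold sq2; positivity
  gcongr

private theorem B0c_cmu_cont {m r2 : ℝ} (hr : 0 < r2) (μ : ℝ) : Continuous (cmu m r2 μ) := by
  unfold cmu sq2
  have h1 : ∀ q : ℝ × ℝ, q.1 ^ 2 + q.2 ^ 2 + r2 ≠ 0 := fun q => by positivity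
  fun_prop (disch := assumption)

private theorem B0c_ri {m0 : ℝ} (h0 : 0 < m0) (h1 : m0 ≤ 1 / 3) :
    Integrable (fun μ => rho m0 μ / μ) (volume.restrict (Ioc (0 : ℝ) 1)) := by
  refine Integrable.of_bound ?_ (3 / m0) ?_
  · refine ContinuousOn.aestronglyMeasurable ?_ measurableSet_Ioc
    refine (rho_cont m0).continuousOn.div continuousOn_id ?_
    intro μ hμ
    exact hμ.1.ne'
  · filter_upwards [ae_restrict_mem measurableSet_Ioc] with μ hμ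
    rw [Real.norm_eq_abs, abs_of_nonneg (div_nonneg (rho_nn h0 h1 hμ.1.le) hμ.1.le), div_le_iff₀ hμ.1]
    exact rho_le h0 h1 hμ.1.le

private theorem B0c_mass {m0 : ℝ} (h0 : 0 < m0) (h1 : m0 ≤ 1 / 3) :
    ∫ μ in Ioc (0 : ℝ) 1, rho m0 μ / μ ≤ 4 := by
  have := rho_mass h0 h1
  rwa [intervalIntegral.integral_of_le zero_le_one] at this

private theorem B0c_mass0 {m0 : ℝ} (h0 : 0 < m0) (h1 : m0 ≤ 1 / 3) :
    0 ≤ ∫ μ in Ioc (0 : ℝ) 1, rho m0 μ / μ := by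
  refine integral_nonneg_of_ae ?_
  filter_upwards [ae_restrict_mem measurableSet_Ioc] with μ hμ
  exact div_nonneg (rho_nn h0 h1 hμ.1.le) hμ.1.le

private theorem B0c_bd {m0 : ℝ} (h0 : 0 < m0) (h1 : m0 ≤ 1 / 3) {κ : (ℝ × ℝ) × ℝ → ℝ} {B : ℝ × ℝ → ℝ}
    (hB : Integrable B) (hn : ∀ q, 0 ≤ B q) (h : ∀ q μ, 0 < μ → μ ≤ 1 → |κ (q, μ)| ≤ B q) :
    |∫ p, rho m0 p.2 / p.2 * κ p ∂B0c_M| ≤ 4 * ∫ q, B q := by
  have h2 : |∫ p, rho m0 p.2 / p.2 * κ p ∂B0c_M| ≤ ∫ p, |rho m0 p.2 / p.2 * κ p| ∂B0c_M :=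
    abs_integral_le_integral_abs
  have h3 : ∫ p, |rho m0 p.2 / p.2 * κ p| ∂B0c_M ≤ ∫ p, B p.1 * (rho m0 p.2 / p.2) ∂B0c_M := by
    refine integral_mono_of_nonneg (ae_of_all _ fun p => abs_nonneg _) (hB.mul_prod (B0c_ri h0 h1)) ?_
    filter_upwards [B0c_ae] with p hp
    have h4 : 0 ≤ rho m0 p.2 / p.2 := div_nonneg (rho_nn h0 h1 hp.1.le) hp.1.le
    show |rho m0 p.2 / p.2 * κ p| ≤ B p.1 * (rho m0 p.2 / p.2)
    rw [abs_mul, abs_of_nonneg h4, mul_comm]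
    exact mul_le_mul_of_nonneg_right (h p.1 p.2 hp.1 hp.2) h4
  have h5 : ∫ p, B p.1 * (rho m0 p.2 / p.2) ∂B0c_M = (∫ q, B q) * ∫ μ in Ioc (0 : ℝ) 1, rho m0 μ / μ :=
    integral_prod_mul B (fun μ => rho m0 μ / μ)
  have h6 : 0 ≤ ∫ q, B q := integral_nonneg hn
  have h7 := B0c_mass h0 h1
  rw [h5] at h3
  nlinarith

private theorem B0c_dPsi {m r2 m0 : ℝ} (hm : 0 < m) (hr : 0 < r2) (h0 : 0 < m0) (h1 : m0 ≤ 1 / 3) {F G : E3 → ℝ} (hF : Cs F)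
    (hG : Cs G) : dPsi m r2 m0 F G =
      ∫ p, rho m0 p.2 / p.2 * ⟪Pc (cmu m r2 p.2 p.1) (fib F p.1), fib G p.1⟫_ℝ ∂B0c_M := by
  have h2 := integral_prod _ (dPsi_int hm hr h0 h1 hF hG).1
  rw [h2]
  unfold dPsi
  refine integral_congr_ae (ae_of_all _ fun q => ?_)
  show (∫ μ in (0 : ℝ)..1, _) = _
  rw [intervalIntegral.integral_of_le zero_le_one]

private theorem B0c_Psi {m r2 m0 : ℝ} (hm : 0 < m) (hr : 0 < r2) (h0 : 0 < m0) (h1 : m0 ≤ 1 / 3) {F : E3 → ℝ} (hF : Cs F) :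
    Psi m r2 m0 F = ∫ p, rho m0 p.2 / p.2 * ec (cmu m r2 p.2 p.1) (fib F p.1) ∂B0c_M := by
  have h2 := integral_prod _ (dPsi_int hm hr h0 h1 hF hF).2
  rw [h2]
  unfold Psi
  refine integral_congr_ae (ae_of_all _ fun q => ?_)
  show (∫ μ in (0 : ℝ)..1, _) = _
  rw [intervalIntegral.integral_of_le zero_le_one]

private theorem B0c_sq {F : E3 → ℝ} (hF : Cs F) : Integrable (fun q => ‖fib F q‖ ^ 2) ∧ ∫ q, ‖fib F q‖ ^ 2 = ∫ x, F x ^ 2 := by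
  constructor
  · obtain ⟨A, hA⟩ := fib_out hF
    refine B0c_int (A := A) ((fib_cont hF).norm.pow 2) ?_
    intro q hq
    rw [hA q hq]
    simp
  · have h := fib_int hF hF
    simp only [real_inner_self_eq_norm_sq] at h
    rw [h]
    congr 1
    funext x
    ring

private theorem B0c_cs {F G : E3 → ℝ} (hF : Cs F) (hG : Cs G) :
    ∫ q : ℝ × ℝ, ‖fib F q‖ * ‖fib G q‖ ≤ √(∫ x, F x ^ 2) * √(∫ x, G x ^ 2) := by
  have h := B0c_csq (fun q => norm_nonneg (fib F q)) (fun q => norm_nonneg (fib G q)) (fib_cont hF).norm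
    (fib_cont hG).norm (B0c_sq hF).1 (B0c_sq hG).1
  rwa [(B0c_sq hF).2, (B0c_sq hG).2] at h

private theorem B0c_ifg {F G : E3 → ℝ} (hF : Cs F) (hG : Cs G) :
    Integrable (fun q : ℝ × ℝ => ‖fib F q‖ * ‖fib G q‖) := by
  obtain ⟨A, hA⟩ := fib_out hF
  refine B0c_int (A := A) ((fib_cont hF).norm.mul (fib_cont hG).norm) ?_
  intro q hq
  rw [hA q hq]
  simp

theorem dPsi_le {m r2 m0 : ℝ} (hm : 0 < m) (hr : 0 < r2) (h0 : 0 < m0) (h1 : m0 ≤ 1 / 3) {F G : E3 → ℝ} (hF : Cs F)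
    (hG : Cs G) : |dPsi m r2 m0 F G| ≤ 4 * ∫ q : ℝ × ℝ, ‖fib F q‖ * ‖fib G q‖ := by
  rw [B0c_dPsi hm hr h0 h1 hF hG]
  refine B0c_bd h0 h1 (B0c_ifg hF hG) (fun q => by positivity) ?_
  intro q μ h2 h3
  refine (abs_real_inner_le_norm _ _).trans ?_
  exact mul_le_mul_of_nonneg_right (Pc_norm (B0c_cmu hm hr h2 q).le _) (norm_nonneg _)

theorem dPsi_l2 {m r2 m0 : ℝ} (hm : 0 < m) (hr : 0 < r2) (h0 : 0 < m0) (h1 : m0 ≤ 1 / 3) {F G : E3 → ℝ} (hF : Cs F)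
    (hG : Cs G) : |dPsi m r2 m0 F G| ≤ 4 * √(∫ x, F x ^ 2) * √(∫ x, G x ^ 2) := by
  have h2 := dPsi_le hm hr h0 h1 hF hG
  have h3 := B0c_cs hF hG
  linarith

/-- The bound used for `N`. -/
theorem dPsi_N {m r2 m0 : ℝ} (hm : 0 < m) (hr : 0 < r2) (h0 : 0 < m0) (h1 : m0 ≤ 1 / 3) {F G : E3 → ℝ} (hF : Cs F)
    (hG : Cs G) : |dPsi m r2 m0 F G| ≤ 4 * ∫ q : ℝ × ℝ,
      (‖fib G q‖ * √(2 * (ec (cmu m r2 1 q) (fib F q) - ec (cmu m r2 m0 q) (fib F q))) +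
        cmu m r2 m0 q * ∫ z, |pd 2 G (pt q z)|) := by
  rw [B0c_dPsi hm hr h0 h1 hF hG]
  obtain ⟨R, hR, hz1, hz2⟩ := (hG.pd 2).box
  have hnn : ∀ q : ℝ × ℝ, 0 ≤ ∫ z, |pd 2 G (pt q z)| := fun q => integral_nonneg fun z => abs_nonneg _
  have hec : ∀ ν : ℝ, 0 < ν → Continuous (fun q : ℝ × ℝ => ec (cmu m r2 ν q) (fib F q)) := by
    intro ν hν
    have h2 := (dPsi_cont hm hr hF hG).2
    have h3 : Continuous (fun q : ℝ × ℝ => ((q, ν) : (ℝ × ℝ) × ℝ)) := by fun_prop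
    exact h2.comp_continuous h3 (fun q => ⟨mem_univ _, hν⟩)
  have hzc : Continuous (fun q : ℝ × ℝ => ∫ z, |pd 2 G (pt q z)|) := by
    have h2 : (fun q : ℝ × ℝ => ∫ z, |pd 2 G (pt q z)|) = fun q : ℝ × ℝ => ∫ z in Icc (-R) R, |pd 2 G (pt q z)| := by
      funext q
      symm
      refine setIntegral_eq_integral_of_forall_compl_eq_zero ?_
      intro z hz
      rw [hz1 q z, abs_zero]
      by_contra h3
      have h4 := abs_lt.1 (not_le.1 h3)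
      exact hz ⟨h4.1.le, h4.2.le⟩
    rw [h2]
    have h3 : Continuous (Function.uncurry fun (q : ℝ × ℝ) (z : ℝ) => |pd 2 G (pt q z)|) :=
      ((hG.pd 2).cont.comp pt_cont).abs
    exact continuous_parametric_integral_of_continuous h3 isCompact_Icc
  obtain ⟨A, hA⟩ := fib_out hG
  have hBi : Integrable (fun q : ℝ × ℝ =>
      ‖fib G q‖ * √(2 * (ec (cmu m r2 1 q) (fib F q) - ec (cmu m r2 m0 q) (fib F q))) +
        cmu m r2 m0 q * ∫ z, |pd 2 G (pt q z)|) := by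
    refine B0c_int (A := max A (R ^ 2)) ?_ ?_
    · exact ((fib_cont hG).norm.mul ((continuous_const.mul ((hec 1 one_pos).sub (hec m0 h0))).sqrt)).add
        ((B0c_cmu_cont hr m0).mul hzc)
    · intro q hq
      rw [hA q ((le_max_left _ _).trans hq)]
      have h3 : ∀ z, pd 2 G (pt q z) = 0 := fun z => hz2 q z ((le_max_right _ _).trans hq)
      simp [h3]
  refine B0c_bd h0 h1 hBi ?_ ?_
  · intro q
    have := B0c_cmu hm hr h0 q
    have := hnn q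
    positivity
  intro q μ h2 h3
  show |⟪Pc (cmu m r2 μ q) (fib F q), fib G q⟫_ℝ| ≤ _
  have hc0 := B0c_cmu hm hr h0 q
  rcases le_total m0 μ with h4 | h4
  · have e1 : ⟪Pc (cmu m r2 μ q) (fib F q), fib G q⟫_ℝ =
        ⟪Pc (cmu m r2 μ q) (fib F q) - Pc (cmu m r2 m0 q) (fib F q), fib G q⟫_ℝ +
        ⟪Pc (cmu m r2 m0 q) (fib F q), fib G q⟫_ℝ := by
      rw [inner_sub_left]
      ring
    rw [e1]
    refine (abs_add_le _ _).trans (add_le_add ?_ ?_)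
    · refine (abs_real_inner_le_norm _ _).trans ?_
      rw [mul_comm]
      refine mul_le_mul_of_nonneg_left ?_ (norm_nonneg _)
      refine Real.le_sqrt_of_sq_le ?_
      have h5 := Pc_diff hc0.le (B0c_cmu_mono hm hr h4 q) (fib F q)
      have h6 := ec_mono (B0c_cmu hm hr h2 q).le (B0c_cmu_mono hm hr h3 q) (fib F q)
      linarith
    · exact Pc_fib (Pc_mem hc0.le _) hG q
  · have h5 := Pc_fib (Pc_mem (B0c_cmu hm hr h2 q).le (fib F q)) hG q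
    have h6 := mul_le_mul_of_nonneg_right (B0c_cmu_mono hm hr h4 q) (hnn q)
    have h7 : 0 ≤ ‖fib G q‖ * √(2 * (ec (cmu m r2 1 q) (fib F q) - ec (cmu m r2 m0 q) (fib F q))) := by positivity
    linarith

theorem Psi_nn {m r2 m0 : ℝ} (hm : 0 < m) (hr : 0 < r2) (h0 : 0 < m0) (h1 : m0 ≤ 1 / 3) {F : E3 → ℝ} (hF : Cs F) :
    0 ≤ Psi m r2 m0 F := by
  rw [B0c_Psi hm hr h0 h1 hF]
  refine integral_nonneg_of_ae ?_
  filter_upwards [B0c_ae] with p hp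
  exact mul_nonneg (div_nonneg (rho_nn h0 h1 hp.1.le) hp.1.le) (ec_nonneg (B0c_cmu hm hr hp.1 p.1).le _)

private theorem B0c_half {m0 : ℝ} (h0 : 0 < m0) (h1 : m0 ≤ 1 / 3) {F : E3 → ℝ} (hF : Cs F) :
    Integrable (fun p : (ℝ × ℝ) × ℝ => ‖fib F p.1‖ ^ 2 / 2 * (rho m0 p.2 / p.2)) B0c_M ∧
    ∫ p, ‖fib F p.1‖ ^ 2 / 2 * (rho m0 p.2 / p.2) ∂B0c_M ≤ 2 * ∫ x, F x ^ 2 := by
  have h2 : Integrable (fun q : ℝ × ℝ => ‖fib F q‖ ^ 2 / 2) := (B0c_sq hF).1.div_const 2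
  refine ⟨h2.mul_prod (B0c_ri h0 h1), ?_⟩
  have h3 : ∫ p, ‖fib F p.1‖ ^ 2 / 2 * (rho m0 p.2 / p.2) ∂B0c_M =
      (∫ q, ‖fib F q‖ ^ 2 / 2) * ∫ μ in Ioc (0 : ℝ) 1, rho m0 μ / μ :=
    integral_prod_mul (fun q : ℝ × ℝ => ‖fib F q‖ ^ 2 / 2) (fun μ => rho m0 μ / μ)
  rw [h3, integral_div, (B0c_sq hF).2]
  have h4 := B0c_mass h0 h1
  have h5 : 0 ≤ ∫ x, F x ^ 2 := integral_nonneg fun x => sq_nonneg _
  nlinarith

theorem Psi_le {m r2 m0 : ℝ} (hm : 0 < m) (hr : 0 < r2) (h0 : 0 < m0) (h1 : m0 ≤ 1 / 3) {F : E3 → ℝ} (hF : Cs F) :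
    Psi m r2 m0 F ≤ 2 * ∫ x, F x ^ 2 := by
  rw [B0c_Psi hm hr h0 h1 hF]
  refine le_trans ?_ (B0c_half h0 h1 hF).2
  refine integral_mono_ae (dPsi_int hm hr h0 h1 hF hF).2 (B0c_half h0 h1 hF).1 ?_
  filter_upwards [B0c_ae] with p hp
  rw [mul_comm]
  exact mul_le_mul_of_nonneg_right (ec_le _ _) (div_nonneg (rho_nn h0 h1 hp.1.le) hp.1.le)

theorem Psi_lo {m r2 m0 : ℝ} (hm : 0 < m) (hr : 0 < r2) (h0 : 0 < m0) (h1 : m0 ≤ 1 / 3) {F G : E3 → ℝ} (hF : Cs F)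
    (hG : Cs G) : Psi m r2 m0 F + dPsi m r2 m0 F G ≤ Psi m r2 m0 (fun x => F x + G x) := by
  rw [B0c_Psi hm hr h0 h1 hF, B0c_Psi hm hr h0 h1 (hF.add hG), B0c_dPsi hm hr h0 h1 hF hG,
    ← integral_add (dPsi_int hm hr h0 h1 hF hF).2 (dPsi_int hm hr h0 h1 hF hG).1]
  refine integral_mono_ae ((dPsi_int hm hr h0 h1 hF hF).2.add (dPsi_int hm hr h0 h1 hF hG).1)
    (dPsi_int hm hr h0 h1 (hF.add hG) hF).2 ?_
  filter_upwards [B0c_ae] with p hp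
  have h2 := ec_lo (B0c_cmu hm hr hp.1 p.1).le (fib F p.1) (fib G p.1)
  have h3 : 0 ≤ rho m0 p.2 / p.2 := div_nonneg (rho_nn h0 h1 hp.1.le) hp.1.le
  have h4 := mul_le_mul_of_nonneg_left h2 h3
  rw [← fib_add hF hG, mul_add] at h4
  exact h4

theorem Psi_up {m r2 m0 : ℝ} (hm : 0 < m) (hr : 0 < r2) (h0 : 0 < m0) (h1 : m0 ≤ 1 / 3) {F G : E3 → ℝ} (hF : Cs F)
    (hG : Cs G) : Psi m r2 m0 (fun x => F x + G x) ≤ Psi m r2 m0 F + dPsi m r2 m0 F G + 2 * ∫ x, G x ^ 2 := by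
  refine le_trans ?_ (add_le_add_right (B0c_half h0 h1 hG).2 _)
  have hI : Integrable (fun p : (ℝ × ℝ) × ℝ => rho m0 p.2 / p.2 * ec (cmu m r2 p.2 p.1) (fib F p.1) +
      rho m0 p.2 / p.2 * ⟪Pc (cmu m r2 p.2 p.1) (fib F p.1), fib G p.1⟫_ℝ) B0c_M :=
    (dPsi_int hm hr h0 h1 hF hF).2.add (dPsi_int hm hr h0 h1 hF hG).1
  have hI2 : Integrable (fun p : (ℝ × ℝ) × ℝ => rho m0 p.2 / p.2 * ec (cmu m r2 p.2 p.1) (fib F p.1) +
      rho m0 p.2 / p.2 * ⟪Pc (cmu m r2 p.2 p.1) (fib F p.1), fib G p.1⟫_ℝ + ‖fib G p.1‖ ^ 2 / 2 * (rho m0 p.2 / p.2)) B0c_M :=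
    hI.add (B0c_half h0 h1 hG).1
  rw [B0c_Psi hm hr h0 h1 hF, B0c_Psi hm hr h0 h1 (hF.add hG), B0c_dPsi hm hr h0 h1 hF hG,
    ← integral_add (dPsi_int hm hr h0 h1 hF hF).2 (dPsi_int hm hr h0 h1 hF hG).1,
    ← integral_add hI (B0c_half h0 h1 hG).1]
  refine integral_mono_ae (dPsi_int hm hr h0 h1 (hF.add hG) hF).2 hI2 ?_
  filter_upwards [B0c_ae] with p hp
  have h2 := ec_up (B0c_cmu hm hr hp.1 p.1).le (fib F p.1) (fib G p.1)
  have h3 : 0 ≤ rho m0 p.2 / p.2 := div_nonneg (rho_nn h0 h1 hp.1.le) hp.1.le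
  have h4 := mul_le_mul_of_nonneg_left h2 h3
  rw [← fib_add hF hG, mul_add, mul_add, mul_comm (rho m0 p.2 / p.2) (‖fib G p.1‖ ^ 2 / 2)] at h4
  exact h4

theorem dPsi_lip {m r2 m0 : ℝ} (hm : 0 < m) (hr : 0 < r2) (h0 : 0 < m0) (h1 : m0 ≤ 1 / 3) {F F' G : E3 → ℝ} (hF : Cs F)
    (hF' : Cs F') (hG : Cs G) : |dPsi m r2 m0 F G - dPsi m r2 m0 F' G| ≤ 4 * √(∫ x, (F x - F' x) ^ 2) * √(∫ x, G x ^ 2) := by
  rw [B0c_dPsi hm hr h0 h1 hF hG, B0c_dPsi hm hr h0 h1 hF' hG,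
    ← integral_sub (dPsi_int hm hr h0 h1 hF hG).1 (dPsi_int hm hr h0 h1 hF' hG).1]
  have e1 : ∀ p : (ℝ × ℝ) × ℝ, rho m0 p.2 / p.2 * ⟪Pc (cmu m r2 p.2 p.1) (fib F p.1), fib G p.1⟫_ℝ -
      rho m0 p.2 / p.2 * ⟪Pc (cmu m r2 p.2 p.1) (fib F' p.1), fib G p.1⟫_ℝ = rho m0 p.2 / p.2 *
      ⟪Pc (cmu m r2 p.2 p.1) (fib F p.1) - Pc (cmu m r2 p.2 p.1) (fib F' p.1), fib G p.1⟫_ℝ := by
    intro p
    rw [inner_sub_left]
    ring
  simp only [e1]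
  refine (B0c_bd h0 h1 (B0c_ifg (hF.sub hF') hG) (fun q => by positivity) ?_).trans ?_
  · intro q μ h2 h3
    refine (abs_real_inner_le_norm _ _).trans ?_
    refine mul_le_mul_of_nonneg_right ?_ (norm_nonneg _)
    rw [fib_sub hF hF']
    exact Pc_lip (B0c_cmu hm hr h2 q).le _ _
  · have h2 := B0c_cs (hF.sub hF') hG
    linarith

end Pool.Agent.H42.TQ
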