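import Pool.Agent.H42.TQ.B1
import Pool.Agent.H88.TQ.A4a

/-! The fibration: the vertical direction (MP_09540e_TQ, group B1). -/

set_option autoImplicit false

open Set Filter Topology MeasureTheory
open scoped ContDiff InnerProductSpace

namespace Pool.Agent.H42.TQ

open Pool.Agent.H16 Pool.Agent.H87.NS Pool.Agent.H72.CC Pool.Agent.H16.TU Pool.Agent.H94.EP Pool.Agent.H87.EP Pool.Agent.H88.TQ

theorem pt_sh (t : ℝ) (q : ℝ × ℝ) (z : ℝ) : sh2 t (pt q z) = pt q (z + t) := by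
  apply ext3
  · show q.1 + t * e 2 0 = q.1
    rw [e_apply]; simp
  · show q.2 + t * e 2 1 = q.2
    rw [e_apply]; simp
  · show z + t * e 2 2 = z + t
    rw [e_apply]; simp

theorem sh2_cont (t : ℝ) : Continuous (sh2 t) := by
  unfold sh2
  fun_prop

theorem Cs.sh {F : E3 → ℝ} (hF : Cs F) (t : ℝ) : Cs (fun x => F (sh2 t x)) := by
  constructor
  · have h1 : ContDiff ℝ ∞ (sh2 t) := by
      unfold sh2
      fun_prop
    exact hF.sm.comp h1
  · have h1 : (fun x => F (sh2 t x)) = F ∘ (Homeomorph.addRight (t • e 2 : E3)) := rfl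
    rw [h1]
    exact hF.cs.comp_homeomorph _

theorem fib_sh {F : E3 → ℝ} (hF : Cs F) (t : ℝ) (q : ℝ × ℝ) : fib (fun x => F (sh2 t x)) q = Ts t (fib F q) := by
  apply Lp.ext
  have h2 : (fun z => (fib F q : ℝ → ℝ) (z + t)) =ᵐ[volume] fun z => F (pt q (z + t)) :=
    (measurePreserving_add_right volume t).quasiMeasurePreserving.ae_eq_comp (fib_coe hF q)
  filter_upwards [fib_coe (hF.sh t) q, Ts_coe t (fib F q), h2] with z h3 h4 h5
  rw [h3, h4, h5, pt_sh]

theorem fib_dz {F : E3 → ℝ} (hF : Cs F) (q : ℝ × ℝ) (t : ℝ) :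
    HasDerivAt (fun t => fib (fun x => F (sh2 t x)) q) (fib (fun x => Pool.Agent.H87.NS.pd 2 F (sh2 t x)) q) t := by
  obtain ⟨R, hR, h1, -⟩ := hF.box
  obtain ⟨R', hR', h1', -⟩ := (hF.pd 2).box
  obtain ⟨M, hM, h2⟩ := hF.taylor 2
  have hG := (hF.pd 2).sh t
  rw [hasDerivAt_iff_isLittleO, Asymptotics.isLittleO_iff]
  intro c hc
  obtain ⟨N, hN⟩ : ∃ N, N = max R R' + |t| + 1 := ⟨_, rfl⟩
  have hN0 : 0 < N := by rw [hN]; positivity
  have hb : ∀ t', |t' - t| ≤ 1 → ‖fib (fun x => F (sh2 t' x)) q - fib (fun x => F (sh2 t x)) q -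
      (t' - t) • fib (fun x => Pool.Agent.H87.NS.pd 2 F (sh2 t x)) q‖ ≤ √(2 * N) * (M * (t' - t) ^ 2) := by
    intro t' ht'
    have e1 : fib (fun x => F (sh2 t x)) q + (t' - t) • fib (fun x => Pool.Agent.H87.NS.pd 2 F (sh2 t x)) q =
        fib (fun x => F (sh2 t x) + (t' - t) * Pool.Agent.H87.NS.pd 2 F (sh2 t x)) q := by
      rw [fib_add (hF.sh t) (hG.smul _), fib_smul _ hG]
    rw [sub_sub, e1]
    have hout : ∀ s z : ℝ, |s| ≤ |t| + 1 → N ≤ |z| → max R R' ≤ |z + s| := by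
      intro s z hs hz
      have := abs_sub_abs_le_abs_sub z (-s)
      rw [abs_neg, sub_neg_eq_add] at this
      rw [hN] at hz
      linarith
    have ht1 : |t'| ≤ |t| + 1 := by
      have := abs_add_le (t' - t) t
      rw [sub_add_cancel] at this
      linarith
    refine fib_dist (hF.sh t') ((hF.sh t).add (hG.smul _)) hN0.le (by positivity) q q (fun z hz => ?_) (fun z => ?_)
    · show F (sh2 t' (pt q z)) = F (sh2 t (pt q z)) + (t' - t) * Pool.Agent.H87.NS.pd 2 F (sh2 t (pt q z))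
      rw [pt_sh, pt_sh, h1 _ _ ((le_max_left _ _).trans (hout t' z ht1 hz)),
        h1 _ _ ((le_max_left _ _).trans (hout t z (by linarith) hz)),
        h1' _ _ ((le_max_right _ _).trans (hout t z (by linarith) hz))]
      ring
    · show |F (sh2 t' (pt q z)) - (F (sh2 t (pt q z)) + (t' - t) * Pool.Agent.H87.NS.pd 2 F (sh2 t (pt q z)))| ≤ _
      have e2 : sh2 t' (pt q z) = sh2 t (pt q z) + (t' - t) • e 2 := by
        unfold sh2
        rw [add_assoc, ← add_smul]
        congr 2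
        ring
      rw [e2, ← sub_sub]
      exact h2 _ _
  have hlim : ∀ᶠ t' in 𝓝 t, √(2 * N) * (M * |t' - t|) < c := by
    have h4 : Continuous (fun t' : ℝ => √(2 * N) * (M * |t' - t|)) := by fun_prop
    have h5 := h4.tendsto t
    simp only [sub_self, abs_zero, mul_zero] at h5
    exact h5 (Iio_mem_nhds hc)
  have hlim1 : ∀ᶠ t' in 𝓝 t, |t' - t| < 1 := by
    have h4 : Continuous (fun t' : ℝ => |t' - t|) := by fun_prop
    have h5 := h4.tendsto t
    simp only [sub_self, abs_zero] at h5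
    exact h5 (Iio_mem_nhds one_pos)
  filter_upwards [hlim, hlim1] with t' ht ht1
  refine (hb t' ht1.le).trans ?_
  rw [Real.norm_eq_abs]
  calc √(2 * N) * (M * (t' - t) ^ 2) = (√(2 * N) * (M * |t' - t|)) * |t' - t| := by
        rw [← sq_abs (t' - t)]; ring
    _ ≤ c * |t' - t| := mul_le_mul_of_nonneg_right ht.le (abs_nonneg _)

end Pool.Agent.H42.TQ
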