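import Pool.Agent.H42.TQ.T4
import Pool.Agent.H94.TQ.B0

/-!
MP_09540e_TQ, B3: the transport term of the derivative of the functional. The bound for a fixed parameter (`fixmu`, with
threshold constant `2 m mu`) is integrated in the parameter (`dPsi_le_mu`).
-/

set_option autoImplicit false

open Set Filter Topology MeasureTheory
open scoped ContDiff InnerProductSpace

namespace Pool.Agent.H42.TQ

open Pool.Agent.H16 Pool.Agent.H87.NS Pool.Agent.H72.CC Pool.Agent.H16.TU Pool.Agent.H94.EP Pool.Agent.H87.EP Pool.Agent.H88.TQ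

private theorem B3_co {v : E3 → E3} (hv : Vs v) (i : Fin 3) : ContDiff ℝ ∞ (fun x => v x i) := by
  have h : ContDiff ℝ ∞ v := hv.ax.smooth
  exact (contDiff_euclidean.1 h) i

theorem adv_Cs {v : E3 → E3} (hv : Vs v) {F : E3 → ℝ} (hF : Cs F) : Cs (fun x => adv (v x) F x) := by
  have h : (fun x => adv (v x) F x) = fun x => v x 0 * pd 0 F x + v x 1 * pd 1 F x + v x 2 * pd 2 F x := by
    funext x
    simp only [adv, Fin.sum_univ_three]
  rw [h]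
  exact ((Cs.mul_left (B3_co hv 0) (hF.pd 0)).add (Cs.mul_left (B3_co hv 1) (hF.pd 1))).add (Cs.mul_left (B3_co hv 2) (hF.pd 2))

theorem transport : ∃ C : ℝ, 1 ≤ C ∧ ∀ (m r2 m0 b l M : ℝ) (v : E3 → E3) (F : E3 → ℝ), 0 < m → 0 < r2 → 0 < m0 → m0 ≤ 1 / 3 →
    0 < l → Vs v → Cs F → (∀ θ x, F (rot θ x) = F x) → (∀ x, F x ≠ 0 → rsq x ≤ 1 / 4 ∧ |x 2 - b| ≤ l) →
    (∀ x, rsq x ≤ 1 / 4 → |x 2 - b| ≤ l → |sW v x| ≤ M) →
    dPsi m r2 m0 F (fun x => adv (v x) F x) ≤ C * m / Real.log (1 / m0) * (∫ q : ℝ × ℝ, Tr r2 b l v F q) +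
      4 * M * ∫ q : ℝ × ℝ, r2 / (sq2 q + r2) * ‖fib F q‖ ^ 2 := by
  refine ⟨20, by norm_num, ?_⟩
  intro m r2 m0 b l M v F hm hr h0 h1 hl hv hF ha hb hM
  have hM0 : 0 ≤ M := by
    have h := hM !₂[0, 0, b] (by simp [rsq]) (by simp [hl.le])
    exact (abs_nonneg _).trans h
  have hT := Tr_int (b := b) hr hl hv hF
  have hT0 : 0 ≤ ∫ q : ℝ × ℝ, Tr r2 b l v F q := integral_nonneg hT.2.2
  have hR0 : 0 ≤ ∫ q : ℝ × ℝ, r2 / (sq2 q + r2) * ‖fib F q‖ ^ 2 := by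
    refine integral_nonneg fun q => ?_
    have : 0 ≤ sq2 q := by
      unfold sq2
      positivity
    positivity
  have hk2 : 0 ≤ M * ∫ q : ℝ × ℝ, r2 / (sq2 q + r2) * ‖fib F q‖ ^ 2 := mul_nonneg hM0 hR0
  have h := Pool.Agent.H94.TQ.dPsi_le_mu (m := m) (r2 := r2) (m0 := m0) ⟨hm, hr, h0, by linarith⟩ (by linarith) hF
    (adv_Cs hv hF) (k1 := 20 * m * ∫ q : ℝ × ℝ, Tr r2 b l v F q)
    (k2 := M * ∫ q : ℝ × ℝ, r2 / (sq2 q + r2) * ‖fib F q‖ ^ 2) (by positivity) hk2 (by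
      intro μ hμ _
      have h3 := fixmu (N := 2 * m * μ) (by positivity) hr hl hv hF ha hb hM
      have h4 : 10 * (2 * m * μ) * (∫ q : ℝ × ℝ, Tr r2 b l v F q) = μ * (20 * m * ∫ q : ℝ × ℝ, Tr r2 b l v F q) := by ring
      rw [h4] at h3
      exact h3)
  have h5 : 20 * m * (∫ q : ℝ × ℝ, Tr r2 b l v F q) / Real.log (1 / m0) =
      20 * m / Real.log (1 / m0) * (∫ q : ℝ × ℝ, Tr r2 b l v F q) := by ring
  rw [h5] at h
  linarith

end Pool.Agent.H42.TQ
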