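import Pool.Agent.H94.EP.Defs
import Pool.Agent.H87.EP.A

/-! Circulation small against a power less than one of the logarithm: definitions.

The fibres of a function on `E3` over the horizontal plane are elements of `Hz = L²(ℝ)`. `Kc c` is the convex set of the
functions with primitives of oscillation at most `2 c`, `Pc c` the projection, `ec c f = |f|² / 2 - dist(f, Kc c)² / 2`. -/

set_option autoImplicit false

open Set Filter Topology MeasureTheory
open scoped ContDiff InnerProductSpace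

namespace Pool.Agent.H42.TQ

open Pool.Agent.H16 Pool.Agent.H87.NS Pool.Agent.H72.CC Pool.Agent.H16.TU Pool.Agent.H94.EP Pool.Agent.H87.EP

/-- The Hilbert space of the fibres. -/
abbrev Hz : Type := Lp ℝ 2 (volume : Measure ℝ)

/-- Primitives of oscillation at most `2 c`. -/
def Kc (c : ℝ) : Set Hz := {p | ∀ a b : ℝ, |∫ z in a..b, p z| ≤ 2 * c}

open Classical in
/-- The projection on `Kc c`. -/
noncomputable def Pc (c : ℝ) (f : Hz) : Hz :=
  if h : ∃ v ∈ Kc c, ‖f - v‖ = ⨅ w : Kc c, ‖f - w‖ then h.choose else 0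

/-- The envelope. -/
noncomputable def ec (c : ℝ) (f : Hz) : ℝ := ⟪f, Pc c f⟫_ℝ - ‖Pc c f‖ ^ 2 / 2

/-- The complement of the projection. -/
noncomputable def gc (c : ℝ) (f : Hz) : Hz := f - Pc c f

/-- The point over `q` at height `z`. -/
noncomputable def pt (q : ℝ × ℝ) (z : ℝ) : E3 := !₂[q.1, q.2, z]

/-- The square of the distance to the axis. -/
def sq2 (q : ℝ × ℝ) : ℝ := q.1 ^ 2 + q.2 ^ 2

open Classical in
/-- The fibre of `F` over `q`. -/
noncomputable def fib (F : E3 → ℝ) (q : ℝ × ℝ) : Hz :=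
  if h : MemLp (fun z => F (pt q z)) 2 volume then h.toLp _ else 0

/-- Smooth functions with compact support. -/
structure Cs (F : E3 → ℝ) : Prop where
  sm : ContDiff ℝ ∞ F
  cs : HasCompactSupport F

/-- `L²` norm over the heights `|z - b| ≤ l`. -/
noncomputable def Nb (b l : ℝ) (ψ : E3 → ℝ) (q : ℝ × ℝ) : ℝ := √(∫ z in (b - l)..(b + l), ψ (pt q z) ^ 2)

/-- The density in the parameter. -/
noncomputable def rho (m0 μ : ℝ) : ℝ := (max (1 - μ) 0 ^ 3 - max (1 - μ / m0) 0 ^ 3) / Real.log (1 / m0)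

/-- The threshold. -/
noncomputable def cmu (m r2 μ : ℝ) (q : ℝ × ℝ) : ℝ := 2 * m * μ / (sq2 q + r2)

/-- The functional of `F`. -/
noncomputable def Psi (m r2 m0 : ℝ) (F : E3 → ℝ) : ℝ :=
  ∫ q : ℝ × ℝ, ∫ μ in (0 : ℝ)..1, rho m0 μ / μ * ec (cmu m r2 μ q) (fib F q)

/-- Its derivative in the direction `G`. -/
noncomputable def dPsi (m r2 m0 : ℝ) (F G : E3 → ℝ) : ℝ :=
  ∫ q : ℝ × ℝ, ∫ μ in (0 : ℝ)..1, rho m0 μ / μ * ⟪Pc (cmu m r2 μ q) (fib F q), fib G q⟫_ℝ

/-- The gain. -/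
noncomputable def Gain (m r2 m0 : ℝ) (F : E3 → ℝ) : ℝ :=
  ∫ q : ℝ × ℝ, sq2 q / (sq2 q + r2) ^ 2 * (ec (cmu m r2 1 q) (fib F q) - ec (cmu m r2 m0 q) (fib F q))

/-- The cutoff of a box of height `L` around `b`. -/
noncomputable def cb (L b : ℝ) (x : E3) : ℝ := c2 x ^ 2 * Real.smoothTransition (2 - ((x 2 - b) / L) ^ 2)

/-- The localised `ω_θ / r`. -/
noncomputable def Fb (L b : ℝ) (v : E3 → E3) (x : E3) : ℝ := cb L b x * sO v x

/-- The time derivative of `ω_θ / r`. -/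
noncomputable def tO (v : E3 → E3) (x : E3) : ℝ :=
  - adv (v x) (sO v) x + lap (sO v) x + 2 * dh (sO v) x + GO v x

/-- The functional. -/
noncomputable def PS (m r2 m0 L a : ℝ) (v : E3 → E3) : ℝ :=
  (1 / L) * ∫ b, ph L a b * Psi m r2 m0 (Fb L b v)

/-- The rate of `PS`. -/
noncomputable def RP (m r2 m0 L a : ℝ) (v : E3 → E3) : ℝ :=
  (1 / L) * ∫ b, ph L a b * dPsi m r2 m0 (Fb L b v) (fun x => cb L b x * tO v x)

/-- The rate of `NO / 2`. -/
noncomputable def RN (L a : ℝ) (v : E3 → E3) : ℝ := ∫ x, A1 L a x * (sO v x * tO v x)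

/-- The rate of `NO / 2 - δ PS`. -/
noncomputable def RQ (δ m r2 m0 L a : ℝ) (v : E3 → E3) : ℝ := RN L a v - δ * RP m r2 m0 L a v

/-- The total functional. -/
noncomputable def FQ (δ m r2 m0 θ l L a : ℝ) (v : E3 → E3) : ℝ :=
  (NJ L a v + BB θ L a v) / 2 + l * (NO L a v / 2 - δ * PS m r2 m0 L a v)

/-- The smallest parameter. -/
noncomputable def mz (κ L : ℝ) : ℝ := ((κ * L) ^ 6)⁻¹

/-- The radius squared below which the threshold is constant. -/
noncomputable def rz (κ : ℝ) : ℝ := (κ ^ 4)⁻¹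

end Pool.Agent.H42.TQ
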