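import Pool.Agent.H42.TQ.A7
import Pool.Agent.H42.TQ.T0
import Pool.Agent.H37.TQ.T1f

/-!
ROW TQ_T1 (transport: the inequality for a finite shift). MP_09540e_TQ, PI helper42. Hz = Lp R 2 on the line; Kc, Pc (projection), gc = f - Pc, ec in TQ/Defs.lean; proved facts (helper94) in TQ/A1, A2 (Kc_add, Kc_smul,
Pc_mem, Pc_vi, Pc_lip, gc_lip, Pc_norm, gc_norm, Pc_rel, Pc_cont, int_ii, int_add, int_smul ...), B1 (fib_coe, fib_inner, fib_inner', fib_norm, fib_cont, fib_add, fib_out, fib_fub,
Cs.taylor, Cs.lip, Cs.box, Cs.pd ...), translations Ts s (p(z+s)) in H88/TQ/A4a.lean (Ts_coe, Ts_Kc, Pc_Ts, ec_Ts). Use only the STATEMENTS of imported rows; auxiliary lemmas private or with the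
prefix T1_ ; statements FIXED (tell helper42 at once if one is wrong or awkward); replace every sorry; no double quotes in the file; lake build the file; land only your own
file (tools/land.sh --force), set state done, message helper42. Proof:

Write u = uq, g = gq, w = wq, c = cq, all functions of q; q_s = q + s d. For each q apply neighbour (A7) with c = cq q, f = fib F q, u := uq (q_s), th(z) = th(pt q z) (deriv = pd 2 th (pt q z), compact support by hz):
 int_z g(q) th(pt q z)(u(q_s) - u(q)) + int_z g(q) pd 2 th (pt q z)(w(q) - w(q_s)) <= 0.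
Integrate over q (all inner integrals are continuous functions of q with compact support, as g(q) = 0 for large q: fib_out; continuity: vq_cont, wq_cont, multiplication by the
continuous function th(pt q z) on a common z-box is continuous Hz -> Hz; it is convenient to write int_z g th u = <fib-like product, u>: multiplication lemma T1_mul below, or use the joint representation
g(q) = fib F q - c(q) u(q)). Change of variables q -> q - s d in the terms with u(q_s), w(q_s):
 int_q int_z g(q) th u(q_s) = int_q int_z (g th)(q - s d) u(q);  same for g pd2 th w(q_s).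
Insert g = fib F - c u in the first: int_q int_z [(F th)(q - s d) - (F th)(q)] u(q) - int_q int_z [ (c th u)(q - s d) u(q) - (c th u^2)(q) ]. With k = c th >= 0 (k(x) = cE x * th x):
 k(q-sd) u(q-sd) u(q) <= k(q-sd) (u(q-sd)^2 + u(q)^2)/2, int_q int_z k(q-sd) u(q-sd)^2 = int_q int_z k u^2, so
 - int int [...] >= int int k u^2 - (1/2) int int k u^2 - (1/2) int int k(q-sd) u^2 = (1/2) int int (k(q) - k(q-sd)) u(q)^2.
Sum = the statement. (F th)(q) is the fibre of th * F (in Cs: Cs.mul_left).
-/

set_option autoImplicit false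

open Set Filter Topology MeasureTheory
open scoped ContDiff InnerProductSpace

namespace Pool.Agent.H42.TQ

open Pool.Agent.H16 Pool.Agent.H87.NS Pool.Agent.H72.CC Pool.Agent.H16.TU Pool.Agent.H94.EP Pool.Agent.H87.EP Pool.Agent.H88.TQ

theorem shift_ineq {N r2 : ℝ} (hN : 0 < N) (hr : 0 < r2) {F : E3 → ℝ} (hF : Cs F) {θ : E3 → ℝ} (hs : ContDiff ℝ ∞ θ)
    (hn : ∀ x, 0 ≤ θ x) (hz : ∃ R, ∀ x : E3, R ≤ |x 2| → pd 2 θ x = 0) (d : ℝ × ℝ) (s : ℝ) :
    (∫ q : ℝ × ℝ, ⟪uq N r2 F q, fib (fun x => θ x * F x) (q - s • d) - fib (fun x => θ x * F x) q⟫_ℝ) +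
    1 / 2 * (∫ q : ℝ × ℝ, ∫ z, (cE N r2 (pt q z) * θ (pt q z) - cE N r2 (pt (q - s • d) z) * θ (pt (q - s • d) z)) *
      uq N r2 F q z ^ 2) +
    (∫ q : ℝ × ℝ, ∫ z, (gq N r2 F q z * pd 2 θ (pt q z) - gq N r2 F (q - s • d) z * pd 2 θ (pt (q - s • d) z)) *
      wq N r2 F q z) ≤ 0 :=
  Pool.Agent.H37.TQ.shift_ineq' hN hr hF hs hn hz d s

end Pool.Agent.H42.TQ
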