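import Pool.Agent.H42.TQ.T0
import Pool.Agent.H16.TQ.T2x

/-!
ROW TQ_T2 (transport: first order expansions). MP_09540e_TQ, PI helper42. Hz = Lp R 2 on the line; Kc, Pc (projection), gc = f - Pc, ec in TQ/Defs.lean; proved facts (helper94) in TQ/A1, A2 (Kc_add, Kc_smul,
Pc_mem, Pc_vi, Pc_lip, gc_lip, Pc_norm, gc_norm, Pc_rel, Pc_cont, int_ii, int_add, int_smul ...), B1 (fib_coe, fib_inner, fib_inner', fib_norm, fib_cont, fib_add, fib_out, fib_fub,
Cs.taylor, Cs.lip, Cs.box, Cs.pd ...), translations Ts s (p(z+s)) in H88/TQ/A4a.lean (Ts_coe, Ts_Kc, Pc_Ts, ec_Ts).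

first: Cs.taylor for th F (h = -s) gives |fib H (q - s d) - fib H q + s fib (pd i H) q| <= C s^2 for |s| <= 1 (fib_dist or fib_norm with the common box), uniformly in q; |uq q| is bounded (continuous, compact support).
second: k = cE th is smooth; on the support of uq (q in a ball, z in [a,b]) |k(q) - k(q - s d) - s pd i k(q)| <= C s^2; int_q |uq q|^2 < infinity.
third: helper16, Pool/Agent/H16/TQ/T2x.lean.
-/

set_option autoImplicit false

open Set Filter Topology MeasureTheory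
open scoped ContDiff InnerProductSpace

namespace Pool.Agent.H42.TQ

open Pool.Agent.H16 Pool.Agent.H87.NS Pool.Agent.H72.CC Pool.Agent.H16.TU Pool.Agent.H94.EP Pool.Agent.H87.EP Pool.Agent.H88.TQ

/-- The error density. -/
noncomputable def Er (i : Fin 3) (N r2 b l : ℝ) (F θ : E3 → ℝ) (q : ℝ × ℝ) : ℝ :=
  ‖gq N r2 F q‖ * Nb b l (pd i (pd 2 θ)) q +
    Nb b l (pd 2 θ) q * (‖fib (pd i F) q‖ + 2 * |pt q 0 i| / (sq2 q + r2) * ‖fib F q‖)

theorem Er_cs {N r2 b l : ℝ} (hN : 0 < N) (hr : 0 < r2) (hl : 0 < l) {F θ : E3 → ℝ} (hF : Cs F) (hs : ContDiff ℝ ∞ θ) (i : Fin 3) :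
    Continuous (Er i N r2 b l F θ) ∧ HasCompactSupport (Er i N r2 b l F θ) :=
  Pool.Agent.H16.TQ.erx_cs hN hr hF hs i

private theorem T2_ucs {N r2 : ℝ} (hN : 0 < N) (hr : 0 < r2) {F : E3 → ℝ} (hF : Cs F) :
    HasCompactSupport (uq N r2 F) := by
  obtain ⟨A, hA⟩ := fib_out hF
  refine HasCompactSupport.intro (Pool.Agent.H16.TQ.sq2_cpt A) fun q hq => ?_
  have h1 : A ≤ sq2 q := by
    by_contra h
    push Not at h
    exact hq h.le
  exact (vq_out hN hr (hA q h1)).2.2

theorem tr_first {N r2 : ℝ} (hN : 0 < N) (hr : 0 < r2) {F H : E3 → ℝ} (hF : Cs F) (hH : Cs H) {i : Fin 3} {d : ℝ × ℝ}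
    (h : Dir i d) : ∃ C, 0 ≤ C ∧ ∀ s : ℝ, |s| ≤ 1 →
    |(∫ q : ℝ × ℝ, ⟪uq N r2 F q, fib H (q - s • d) - fib H q⟫_ℝ) + s * (∫ q : ℝ × ℝ, ⟪uq N r2 F q, fib (pd i H) q⟫_ℝ)| ≤
      C * s ^ 2 := by
  obtain ⟨C0, hC0, h1⟩ := Pool.Agent.H16.TQ.jfib hH h
  have hu : Continuous (uq N r2 F) := (vq_cont hN hr hF).2.2
  have hc := T2_ucs hN hr hF
  have hi : ∀ {g : ℝ × ℝ → Hz}, Continuous g → Integrable (fun q => ⟪uq N r2 F q, g q⟫_ℝ) := by
    intro g hg
    refine (hu.inner hg).integrable_of_hasCompactSupport ?_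
    refine hc.mono ?_
    intro q hq
    rw [Function.mem_support] at hq ⊢
    intro h2
    apply hq
    rw [h2, inner_zero_left]
  have hin : Integrable (fun q => ‖uq N r2 F q‖) := hu.norm.integrable_of_hasCompactSupport hc.norm
  refine ⟨C0 * ∫ q, ‖uq N r2 F q‖, mul_nonneg hC0 (integral_nonneg fun q => norm_nonneg _), fun s _ => ?_⟩
  have i1 : Integrable (fun q => ⟪uq N r2 F q, fib H (q - s • d) - fib H q⟫_ℝ) :=
    hi (((fib_cont hH).comp (continuous_id.sub continuous_const)).sub (fib_cont hH))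
  have i2 : Integrable (fun q => ⟪uq N r2 F q, fib (pd i H) q⟫_ℝ) := hi (fib_cont (hH.pd i))
  rw [← integral_const_mul, ← integral_add i1 (i2.const_mul s)]
  refine (abs_integral_le_integral_abs).trans ?_
  calc ∫ q, |⟪uq N r2 F q, fib H (q - s • d) - fib H q⟫_ℝ + s * ⟪uq N r2 F q, fib (pd i H) q⟫_ℝ|
      ≤ ∫ q, ‖uq N r2 F q‖ * (C0 * s ^ 2) := by
        refine integral_mono_of_nonneg (ae_of_all _ fun q => abs_nonneg _) (hin.mul_const _) (ae_of_all _ fun q => ?_)
        have e1 : ⟪uq N r2 F q, fib H (q - s • d) - fib H q⟫_ℝ + s * ⟪uq N r2 F q, fib (pd i H) q⟫_ℝ =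
            ⟪uq N r2 F q, fib H (q - s • d) - fib H q + s • fib (pd i H) q⟫_ℝ := by
          rw [inner_add_right, inner_smul_right]
        simp only
        rw [e1]
        exact (abs_real_inner_le_norm _ _).trans (mul_le_mul_of_nonneg_left (h1 q s) (norm_nonneg _))
    _ = C0 * (∫ q, ‖uq N r2 F q‖) * s ^ 2 := by
        rw [integral_mul_const]
        ring

private theorem T2_int {p : Hz} {R : ℝ} (hp : Sz (-R) R p) {f : ℝ → ℝ} (hf : Continuous f) :
    Integrable (fun z => f z * p z ^ 2) := by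
  obtain ⟨M, hM⟩ := (isCompact_Icc (a := -R) (b := R)).exists_bound_of_continuousOn hf.continuousOn
  have h1 : Integrable (fun z => p z ^ 2) := (Lp.memLp p).integrable_sq
  refine (h1.const_mul M).mono (hf.aestronglyMeasurable.mul h1.aestronglyMeasurable) ?_
  filter_upwards [hp] with z hz
  by_cases h : z ∈ Icc (-R) R
  · rw [norm_mul, norm_mul]
    exact mul_le_mul_of_nonneg_right ((hM z h).trans (le_abs_self M)) (norm_nonneg _)
  · rw [hz h]
    simp

private theorem T2_sq (p : Hz) : ∫ z, p z ^ 2 = ‖p‖ ^ 2 := by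
  rw [← real_inner_self_eq_norm_sq, L2.inner_def]
  refine integral_congr_ae (ae_of_all _ fun z => ?_)
  simp [pow_two]

private theorem T2_bd {p : Hz} {R : ℝ} (hp : Sz (-R) R p) {f : ℝ → ℝ} (hf : Continuous f) {M : ℝ}
    (hM : ∀ z ∈ Icc (-R) R, |f z| ≤ M) : |∫ z, f z * p z ^ 2| ≤ M * ‖p‖ ^ 2 := by
  have h1 : Integrable (fun z => p z ^ 2) := (Lp.memLp p).integrable_sq
  rw [← T2_sq, ← integral_const_mul]
  refine (abs_integral_le_integral_abs).trans ?_
  refine integral_mono_ae (T2_int hp hf).abs (h1.const_mul M) ?_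
  filter_upwards [hp] with z hz
  by_cases h : z ∈ Icc (-R) R
  · rw [abs_mul, abs_of_nonneg (sq_nonneg (p z))]
    exact mul_le_mul_of_nonneg_right (hM z h) (sq_nonneg _)
  · rw [hz h]
    simp

private theorem T2_bd2 {p p' : Hz} {R : ℝ} (hp : Sz (-R) R p) (hp' : Sz (-R) R p') {f : ℝ → ℝ} (hf : Continuous f) {M : ℝ}
    (hM0 : 0 ≤ M) (hM : ∀ z ∈ Icc (-R) R, |f z| ≤ M) :
    |(∫ z, f z * p z ^ 2) - ∫ z, f z * p' z ^ 2| ≤ M * (‖p - p'‖ * ‖p + p'‖) := by
  have e1 : (∫ z, f z * p z ^ 2) - ∫ z, f z * p' z ^ 2 = ∫ z, (f z * p z ^ 2 - f z * p' z ^ 2) :=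
    (integral_sub (T2_int hp hf) (T2_int hp' hf)).symm
  have m1 : MemLp (fun z => (p - p') z) 2 volume := Lp.memLp _
  have m2 : MemLp (fun z => (p + p') z) 2 volume := Lp.memLp _
  have i1 : Integrable (fun z => |(p - p') z| * |(p + p') z|) := (m1.norm).integrable_mul (m2.norm)
  have h2 : ∫ z, |(p - p') z| * |(p + p') z| ≤ ‖p - p'‖ * ‖p + p'‖ := by
    have h3 : ∫ z, |(p - p') z| * |(p + p') z| ≤
        (∫ z, |(p - p') z| ^ (2 : ℝ)) ^ (1 / (2 : ℝ)) * (∫ z, |(p + p') z| ^ (2 : ℝ)) ^ (1 / (2 : ℝ)) := by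
      refine integral_mul_le_Lp_mul_Lq_of_nonneg ?_ (ae_of_all _ fun z => abs_nonneg _) (ae_of_all _ fun z => abs_nonneg _) ?_ ?_
      · exact Real.HolderConjugate.two_two
      · simpa [Real.norm_eq_abs] using m1.norm
      · simpa [Real.norm_eq_abs] using m2.norm
    have h4 : ∀ x : Hz, (∫ z, |x z| ^ (2 : ℝ)) ^ (1 / (2 : ℝ)) = ‖x‖ := by
      intro x
      have h5 : ∫ z, |x z| ^ (2 : ℝ) = ‖x‖ ^ 2 := by
        rw [← T2_sq]
        refine integral_congr_ae (ae_of_all _ fun z => ?_)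
        simp only
        rw [Real.rpow_two, sq_abs]
      rw [h5, ← Real.sqrt_eq_rpow, Real.sqrt_sq (norm_nonneg _)]
    rw [h4, h4] at h3
    exact h3
  rw [e1]
  refine (abs_integral_le_integral_abs).trans ?_
  refine (integral_mono_ae ((T2_int hp hf).sub (T2_int hp' hf)).abs (i1.const_mul M) ?_).trans ?_
  · filter_upwards [hp, hp', Lp.coeFn_sub p p', Lp.coeFn_add p p'] with z hz hz' h5 h6
    show |f z * p z ^ 2 - f z * p' z ^ 2| ≤ M * (|(p - p') z| * |(p + p') z|)
    by_cases h : z ∈ Icc (-R) R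
    · rw [h5, h6]
      simp only [Pi.sub_apply, Pi.add_apply]
      have e2 : f z * p z ^ 2 - f z * p' z ^ 2 = f z * ((p z - p' z) * (p z + p' z)) := by ring
      rw [e2, abs_mul, abs_mul]
      exact mul_le_mul_of_nonneg_right (hM z h) (by positivity)
    · rw [hz h, hz' h]
      simp only [ne_eq, OfNat.ofNat_ne_zero, not_false_eq_true, zero_pow, mul_zero, sub_zero, abs_zero]
      positivity
  · rw [integral_const_mul]
    exact mul_le_mul_of_nonneg_left h2 hM0

private theorem T2_cont {u : ℝ × ℝ → Hz} (hu : Continuous u) {R : ℝ} (hR : 0 < R) (hS : ∀ q, Sz (-R) R (u q))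
    {K : (ℝ × ℝ) × ℝ → ℝ} (hK : Continuous K) : Continuous (fun q => ∫ z, K (q, z) * u q z ^ 2) := by
  rw [continuous_iff_continuousAt]
  intro q0
  rw [ContinuousAt, tendsto_iff_norm_sub_tendsto_zero]
  obtain ⟨S, hS'⟩ : ∃ S : ℝ × ℝ → ℝ, S = fun q => sSup ((fun z => |K (q, z) - K (q0, z)|) '' Icc (-R) R) := ⟨_, rfl⟩
  have hcS : Continuous S := by
    rw [hS']
    refine (isCompact_Icc (a := -R) (b := R)).continuous_sSup (f := fun q z => |K (q, z) - K (q0, z)|) ?_
    show Continuous fun p : (ℝ × ℝ) × ℝ => |K (p.1, p.2) - K (q0, p.2)|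
    exact ((hK.comp (continuous_fst.prodMk continuous_snd)).sub (hK.comp (continuous_const.prodMk continuous_snd))).abs
  have hS0 : S q0 = 0 := by
    rw [hS']
    simp only [sub_self, abs_zero]
    have : (fun _ : ℝ => (0 : ℝ)) '' Icc (-R) R = {0} := by
      rw [Set.Nonempty.image_const]
      exact ⟨0, by constructor <;> linarith⟩
    rw [this, csSup_singleton]
  have hSb : ∀ q, ∀ z ∈ Icc (-R) R, |K (q, z) - K (q0, z)| ≤ S q := by
    intro q z hz
    rw [hS']
    refine le_csSup ?_ (mem_image_of_mem _ hz)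
    refine ((isCompact_Icc (a := -R) (b := R)).image ?_).bddAbove
    exact ((hK.comp (continuous_const.prodMk continuous_id)).sub (hK.comp (continuous_const.prodMk continuous_id))).abs
  have hkc : ∀ q, Continuous fun z => K (q, z) := fun q => hK.comp (continuous_const.prodMk continuous_id)
  obtain ⟨M, hM⟩ := (isCompact_Icc (a := -R) (b := R)).exists_bound_of_continuousOn (hkc q0).continuousOn
  have key : ∀ q, ‖(∫ z, K (q, z) * u q z ^ 2) - ∫ z, K (q0, z) * u q0 z ^ 2‖ ≤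
      S q * ‖u q‖ ^ 2 + |M| * (‖u q - u q0‖ * ‖u q + u q0‖) := by
    intro q
    rw [Real.norm_eq_abs]
    have e1 : (∫ z, K (q, z) * u q z ^ 2) - ∫ z, K (q0, z) * u q0 z ^ 2 =
        (∫ z, (K (q, z) - K (q0, z)) * u q z ^ 2) + ((∫ z, K (q0, z) * u q z ^ 2) - ∫ z, K (q0, z) * u q0 z ^ 2) := by
      have e2 : ∫ z, (K (q, z) - K (q0, z)) * u q z ^ 2 = (∫ z, K (q, z) * u q z ^ 2) - ∫ z, K (q0, z) * u q z ^ 2 := by
        rw [← integral_sub (T2_int (hS q) (hkc q)) (T2_int (hS q) (hkc q0))]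
        refine integral_congr_ae (ae_of_all _ fun z => ?_)
        simp only
        ring
      rw [e2]
      ring
    rw [e1]
    refine (abs_add_le _ _).trans (add_le_add ?_ ?_)
    · exact T2_bd (hS q) ((hkc q).sub (hkc q0)) (hSb q)
    · exact T2_bd2 (hS q) (hS q0) (hkc q0) (abs_nonneg M) fun z hz => (hM z hz).trans (le_abs_self M)
  refine squeeze_zero (fun _ => norm_nonneg _) key ?_
  have hc : Continuous fun q => S q * ‖u q‖ ^ 2 + |M| * (‖u q - u q0‖ * ‖u q + u q0‖) := by fun_prop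
  have := hc.tendsto q0
  rw [hS0] at this
  simpa using this

theorem tr_second {N r2 : ℝ} (hN : 0 < N) (hr : 0 < r2) {F k : E3 → ℝ} (hF : Cs F) (hk : ContDiff ℝ ∞ k) {i : Fin 3}
    {d : ℝ × ℝ} (h : Dir i d) : ∃ C, 0 ≤ C ∧ ∀ s : ℝ, |s| ≤ 1 →
    |(∫ q : ℝ × ℝ, ∫ z, (k (pt q z) - k (pt (q - s • d) z)) * uq N r2 F q z ^ 2) -
      s * (∫ q : ℝ × ℝ, ∫ z, pd i k (pt q z) * uq N r2 F q z ^ 2)| ≤ C * s ^ 2 := by
  obtain ⟨R, hR, hb1, hb2⟩ := hF.box
  have hs : ∀ x, F x ≠ 0 → x 2 ∈ Icc (-R) R := by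
    intro x hx
    by_contra h2
    apply hx
    have := hb1 (x 0, x 1) (x 2) ?_
    · rwa [pt_eta] at this
    · by_contra h3
      push Not at h3
      exact h2 ⟨(abs_lt.1 h3).1.le, (abs_lt.1 h3).2.le⟩
  have hSz : ∀ q, Sz (-R) R (uq N r2 F q) := fun q => (vq_Sz hN hr (by linarith) hF hs q).2.2.2
  have hu : Continuous (uq N r2 F) := (vq_cont hN hr hF).2.2
  have hcs := T2_ucs hN hr hF
  obtain ⟨G, hG, hG1, hG2⟩ := Pool.Agent.H16.TQ.jloc hk (R := 2 * R + 2) (by linarith) i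
  obtain ⟨M, hM, hT⟩ := hG.taylor i
  have hkc : Continuous k := hk.continuous
  have hpc : Continuous (pd i k) := (Pool.Agent.H16.TQ.pd_sm hk i).continuous
  have hu0 : ∀ q, R ^ 2 ≤ sq2 q → uq N r2 F q = 0 := by
    intro q hq
    refine (vq_out hN hr ?_).2.2
    rw [fib_eq hF]
    apply Lp.ext
    filter_upwards [(hF.memLp q).coeFn_toLp, Lp.coeFn_zero ℝ 2 (volume : Measure ℝ)] with z h1 h2
    rw [h1, h2, hb2 q z hq]
    rfl
  have hiu : Integrable (fun q => ‖uq N r2 F q‖ ^ 2) := by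
    refine (hu.norm.pow 2).integrable_of_hasCompactSupport ?_
    refine hcs.mono ?_
    intro q hq
    rw [Function.mem_support] at hq ⊢
    intro h2
    apply hq
    simp [h2]
  refine ⟨M * ∫ q, ‖uq N r2 F q‖ ^ 2, mul_nonneg hM (integral_nonneg fun q => sq_nonneg _), fun s hs1 => ?_⟩
  have hK1 : Continuous fun p : (ℝ × ℝ) × ℝ => k (pt p.1 p.2) - k (pt (p.1 - s • d) p.2) := by
    refine (hkc.comp pt_cont).sub (hkc.comp ?_)
    exact pt_cont' (continuous_fst.sub continuous_const) continuous_snd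
  have hK2 : Continuous fun p : (ℝ × ℝ) × ℝ => pd i k (pt p.1 p.2) := hpc.comp pt_cont
  have hint : ∀ {K : (ℝ × ℝ) × ℝ → ℝ}, Continuous K → Integrable (fun q => ∫ z, K (q, z) * uq N r2 F q z ^ 2) := by
    intro K hK
    refine (T2_cont hu hR hSz hK).integrable_of_hasCompactSupport ?_
    refine HasCompactSupport.intro (Pool.Agent.H16.TQ.sq2_cpt (R ^ 2)) fun q hq => ?_
    have h1 : R ^ 2 ≤ sq2 q := by
      by_contra h2
      push Not at h2
      exact hq h2.le
    rw [hu0 q h1]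
    rw [integral_congr_ae (g := fun _ => (0 : ℝ))]
    · simp
    · filter_upwards [Lp.coeFn_zero ℝ 2 (volume : Measure ℝ)] with z h2
      rw [h2]
      simp
  have i1 := hint hK1
  have i2 := hint hK2
  simp only at i1 i2
  rw [← integral_const_mul, ← integral_sub i1 (i2.const_mul s)]
  refine (abs_integral_le_integral_abs).trans ?_
  calc ∫ q, |(∫ z, (k (pt q z) - k (pt (q - s • d) z)) * uq N r2 F q z ^ 2) -
        s * ∫ z, pd i k (pt q z) * uq N r2 F q z ^ 2| ≤ ∫ q, (M * s ^ 2) * ‖uq N r2 F q‖ ^ 2 := by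
        refine integral_mono_of_nonneg (ae_of_all _ fun q => abs_nonneg _) (hiu.const_mul _) (ae_of_all _ fun q => ?_)
        simp only
        by_cases hq : R ^ 2 ≤ sq2 q
        · rw [hu0 q hq]
          have e0 : ∀ f : ℝ → ℝ, ∫ z, f z * (0 : Hz) z ^ 2 = 0 := by
            intro f
            rw [integral_congr_ae (g := fun _ => (0 : ℝ))]
            · simp
            · filter_upwards [Lp.coeFn_zero ℝ 2 (volume : Measure ℝ)] with z h2
              rw [h2]
              simp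
          rw [e0, e0]
          simp
        · push Not at hq
          have c1 : Continuous fun z => k (pt q z) - k (pt (q - s • d) z) :=
            hK1.comp (continuous_const.prodMk continuous_id)
          have c2 : Continuous fun z => pd i k (pt q z) := hK2.comp (continuous_const.prodMk continuous_id)
          have e1 : (∫ z, (k (pt q z) - k (pt (q - s • d) z)) * uq N r2 F q z ^ 2) -
              s * ∫ z, pd i k (pt q z) * uq N r2 F q z ^ 2 =
              ∫ z, (k (pt q z) - k (pt (q - s • d) z) - s * pd i k (pt q z)) * uq N r2 F q z ^ 2 := by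
            rw [← integral_const_mul, ← integral_sub (T2_int (hSz q) c1) ((T2_int (hSz q) c2).const_mul s)]
            refine integral_congr_ae (ae_of_all _ fun z => ?_)
            simp only
            ring
          rw [e1]
          refine T2_bd (hSz q) (c1.sub (c2.const_mul s)) fun z hz => ?_
          have hz2 : z ^ 2 ≤ R ^ 2 := by
            rw [← sq_abs z]
            exact pow_le_pow_left₀ (abs_nonneg _) (abs_le.2 ⟨hz.1, hz.2⟩) 2
          have hn1 : ‖pt q z‖ < 2 * R := by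
            refine lt_of_pow_lt_pow_left₀ 2 (by linarith) ?_
            rw [pt_norm]
            nlinarith
          have hei : ‖(e i : E3)‖ = 1 := by
            unfold e
            simp
          have hn2 : ‖pt (q - s • d) z‖ < 2 * R + 2 := by
            rw [Pool.Agent.H16.TQ.pt_sub h]
            refine (norm_add_le _ _).trans_lt ?_
            rw [norm_smul, hei, mul_one, norm_neg, Real.norm_eq_abs]
            linarith
          have t1 := hT (pt q z) (-s)
          rw [← Pool.Agent.H16.TQ.pt_sub h, hG1 _ hn2, hG1 _ (by linarith), hG2 _ (by linarith)] at t1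
          have e2 : k (pt q z) - k (pt (q - s • d) z) - s * pd i k (pt q z) =
              -(k (pt (q - s • d) z) - k (pt q z) - (-s) * pd i k (pt q z)) := by ring
          show |k (pt q z) - k (pt (q - s • d) z) - s * pd i k (pt q z)| ≤ M * s ^ 2
          rw [e2, abs_neg]
          refine t1.trans (le_of_eq ?_)
          ring
    _ = M * (∫ q, ‖uq N r2 F q‖ ^ 2) * s ^ 2 := by
        rw [integral_const_mul]
        ring

theorem tr_third {N r2 b l : ℝ} (hN : 0 < N) (hr : 0 < r2) (hl : 0 < l) {F θ : E3 → ℝ} (hF : Cs F) (hs : ContDiff ℝ ∞ θ)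
    (hb : ∀ x, F x ≠ 0 → |x 2 - b| ≤ l) {i : Fin 3} {d : ℝ × ℝ} (h : Dir i d) : ∃ C, 0 ≤ C ∧ ∀ s : ℝ, |s| ≤ 1 →
    |∫ q : ℝ × ℝ, ∫ z, (gq N r2 F q z * pd 2 θ (pt q z) - gq N r2 F (q - s • d) z * pd 2 θ (pt (q - s • d) z)) *
      wq N r2 F q z| ≤ |s| * (∫ q : ℝ × ℝ, Er i N r2 b l F θ q) + C * s ^ 2 :=
  Pool.Agent.H16.TQ.trx_third hN hr hl hF hs hb h

end Pool.Agent.H42.TQ
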