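import Pool.Agent.H42.TQ.T1
import Pool.Agent.H42.TQ.T2

/-!
ROW TQ_T3 (transport: the limit, and the horizontal estimate). MP_09540e_TQ, PI helper42. Hz = Lp R 2 on the line; Kc, Pc (projection), gc = f - Pc, ec in TQ/Defs.lean; proved facts (helper94) in TQ/A1, A2 (Kc_add, Kc_smul,
Pc_mem, Pc_vi, Pc_lip, gc_lip, Pc_norm, gc_norm, Pc_rel, Pc_cont, int_ii, int_add, int_smul ...), B1 (fib_coe, fib_inner, fib_inner', fib_norm, fib_cont, fib_add, fib_out, fib_fub,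
Cs.taylor, Cs.lip, Cs.box, Cs.pd ...), translations Ts s (p(z+s)) in H88/TQ/A4a.lean (Ts_coe, Ts_Kc, Pc_Ts, ec_Ts). Use only the STATEMENTS of imported rows; auxiliary lemmas private or with the
prefix T3_ ; statements FIXED (tell helper42 at once if one is wrong or awkward); replace every sorry; no double quotes in the file; lake build the file; land only your own
file (tools/land.sh --force), set state done, message helper42. Proof:

lim_ineq: shift_ineq for s > 0 divided by s and for s < 0 divided by s (sign changes), first (H = th F), second (k = cE th), third, s -> 0.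
horiz: a in Cs, M >= sup |a|. lim_ineq (upper side) for th1 = (a + M) cE and (lower side) for th2 = M cE; pd 2 th1 = cE pd 2 a (cE_pd2), pd 2 th2 = 0, so Er for th2 is 0. With H1 - H2 = a cE F, k1 - k2 = cE^2 a:
 int_q <uq, fib (pd i (a cE F))> <= (1/2) int int pd i (cE^2 a) uq^2 + int_q Er i (..th1).
 uq = vq/cq; pd i (a cE F) = cE a pd i F + F (cE pd i a + a pd i cE), pd i cE = -(2 x i/(rsq x + r2)) cE; so the left side is int int a v pd i F + int int F v (pd i a - 2 x i a/(rsq+r2)), F = v + g on the fibres;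
 (1/2) pd i (cE^2 a)/cE^2 = (1/2) pd i a - 2 x i a/(rsq+r2). Rearranged: int int a v pd i F <= -(1/2) int int (pd i a) v^2 - int int v g (pd i a - 2 x i a/(rsq+r2)) + int_q Er,
 Er for th1: pd i (cE pd 2 a) = cE (pd i (pd 2 a) - 2 x i pd 2 a/(rsq+r2)), cE does not depend on z, Nb b l (cE psi) q = cq q * Nb b l psi q.
 vert: A6 (v_dz) fibrewise: f(z) = F(pt q z), deriv f = pd 2 F (pt q z), beta(z) = a(pt q z).
-/

set_option autoImplicit false

open Set Filter Topology MeasureTheory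
open scoped ContDiff InnerProductSpace

namespace Pool.Agent.H42.TQ

open Pool.Agent.H16 Pool.Agent.H87.NS Pool.Agent.H72.CC Pool.Agent.H16.TU Pool.Agent.H94.EP Pool.Agent.H87.EP Pool.Agent.H88.TQ

private theorem T3_lim {X E C : ℝ} (hC : 0 ≤ C) (h : ∀ t : ℝ, 0 < t → t ≤ 1 → t * X ≤ t * E + C * t ^ 2) : X ≤ E := by
  by_contra hX
  push Not at hX
  have h0 : 0 < X - E := by linarith
  obtain ⟨t, ht⟩ : ∃ t, t = min 1 ((X - E) / (2 * (C + 1))) := ⟨_, rfl⟩
  have ht0 : 0 < t := by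
    rw [ht]
    exact lt_min one_pos (by positivity)
  have ht1 : t ≤ 1 := by
    rw [ht]
    exact min_le_left _ _
  have ht2 : t * (2 * (C + 1)) ≤ X - E := by
    have h1 : t ≤ (X - E) / (2 * (C + 1)) := by
      rw [ht]
      exact min_le_right _ _
    rwa [le_div_iff₀ (by positivity)] at h1
  have h1 := h t ht0 ht1
  have h2 : X ≤ E + C * t := by
    have h3 : t * X ≤ t * (E + C * t) := by
      have e1 : t * (E + C * t) = t * E + C * t ^ 2 := by ring
      rw [e1]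
      exact h1
    exact le_of_mul_le_mul_left h3 ht0
  have h3 : C * t * 2 ≤ X - E := by nlinarith
  nlinarith

theorem lim_ineq {N r2 b l : ℝ} (hN : 0 < N) (hr : 0 < r2) (hl : 0 < l) {F θ : E3 → ℝ} (hF : Cs F) (hs : ContDiff ℝ ∞ θ)
    (hn : ∀ x, 0 ≤ θ x) (hz : ∃ R, ∀ x : E3, R ≤ |x 2| → pd 2 θ x = 0) (hb : ∀ x, F x ≠ 0 → |x 2 - b| ≤ l)
    {i : Fin 3} {d : ℝ × ℝ} (h : Dir i d) :
    |(∫ q : ℝ × ℝ, ⟪uq N r2 F q, fib (pd i (fun x => θ x * F x)) q⟫_ℝ) -
      1 / 2 * (∫ q : ℝ × ℝ, ∫ z, pd i (fun x => cE N r2 x * θ x) (pt q z) * uq N r2 F q z ^ 2)| ≤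
      ∫ q : ℝ × ℝ, Er i N r2 b l F θ q := by
  obtain ⟨C1, h10, h1⟩ := tr_first (H := fun x => θ x * F x) hN hr hF (Cs.mul_left hs hF) h
  obtain ⟨C2, h20, h2⟩ := tr_second (k := fun x => cE N r2 x * θ x) hN hr hF ((cE_sm hr).mul hs) h
  obtain ⟨C3, h30, h3⟩ := tr_third hN hr hl hF hs hb h
  have key := fun s => shift_ineq hN hr hF hs hn hz d s
  obtain ⟨A, hA⟩ : ∃ A, A = ∫ q : ℝ × ℝ, ⟪uq N r2 F q, fib (pd i (fun x => θ x * F x)) q⟫_ℝ := ⟨_, rfl⟩
  obtain ⟨B, hB⟩ : ∃ B, B = ∫ q : ℝ × ℝ, ∫ z, pd i (fun x => cE N r2 x * θ x) (pt q z) * uq N r2 F q z ^ 2 := ⟨_, rfl⟩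
  obtain ⟨E, hE⟩ : ∃ E, E = ∫ q : ℝ × ℝ, Er i N r2 b l F θ q := ⟨_, rfl⟩
  rw [← hA] at h1
  rw [← hB] at h2
  rw [← hE] at h3
  rw [← hA, ← hB, ← hE, abs_le]
  have h4 : 0 ≤ C1 + C2 / 2 + C3 := by positivity
  constructor
  · have h5 : 1 / 2 * B - A ≤ E := by
      refine T3_lim h4 (fun t ht ht1 => ?_)
      have ht2 : |t| ≤ 1 := by
        rw [abs_of_pos ht]
        exact ht1
      have k0 := key t
      have k1 := (abs_le.1 (h1 t ht2)).1
      have k2 := (abs_le.1 (h2 t ht2)).1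
      have k3 := (abs_le.1 (h3 t ht2)).1
      rw [abs_of_pos ht] at k3
      linarith
    linarith
  · have h5 : A - 1 / 2 * B ≤ E := by
      refine T3_lim h4 (fun t ht ht1 => ?_)
      have ht2 : |(-t)| ≤ 1 := by
        rw [abs_neg, abs_of_pos ht]
        exact ht1
      have k0 := key (-t)
      have k1 := (abs_le.1 (h1 (-t) ht2)).1
      have k2 := (abs_le.1 (h2 (-t) ht2)).1
      have k3 := (abs_le.1 (h3 (-t) ht2)).1
      rw [abs_neg, abs_of_pos ht] at k3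
      simp only [neg_sq] at k1 k2 k3
      linarith
    exact h5

/-- The error of the horizontal transport. -/
noncomputable def Eh (i : Fin 3) (N r2 b l : ℝ) (F a : E3 → ℝ) (q : ℝ × ℝ) : ℝ :=
  cq N r2 q * (‖gq N r2 F q‖ * Nb b l (fun x => pd i (pd 2 a) x - 2 * x i / (rsq x + r2) * pd 2 a x) q +
    Nb b l (pd 2 a) q * (‖fib (pd i F) q‖ + 2 * |pt q 0 i| / (sq2 q + r2) * ‖fib F q‖))

private theorem T3_pd_mul {u v : E3 → ℝ} (hu : ContDiff ℝ ∞ u) (hv : ContDiff ℝ ∞ v) (i : Fin 3) (x : E3) :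
    pd i (fun y => u y * v y) x = u x * pd i v x + v x * pd i u x := by
  unfold pd
  rw [fderiv_fun_mul ((hu.differentiable (by simp)) x) ((hv.differentiable (by simp)) x)]
  simp

private theorem T3_pd_addc {u : E3 → ℝ} (M : ℝ) (i : Fin 3) (x : E3) :
    pd i (fun y => u y + M) x = pd i u x := by
  unfold pd
  rw [fderiv_add_const]

private theorem T3_pd_c (M : ℝ) (i : Fin 3) (x : E3) : pd i (fun _ : E3 => M) x = 0 := by
  unfold pd
  simp

private theorem T3_uv (U V : Hz) : Integrable (fun z => U z * V z) := by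
  have := L2.integrable_inner (𝕜 := ℝ) U V
  refine this.congr (ae_of_all _ fun z => ?_)
  simp [mul_comm]

private theorem T3_int {a b : ℝ} {β : ℝ → ℝ} (hβ : Continuous β) {U : Hz} (hU : Sz a b U) (V : Hz) :
    Integrable (fun z => β z * (U z * V z)) := by
  obtain ⟨B, hB⟩ := isCompact_Icc.exists_bound_of_continuousOn (s := Icc a b) (f := β) hβ.continuousOn
  have h1 : Integrable (fun z => (Icc a b).indicator β z * (U z * V z)) := by
    refine (T3_uv U V).bdd_mul (c := |B|) (hβ.aestronglyMeasurable.indicator measurableSet_Icc) (ae_of_all _ fun z => ?_)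
    by_cases hz : z ∈ Icc a b
    · rw [indicator_of_mem hz]
      exact (hB z hz).trans (le_abs_self B)
    · rw [indicator_of_notMem hz, norm_zero]
      exact abs_nonneg _
  refine h1.congr ?_
  filter_upwards [hU] with z hz
  by_cases h : z ∈ Icc a b
  · rw [indicator_of_mem h]
  · rw [hz h]
    simp

private theorem T3_abs (U V : Hz) : ∫ z, |U z * V z| ≤ ‖U‖ * ‖V‖ := by
  have h1 : ⟪|U|, |V|⟫_ℝ ≤ ‖|U|‖ * ‖|V|‖ := real_inner_le_norm _ _
  rw [norm_abs_eq_norm, norm_abs_eq_norm, L2.inner_def] at h1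
  refine le_trans (le_of_eq ?_) h1
  refine integral_congr_ae ?_
  filter_upwards [Lp.coeFn_abs U, Lp.coeFn_abs V] with z h2 h3
  rw [h2, h3, abs_mul]
  simp [mul_comm]

private theorem T3_bd {B : ℝ} {a b : ℝ} {β : ℝ → ℝ} (hc : Continuous β) (hβ : ∀ z ∈ Icc a b, |β z| ≤ B) {U : Hz}
    (hU : Sz a b U) (V : Hz) : |∫ z, β z * (U z * V z)| ≤ B * (‖U‖ * ‖V‖) := by
  by_cases hab : a ≤ b
  · have hB : 0 ≤ B := (abs_nonneg _).trans (hβ a (left_mem_Icc.2 hab))
    rw [← Real.norm_eq_abs]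
    refine (norm_integral_le_integral_norm _).trans ?_
    have h1 : ∫ z, ‖β z * (U z * V z)‖ ≤ ∫ z, B * |U z * V z| := by
      refine integral_mono_ae (T3_int hc hU V).norm ((T3_uv U V).abs.const_mul B) ?_
      filter_upwards [hU] with z hz
      simp only [Real.norm_eq_abs]
      rw [abs_mul]
      by_cases h : z ∈ Icc a b
      · exact mul_le_mul_of_nonneg_right (hβ z h) (abs_nonneg _)
      · rw [hz h]
        simp
    refine h1.trans ?_
    rw [integral_const_mul]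
    exact mul_le_mul_of_nonneg_left (T3_abs U V) hB
  · have hU0 : U = 0 := by
      apply Lp.ext
      filter_upwards [hU, Lp.coeFn_zero ℝ 2 (volume : Measure ℝ)] with z hz h0
      rw [h0, hz (by rw [Icc_eq_empty hab]; simp)]
      rfl
    have e1 : ∫ z, β z * (U z * V z) = 0 := by
      rw [← integral_zero ℝ ℝ (μ := volume)]
      refine integral_congr_ae ?_
      filter_upwards [hU] with z hz
      rw [hz (by rw [Icc_eq_empty hab]; simp)]
      simp
    rw [e1, hU0]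
    simp

private theorem T3_Sz_sub {a b : ℝ} {U V : Hz} (hU : Sz a b U) (hV : Sz a b V) : Sz a b (U - V) := by
  unfold Sz at *
  filter_upwards [hU, hV, Lp.coeFn_sub U V] with z h1 h2 h3 hz
  rw [h3, Pi.sub_apply, h1 hz, h2 hz, sub_zero]

private theorem T3_ptc (q : ℝ × ℝ) {k : E3 → ℝ} (hk : Continuous k) : Continuous (fun z => k (pt q z)) :=
  hk.comp (pt_cont' continuous_const continuous_id)

private theorem T3_cont {a b : ℝ} {k : E3 → ℝ} (hk : Continuous k) {U V : ℝ × ℝ → Hz} (hU : Continuous U)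
    (hV : Continuous V) (hs : ∀ q, Sz a b (U q)) : Continuous (fun q => ∫ z, k (pt q z) * (U q z * V q z)) := by
  obtain ⟨κ, hκ⟩ : ∃ κ : C(ℝ × ℝ, C(Icc a b, ℝ)), κ = ContinuousMap.curry
      (⟨fun p => k (pt p.1 p.2), hk.comp (pt_cont' continuous_fst (continuous_subtype_val.comp continuous_snd))⟩ :
        C((ℝ × ℝ) × Icc a b, ℝ)) := ⟨_, rfl⟩
  have hκ1 : ∀ (q : ℝ × ℝ) (z : ℝ) (hz : z ∈ Icc a b), κ q ⟨z, hz⟩ = k (pt q z) := by
    intro q z hz
    rw [hκ]
    rfl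
  rw [continuous_iff_continuousAt]
  intro p
  rw [ContinuousAt, tendsto_iff_norm_sub_tendsto_zero]
  have h3 : Tendsto (fun q : ℝ × ℝ => ‖κ q - κ p‖ * (‖U q‖ * ‖V q‖) +
      (‖κ p‖ * (‖U q - U p‖ * ‖V q‖) + ‖κ p‖ * (‖U p‖ * ‖V q - V p‖))) (𝓝 p) (𝓝 0) := by
    have h4 : Continuous (fun q : ℝ × ℝ => ‖κ q - κ p‖ * (‖U q‖ * ‖V q‖) +
      (‖κ p‖ * (‖U q - U p‖ * ‖V q‖) + ‖κ p‖ * (‖U p‖ * ‖V q - V p‖))) := by
      have := κ.continuous
      fun_prop
    have h5 := h4.tendsto p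
    simpa using h5
  refine squeeze_zero (fun _ => norm_nonneg _) (fun q => ?_) h3
  have hp := T3_ptc p hk
  have hq := T3_ptc q hk
  have e1 : (∫ z, k (pt q z) * (U q z * V q z)) - (∫ z, k (pt p z) * (U q z * V q z)) =
      ∫ z, (k (pt q z) - k (pt p z)) * (U q z * V q z) := by
    rw [← integral_sub (T3_int hq (hs q) _) (T3_int hp (hs q) _)]
    refine integral_congr_ae (ae_of_all _ fun z => ?_)
    simp only []
    ring
  have e2 : (∫ z, k (pt p z) * (U q z * V q z)) - (∫ z, k (pt p z) * (U p z * V q z)) =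
      ∫ z, k (pt p z) * ((U q - U p) z * V q z) := by
    rw [← integral_sub (T3_int hp (hs q) _) (T3_int hp (hs p) _)]
    refine integral_congr_ae ?_
    filter_upwards [Lp.coeFn_sub (U q) (U p)] with z hz
    rw [hz, Pi.sub_apply]
    ring
  have e3 : (∫ z, k (pt p z) * (U p z * V q z)) - (∫ z, k (pt p z) * (U p z * V p z)) =
      ∫ z, k (pt p z) * (U p z * (V q - V p) z) := by
    rw [← integral_sub (T3_int hp (hs p) _) (T3_int hp (hs p) _)]
    refine integral_congr_ae ?_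
    filter_upwards [Lp.coeFn_sub (V q) (V p)] with z hz
    rw [hz, Pi.sub_apply]
    ring
  have b1 : |∫ z, (k (pt q z) - k (pt p z)) * (U q z * V q z)| ≤ ‖κ q - κ p‖ * (‖U q‖ * ‖V q‖) := by
    refine T3_bd (β := fun z => k (pt q z) - k (pt p z)) (hq.sub hp) (fun z hz => ?_) (hs q) _
    have := (κ q - κ p).norm_coe_le_norm ⟨z, hz⟩
    rw [ContinuousMap.sub_apply, hκ1, hκ1, Real.norm_eq_abs] at this
    exact this
  have b0 : ∀ z ∈ Icc a b, |k (pt p z)| ≤ ‖κ p‖ := by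
    intro z hz
    have := (κ p).norm_coe_le_norm ⟨z, hz⟩
    rw [hκ1, Real.norm_eq_abs] at this
    exact this
  have b2 := T3_bd hp b0 (T3_Sz_sub (hs q) (hs p)) (V q)
  have b3 := T3_bd hp b0 (hs p) (V q - V p)
  rw [Real.norm_eq_abs]
  have e4 : (∫ z, k (pt q z) * (U q z * V q z)) - (∫ z, k (pt p z) * (U p z * V p z)) =
      (∫ z, (k (pt q z) - k (pt p z)) * (U q z * V q z)) + ((∫ z, k (pt p z) * ((U q - U p) z * V q z)) +
      ∫ z, k (pt p z) * (U p z * (V q - V p) z)) := by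
    rw [← e1, ← e2, ← e3]
    ring
  rw [e4]
  exact (abs_add_le _ _).trans (add_le_add b1 ((abs_add_le _ _).trans (add_le_add b2 b3)))

private theorem T3_csupp {A : ℝ} {f : ℝ × ℝ → ℝ} (h : ∀ q : ℝ × ℝ, A ≤ sq2 q → f q = 0) : HasCompactSupport f := by
  refine HasCompactSupport.intro (isCompact_Icc (a := ((-(|A| + 1), -(|A| + 1)) : ℝ × ℝ)) (b := (|A| + 1, |A| + 1)))
    (fun q hq => h q ?_)
  by_contra hA
  push Not at hA
  apply hq
  have h0 := le_abs_self A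
  have h1 := abs_nonneg A
  unfold sq2 at hA
  have h2 : |q.1| ≤ |A| + 1 := abs_le_of_sq_le_sq (by nlinarith [sq_nonneg q.2]) (by positivity)
  have h3 : |q.2| ≤ |A| + 1 := abs_le_of_sq_le_sq (by nlinarith [sq_nonneg q.1]) (by positivity)
  exact ⟨⟨(abs_le.1 h2).1, (abs_le.1 h3).1⟩, ⟨(abs_le.1 h2).2, (abs_le.1 h3).2⟩⟩

private theorem T3_zero {k : ℝ → ℝ} {U V : Hz} (h : U = 0) : ∫ z, k z * (U z * V z) = 0 := by
  rw [← integral_zero ℝ ℝ (μ := volume), h]
  refine integral_congr_ae ?_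
  filter_upwards [Lp.coeFn_zero ℝ 2 (volume : Measure ℝ)] with z h0
  rw [h0]
  simp

private theorem T3_w {r2 : ℝ} (hr : 0 < r2) (i : Fin 3) : ContDiff ℝ ∞ (fun x : E3 => 2 * x i / (rsq x + r2)) := by
  have h1 : ContDiff ℝ ∞ (fun x : E3 => x i) := (EuclideanSpace.proj i : E3 →L[ℝ] ℝ).contDiff
  have h2 : ContDiff ℝ ∞ (fun x : E3 => rsq x + r2) := by
    unfold rsq
    have h3 : ∀ j : Fin 3, ContDiff ℝ ∞ (fun x : E3 => x j) := fun j => (EuclideanSpace.proj j : E3 →L[ℝ] ℝ).contDiff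
    exact (((h3 0).pow 2).add ((h3 1).pow 2)).add contDiff_const
  refine (contDiff_const.mul h1).div h2 (fun x => ?_)
  unfold rsq
  positivity

private theorem T3_Nb {N r2 : ℝ} (hN : 0 < N) (hr : 0 < r2) (b l : ℝ) (ψ : E3 → ℝ) (q : ℝ × ℝ) :
    Nb b l (fun x => cE N r2 x * ψ x) q = cq N r2 q * Nb b l ψ q := by
  unfold Nb
  have e1 : (fun z => (cE N r2 (pt q z) * ψ (pt q z)) ^ 2) = fun z => cq N r2 q ^ 2 * ψ (pt q z) ^ 2 := by
    funext z
    rw [cE_pt, mul_pow]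
  simp only [e1]
  rw [intervalIntegral.integral_const_mul, Real.sqrt_mul (sq_nonneg _), Real.sqrt_sq (cq_pos hN hr q).le]

private theorem T3_Nb0 (b l : ℝ) (q : ℝ × ℝ) : Nb b l (fun _ => 0) q = 0 := by
  unfold Nb
  simp

private theorem T3_lin {x1 x2 y1 y2 p0 p1 p2 : ℝ × ℝ → ℝ} (h1 : Integrable x1) (h2 : Integrable x2) (h3 : Integrable y1)
    (h4 : Integrable y2) (h5 : Integrable p0) (h6 : Integrable p1) (h7 : Integrable p2)
    (key : ∀ q, (x1 q - x2 q) - 1 / 2 * (y1 q - y2 q) = p0 q + p1 q + 1 / 2 * p2 q) :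
    ((∫ q, x1 q) - (∫ q, x2 q)) - 1 / 2 * ((∫ q, y1 q) - (∫ q, y2 q)) = (∫ q, p0 q) + (∫ q, p1 q) + 1 / 2 * (∫ q, p2 q) := by
  have a1 : Integrable (fun q => x1 q - x2 q) := h1.sub h2
  have a2 : Integrable (fun q => 1 / 2 * (y1 q - y2 q)) := (h3.sub h4).const_mul _
  have a3 : Integrable (fun q => p0 q + p1 q) := h5.add h6
  have a4 : Integrable (fun q => 1 / 2 * p2 q) := h7.const_mul _
  rw [← integral_sub h1 h2, ← integral_sub h3 h4, ← integral_const_mul, ← integral_sub a1 a2, ← integral_add h5 h6,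
    ← integral_const_mul, ← integral_add a3 a4]
  congr 1
  funext q
  exact key q

theorem horiz {N r2 b l : ℝ} (hN : 0 < N) (hr : 0 < r2) (hl : 0 < l) {F a : E3 → ℝ} (hF : Cs F) (ha : Cs a)
    (hb : ∀ x, F x ≠ 0 → |x 2 - b| ≤ l) {i : Fin 3} {d : ℝ × ℝ} (h : Dir i d) :
    ∫ q : ℝ × ℝ, ⟪vq N r2 F q, fib (fun x => a x * pd i F x) q⟫_ℝ ≤
      - (1 / 2) * (∫ q : ℝ × ℝ, ∫ z, pd i a (pt q z) * vq N r2 F q z ^ 2) -
      (∫ q : ℝ × ℝ, ∫ z, (pd i a (pt q z) - 2 * pt q z i / (sq2 q + r2) * a (pt q z)) * (vq N r2 F q z * gq N r2 F q z)) +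
      ∫ q : ℝ × ℝ, Eh i N r2 b l F a q := by
  have hi : i = 0 ∨ i = 1 := by
    rcases h with h | h
    · exact Or.inl h.1
    · exact Or.inr h.1
  obtain ⟨M, hM⟩ : ∃ M, ∀ x, |a x| ≤ M := by
    obtain ⟨M, hM⟩ := ha.cont.bounded_above_of_compact_support ha.cs
    exact ⟨M, fun x => hM x⟩
  have hM0 : 0 ≤ M := (abs_nonneg _).trans (hM 0)
  have hcE := cE_sm (N := N) hr
  have hcE0 : ∀ x, 0 ≤ cE N r2 x := fun x => by
    unfold cE rsq
    positivity
  obtain ⟨θ1, hθ1⟩ : ∃ θ1 : E3 → ℝ, θ1 = fun x => (a x + M) * cE N r2 x := ⟨_, rfl⟩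
  obtain ⟨θ2, hθ2⟩ : ∃ θ2 : E3 → ℝ, θ2 = fun x => M * cE N r2 x := ⟨_, rfl⟩
  have haM : ContDiff ℝ ∞ (fun x => a x + M) := ha.sm.add contDiff_const
  have hs1 : ContDiff ℝ ∞ θ1 := by
    rw [hθ1]
    exact haM.mul hcE
  have hs2 : ContDiff ℝ ∞ θ2 := by
    rw [hθ2]
    exact contDiff_const.mul hcE
  have hn1 : ∀ x, 0 ≤ θ1 x := fun x => by
    rw [hθ1]
    refine mul_nonneg ?_ (hcE0 x)
    linarith [(abs_le.1 (hM x)).1]
  have hn2 : ∀ x, 0 ≤ θ2 x := fun x => by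
    rw [hθ2]
    exact mul_nonneg hM0 (hcE0 x)
  -- vertical derivatives
  have hp1 : pd 2 θ1 = fun x => cE N r2 x * pd 2 a x := by
    funext x
    rw [hθ1, T3_pd_mul haM hcE, T3_pd_addc, cE_pd2 hr]
    ring
  have hp2 : pd 2 θ2 = fun _ => 0 := by
    funext x
    rw [hθ2, T3_pd_mul contDiff_const hcE, T3_pd_c, cE_pd2 hr]
    ring
  have hz1 : ∃ R, ∀ x : E3, R ≤ |x 2| → pd 2 θ1 x = 0 := by
    obtain ⟨R, -, h1, -⟩ := (ha.pd 2).box
    refine ⟨R, fun x hx => ?_⟩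
    rw [hp1]
    have h2 := h1 (x 0, x 1) (x 2) hx
    rw [pt_eta] at h2
    simp only [h2, mul_zero]
  have hz2 : ∃ R, ∀ x : E3, R ≤ |x 2| → pd 2 θ2 x = 0 := ⟨0, fun x _ => by rw [hp2]⟩
  -- horizontal derivatives of cE
  have hpc : ∀ x, pd i (cE N r2) x = - (2 * x i / (rsq x + r2)) * cE N r2 x := fun x => cE_pd hr hi x
  have L1 := (abs_le.1 (lim_ineq hN hr hl hF hs1 hn1 hz1 hb h)).2
  have L2 := (abs_le.1 (lim_ineq hN hr hl hF hs2 hn2 hz2 hb h)).1
  have E2 : ∫ q : ℝ × ℝ, Er i N r2 b l F θ2 q = 0 := by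
    have e1 : (fun q => Er i N r2 b l F θ2 q) = fun _ => 0 := by
      funext q
      unfold Er
      rw [hp2]
      have e2 : pd i (fun _ : E3 => (0 : ℝ)) = fun _ => 0 := by
        funext x
        exact T3_pd_c 0 i x
      rw [e2, T3_Nb0]
      ring
    rw [e1]
    simp
  have E1 : ∫ q : ℝ × ℝ, Er i N r2 b l F θ1 q = ∫ q : ℝ × ℝ, Eh i N r2 b l F a q := by
    congr 1
    funext q
    unfold Er Eh
    rw [hp1]
    have e2 : pd i (fun x => cE N r2 x * pd 2 a x) =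
        fun x => cE N r2 x * (pd i (pd 2 a) x - 2 * x i / (rsq x + r2) * pd 2 a x) := by
      funext x
      rw [T3_pd_mul hcE (ha.pd 2).sm, hpc]
      ring
    rw [e2, T3_Nb hN hr, T3_Nb hN hr]
    ring
  rw [E2] at L2
  rw [E1] at L1
  -- supports
  have hab : b - l ≤ b + l := by linarith
  have hsz := vq_Sz hN hr hab hF (fun x hx => by
    have := abs_le.1 (hb x hx)
    exact ⟨by linarith [this.1], by linarith [this.2]⟩)
  obtain ⟨A, hA⟩ := fib_out hF
  obtain ⟨hvc, hgc, huc⟩ := vq_cont hN hr hF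
  have hv0 : ∀ q : ℝ × ℝ, A ≤ sq2 q → vq N r2 F q = 0 := fun q hq => (vq_out hN hr (hA q hq)).1
  have hu0 : ∀ q : ℝ × ℝ, A ≤ sq2 q → uq N r2 F q = 0 := fun q hq => (vq_out hN hr (hA q hq)).2.2
  -- the functions
  obtain ⟨β, hβ⟩ : ∃ β : E3 → ℝ, β = fun x => pd i a x - 2 * x i / (rsq x + r2) * a x := ⟨_, rfl⟩
  have hβs : ContDiff ℝ ∞ β := by
    rw [hβ]
    exact (ha.pd i).sm.sub ((T3_w hr i).mul ha.sm)
  have hk1 : Cs (fun x => θ1 x * F x) := Cs.mul_left hs1 hF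
  have hk2 : Cs (fun x => θ2 x * F x) := Cs.mul_left hs2 hF
  have haF : Cs (fun x => a x * pd i F x) := Cs.mul_left ha.sm (hF.pd i)
  have hβF : Cs (fun x => β x * F x) := Cs.mul_left hβs hF
  have hm1 : ContDiff ℝ ∞ (fun x => cE N r2 x * θ1 x) := hcE.mul hs1
  have hm2 : ContDiff ℝ ∞ (fun x => cE N r2 x * θ2 x) := hcE.mul hs2
  -- integrability
  have i1 : ∀ {H : E3 → ℝ}, Cs H → Integrable (fun q : ℝ × ℝ => ⟪uq N r2 F q, fib H q⟫_ℝ) := by
    intro H hH
    refine (huc.inner (fib_cont hH)).integrable_of_hasCompactSupport (T3_csupp (A := A) fun q hq => ?_)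
    rw [hu0 q hq, inner_zero_left]
  have i2 : Integrable (fun q : ℝ × ℝ => ⟪vq N r2 F q, fib (fun x => a x * pd i F x) q⟫_ℝ) := by
    refine (hvc.inner (fib_cont haF)).integrable_of_hasCompactSupport (T3_csupp (A := A) fun q hq => ?_)
    rw [hv0 q hq, inner_zero_left]
  have i3 : ∀ {k : E3 → ℝ}, Continuous k →
      Integrable (fun q : ℝ × ℝ => ∫ z, k (pt q z) * (uq N r2 F q z * uq N r2 F q z)) := by
    intro k hk
    refine (T3_cont hk huc huc (fun q => (hsz q).2.2.2)).integrable_of_hasCompactSupport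
      (T3_csupp (A := A) fun q hq => ?_)
    exact T3_zero (hu0 q hq)
  have i4 : ∀ {k : E3 → ℝ} {V : ℝ × ℝ → Hz}, Continuous k → Continuous V →
      Integrable (fun q : ℝ × ℝ => ∫ z, k (pt q z) * (vq N r2 F q z * V q z)) := by
    intro k V hk hV
    refine (T3_cont hk hvc hV (fun q => (hsz q).2.1)).integrable_of_hasCompactSupport
      (T3_csupp (A := A) fun q hq => ?_)
    exact T3_zero (hv0 q hq)
  -- the identity over q
  have key : ∀ q : ℝ × ℝ, (⟪uq N r2 F q, fib (pd i (fun x => θ1 x * F x)) q⟫_ℝ - ⟪uq N r2 F q, fib (pd i (fun x => θ2 x * F x)) q⟫_ℝ) -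
      1 / 2 * ((∫ z, pd i (fun x => cE N r2 x * θ1 x) (pt q z) * (uq N r2 F q z * uq N r2 F q z)) -
        ∫ z, pd i (fun x => cE N r2 x * θ2 x) (pt q z) * (uq N r2 F q z * uq N r2 F q z)) =
      ⟪vq N r2 F q, fib (fun x => a x * pd i F x) q⟫_ℝ + (∫ z, β (pt q z) * (vq N r2 F q z * gq N r2 F q z)) +
      1 / 2 * ∫ z, pd i a (pt q z) * (vq N r2 F q z * vq N r2 F q z) := by
    intro q
    obtain ⟨hs0, hsv, hsg, hsu⟩ := hsz q
    obtain ⟨ha1, ha2⟩ := vq_add hN hr F q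
    -- the first bracket
    have e1 : (fun x => pd i (fun x => θ1 x * F x) x - pd i (fun x => θ2 x * F x) x) =
        fun x => cE N r2 x * (a x * pd i F x + β x * F x) := by
      funext x
      rw [T3_pd_mul hs1 hF.sm, T3_pd_mul hs2 hF.sm, hθ1, hθ2, T3_pd_mul haM hcE, T3_pd_mul contDiff_const hcE,
        T3_pd_addc, T3_pd_c, hpc, hβ]
      ring
    have hG : Cs (fun x => a x * pd i F x + β x * F x) := haF.add hβF
    have e2 : fib (fun x => cE N r2 x * (a x * pd i F x + β x * F x)) q =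
        cq N r2 q • fib (fun x => a x * pd i F x + β x * F x) q := by
      exact fib_hor (cq N r2) hG (Cs.mul_left hcE hG) q
    have e3 : ⟪uq N r2 F q, fib (pd i (fun x => θ1 x * F x)) q⟫_ℝ - ⟪uq N r2 F q, fib (pd i (fun x => θ2 x * F x)) q⟫_ℝ =
        ⟪vq N r2 F q, fib (fun x => a x * pd i F x) q⟫_ℝ + ⟪vq N r2 F q, fib (fun x => β x * F x) q⟫_ℝ := by
      rw [← inner_sub_right, ← fib_sub (hk1.pd i) (hk2.pd i), e1, e2, inner_smul_right, ← inner_add_right,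
        ← fib_add haF hβF, ha2, inner_smul_left]
      simp
    have e4 : ⟪vq N r2 F q, fib (fun x => β x * F x) q⟫_ℝ = (∫ z, β (pt q z) * (vq N r2 F q z * gq N r2 F q z)) +
        ∫ z, β (pt q z) * (vq N r2 F q z * vq N r2 F q z) := by
      have hc := T3_ptc q hβs.continuous
      rw [fib_inner' hβF, ← integral_add (T3_int hc hsv _) (T3_int hc hsv _)]
      refine integral_congr_ae ?_
      rw [← ha2] at ha1
      have h5 : (fib F q : ℝ → ℝ) =ᵐ[volume] fun z => gq N r2 F q z + vq N r2 F q z := by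
        rw [ha1]
        exact Lp.coeFn_add _ _
      filter_upwards [fib_coe hF q, h5] with z h6 h7
      rw [← h6, h7]
      ring
    -- the second bracket
    have e5 : ∀ x, pd i (fun x => cE N r2 x * θ1 x) x - pd i (fun x => cE N r2 x * θ2 x) x =
        cE N r2 x ^ 2 * (2 * β x - pd i a x) := by
      intro x
      rw [T3_pd_mul hcE hs1, T3_pd_mul hcE hs2, hθ1, hθ2, T3_pd_mul haM hcE, T3_pd_mul contDiff_const hcE,
        T3_pd_addc, T3_pd_c, hpc, hβ]
      ring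
    have hcp := T3_ptc q (ha.pd i).cont
    have e6 : (∫ z, pd i (fun x => cE N r2 x * θ1 x) (pt q z) * (uq N r2 F q z * uq N r2 F q z)) -
        (∫ z, pd i (fun x => cE N r2 x * θ2 x) (pt q z) * (uq N r2 F q z * uq N r2 F q z)) =
        2 * (∫ z, β (pt q z) * (vq N r2 F q z * vq N r2 F q z)) - ∫ z, pd i a (pt q z) * (vq N r2 F q z * vq N r2 F q z) := by
      have hc1 := T3_ptc q (pd_smooth hm1 i).continuous
      have hc2 := T3_ptc q (pd_smooth hm2 i).continuous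
      have hc := T3_ptc q hβs.continuous
      rw [← integral_sub (T3_int hc1 hsu _) (T3_int hc2 hsu _), ← integral_const_mul,
        ← integral_sub ((T3_int hc hsv _).const_mul 2) (T3_int hcp hsv _)]
      refine integral_congr_ae ?_
      have h5 : (vq N r2 F q : ℝ → ℝ) =ᵐ[volume] fun z => cq N r2 q * uq N r2 F q z := by
        rw [ha2]
        exact Lp.coeFn_smul _ _
      filter_upwards [h5] with z h7
      rw [← sub_mul, e5, h7, cE_pt]
      ring
    rw [e3, e4, e6]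
    ring
  -- integrate
  have hX1 := i1 (hk1.pd i)
  have hX2 := i1 (hk2.pd i)
  have hY1 := i3 (pd_smooth hm1 i).continuous
  have hY2 := i3 (pd_smooth hm2 i).continuous
  have hP1 := i4 hβs.continuous hgc
  have hP2 := i4 (ha.pd i).cont hvc
  have hint := T3_lin hX1 hX2 hY1 hY2 i2 hP1 hP2 key
  have hsq1 : ∀ (k : E3 → ℝ), (∫ q : ℝ × ℝ, ∫ z, k (pt q z) * uq N r2 F q z ^ 2) =
      ∫ q : ℝ × ℝ, ∫ z, k (pt q z) * (uq N r2 F q z * uq N r2 F q z) := fun k => by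
    simp only [pow_two]
  have hsq2 : (∫ q : ℝ × ℝ, ∫ z, pd i a (pt q z) * vq N r2 F q z ^ 2) =
      ∫ q : ℝ × ℝ, ∫ z, pd i a (pt q z) * (vq N r2 F q z * vq N r2 F q z) := by
    simp only [pow_two]
  rw [hsq1] at L1 L2
  have hβe : (∫ q : ℝ × ℝ, ∫ z, (pd i a (pt q z) - 2 * pt q z i / (sq2 q + r2) * a (pt q z)) * (vq N r2 F q z * gq N r2 F q z)) =
      ∫ q : ℝ × ℝ, ∫ z, β (pt q z) * (vq N r2 F q z * gq N r2 F q z) := by
    rw [hβ]
    rfl
  rw [hsq2, hβe]
  linarith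

end Pool.Agent.H42.TQ
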