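import Pool.Agent.H42.TQ.A5
import Pool.Agent.H42.TQ.A6
import Pool.Agent.H42.TQ.T3

/-!
ROW TQ_T4 (transport for a fixed parameter). MP_09540e_TQ, PI helper42. Hz = Lp R 2 on the line; Kc, Pc (projection), gc = f - Pc, ec in TQ/Defs.lean; proved facts (helper94) in TQ/A1, A2 (Kc_add, Kc_smul,
Pc_mem, Pc_vi, Pc_lip, gc_lip, Pc_norm, gc_norm, Pc_rel, Pc_cont, int_ii, int_add, int_smul ...), B1 (fib_coe, fib_inner, fib_inner', fib_norm, fib_cont, fib_add, fib_out, fib_fub,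
Cs.taylor, Cs.lip, Cs.box, Cs.pd ...), translations Ts s (p(z+s)) in H88/TQ/A4a.lean (Ts_coe, Ts_Kc, Pc_Ts, ec_Ts). Use only the STATEMENTS of imported rows; auxiliary lemmas private or with the
prefix T4_ ; statements FIXED (tell helper42 at once if one is wrong or awkward); replace every sorry; no double quotes in the file; lake build the file; land only your own
file (tools/land.sh --force), set state done, message helper42. Proof:

W = sW v, P-type facts in H87/EP/A.lean, H87/NS (sW smooth, rotation invariant: Ri (sW v) for Vs v; v x 0 = x 0 W - x 1 V, v x 1 = x 1 W + x 0 V; divergence). Choose a smooth cutoff eta with compact support, eta = 1 on a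
neighbourhood of {rsq <= 1/4, |x 2 - b| <= l} (the product of two smoothTransitions), a_i = x_i W eta (i = 0, 1), a_2 = (v x 2) eta: all in Cs.
adv (v x) F x = a_0 pd 0 F + a_1 pd 1 F + a_2 pd 2 F: the swirl part V(-x_1 pd 0 F + x_0 pd 1 F) = 0 by rotation invariance (A_pdi: pd 0 F = x_0 dh F, pd 1 F = x_1 dh F), eta = 1 on the support of F.
horiz for i = 0 (d = (1,0)) and i = 1 (d = (0,1)), and vert (v_dz of A6, fibrewise, beta(z) = a_2(pt q z)): int <v, a_2 pd 2 F> = -(1/2) int int pd 2 a_2 v^2. Sum: on the support (q with fib F q nonzero, z in [b-l,b+l])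
pd 0 a_0 + pd 1 a_1 + pd 2 a_2 = div = 0, so the v^2 terms cancel; the v g terms are - int int v g (2W + rdr W - 2 rsq W/(rsq + r2)) = - int int v g (2 r2/(rsq+r2) W + rsq dh W) (rdr W = rsq dh W).
 |int int v g 2 r2/(rsq+r2) W| <= int_q (r2/(sq2+r2)) M 2|v||g| <= M int_q r2/(sq2+r2)|fib F|^2 (vq_le). vg_le (A5), psi(z) = sq2 q dh W (pt q z): |int v g rsq dh W| <= cq sq2 ( Nb(dh W) |fib (pd 2 F)| + |g| Nb(pd 2 (dh W)) ),
 dh (pd 2 W) = pd 2 (dh W) (A_dh_pd2), int deriv f^2 = |fib (pd 2 F) q|^2.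
 Eh i: on the box pd 2 a_i = x_i W_z, pd i pd 2 a_i = W_z + x_i^2 dh W_z, so Nb(pd i pd 2 a_i - 2 x_i pd 2 a_i/(rsq+r2)) <= 3 Nb(W_z) + sq2 Nb(dh W_z), Nb(pd 2 a_i) = |q_i| Nb(W_z):
 Eh i <= cq ( |fib F| (3 Nb(W_z) + sq2 Nb(dh W_z)) + sqrt(sq2) Nb(W_z) |fib (pd i F)| + 2 Nb(W_z)|fib F| ). (For q with sq2 q > 1/4: fib F q = 0 and fib (pd i F) q = 0.) Total <= 10 N Tr.
-/

set_option autoImplicit false

open Set Filter Topology MeasureTheory
open scoped ContDiff InnerProductSpace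

namespace Pool.Agent.H42.TQ

open Pool.Agent.H16 Pool.Agent.H87.NS Pool.Agent.H72.CC Pool.Agent.H16.TU Pool.Agent.H94.EP Pool.Agent.H87.EP Pool.Agent.H88.TQ

/-- The weight of the transport error. -/
noncomputable def Tr (r2 b l : ℝ) (v : E3 → E3) (F : E3 → ℝ) (q : ℝ × ℝ) : ℝ :=
  (sq2 q * Nb b l (dh (sW v)) q * ‖fib (pd 2 F) q‖ +
    ‖fib F q‖ * (sq2 q * Nb b l (dh (pd 2 (sW v))) q + Nb b l (pd 2 (sW v)) q) +
    √(sq2 q) * Nb b l (pd 2 (sW v)) q * (‖fib (pd 0 F) q‖ + ‖fib (pd 1 F) q‖)) / (sq2 q + r2)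

/-! ### auxiliary lemmas -/

private theorem T4_sq2_nn (q : ℝ × ℝ) : 0 ≤ sq2 q := by
  unfold sq2; positivity

private theorem T4_sq2_cont : Continuous sq2 := by
  unfold sq2; fun_prop

private theorem T4_Nb_nn (b l : ℝ) (ψ : E3 → ℝ) (q : ℝ × ℝ) : 0 ≤ Nb b l ψ q := Real.sqrt_nonneg _

private theorem T4_Nb_cont (b l : ℝ) {ψ : E3 → ℝ} (h : Continuous ψ) : Continuous (Nb b l ψ) := by
  unfold Nb
  refine Real.continuous_sqrt.comp ?_
  refine intervalIntegral.continuous_parametric_intervalIntegral_of_continuous' (f := fun (q : ℝ × ℝ) (z : ℝ) => ψ (pt q z) ^ 2) ?_ _ _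
  exact (h.comp pt_cont).pow 2

private theorem T4_cs {f : ℝ × ℝ → ℝ} {A : ℝ} (h : ∀ q, A ≤ sq2 q → f q = 0) : HasCompactSupport f := by
  refine HasCompactSupport.intro (K := Metric.closedBall (0 : ℝ × ℝ) (1 + |A|)) (isCompact_closedBall _ _) ?_
  intro q hq
  refine h q ?_
  rw [Metric.mem_closedBall, dist_zero_right, not_le, Prod.norm_def] at hq
  have hA := abs_nonneg A
  have hA2 := le_abs_self A
  have h0 : (1 + |A|) ^ 2 ≤ sq2 q := by
    unfold sq2
    rcases lt_max_iff.1 hq with h1 | h1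
    · rw [Real.norm_eq_abs] at h1
      have h2 : (1 + |A|) ^ 2 ≤ |q.1| ^ 2 := pow_le_pow_left₀ (by linarith) h1.le 2
      rw [sq_abs] at h2
      nlinarith [sq_nonneg q.2]
    · rw [Real.norm_eq_abs] at h1
      have h2 : (1 + |A|) ^ 2 ≤ |q.2| ^ 2 := pow_le_pow_left₀ (by linarith) h1.le 2
      rw [sq_abs] at h2
      nlinarith [sq_nonneg q.1]
  nlinarith

private theorem T4_outs {F : E3 → ℝ} (hF : Cs F) : ∃ A : ℝ, ∀ q : ℝ × ℝ, A ≤ sq2 q → fib F q = 0 ∧ ∀ i, fib (pd i F) q = 0 := by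
  obtain ⟨A, hA⟩ := fib_out hF
  obtain ⟨A0, h0⟩ := fib_out (hF.pd 0)
  obtain ⟨A1, h1⟩ := fib_out (hF.pd 1)
  obtain ⟨A2, h2⟩ := fib_out (hF.pd 2)
  refine ⟨max (max A A0) (max A1 A2), fun q hq => ?_⟩
  have e1 := (le_max_left (max A A0) (max A1 A2)).trans hq
  have e2 := (le_max_right (max A A0) (max A1 A2)).trans hq
  refine ⟨hA q ((le_max_left _ _).trans e1), fun i => ?_⟩
  fin_cases i
  · exact h0 q ((le_max_right _ _).trans e1)
  · exact h1 q ((le_max_left _ _).trans e2)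
  · exact h2 q ((le_max_right _ _).trans e2)

theorem Tr_int {r2 b l : ℝ} (hr : 0 < r2) (hl : 0 < l) {v : E3 → E3} (hv : Vs v) {F : E3 → ℝ} (hF : Cs F) :
    Continuous (Tr r2 b l v F) ∧ HasCompactSupport (Tr r2 b l v F) ∧ ∀ q, 0 ≤ Tr r2 b l v F q := by
  have hW := (vs_ri hv).2.1
  have c1 := T4_Nb_cont b l hW.dh.sm.continuous
  have c2 := T4_Nb_cont b l hW.pd2.dh.sm.continuous
  have c3 := T4_Nb_cont b l hW.pd2.sm.continuous
  have hp : ∀ q : ℝ × ℝ, 0 < sq2 q + r2 := fun q => by have := T4_sq2_nn q; linarith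
  refine ⟨?_, ?_, fun q => ?_⟩
  · unfold Tr
    refine Continuous.div ?_ (T4_sq2_cont.add continuous_const) (fun q => (hp q).ne')
    exact (((T4_sq2_cont.mul c1).mul (fib_cont (hF.pd 2)).norm).add
      ((fib_cont hF).norm.mul ((T4_sq2_cont.mul c2).add c3))).add
      (((Real.continuous_sqrt.comp T4_sq2_cont).mul c3).mul
        ((fib_cont (hF.pd 0)).norm.add (fib_cont (hF.pd 1)).norm))
  · obtain ⟨A, hA⟩ := T4_outs hF
    refine T4_cs (A := A) fun q hq => ?_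
    obtain ⟨h1, h2⟩ := hA q hq
    unfold Tr
    rw [h1, h2 0, h2 1, h2 2]
    simp
  · unfold Tr
    have n1 := T4_Nb_nn b l (dh (sW v)) q
    have n2 := T4_Nb_nn b l (dh (pd 2 (sW v))) q
    have n3 := T4_Nb_nn b l (pd 2 (sW v)) q
    have n4 := T4_sq2_nn q
    have n5 := hp q
    positivity

/-- Multiplication by a bounded function, on the support of `f`. -/
private theorem T4_mul {ψ : ℝ → ℝ} (hc : Continuous ψ) {M : ℝ} (hM : 0 ≤ M) {f : Hz} (hb : ∀ᵐ z : ℝ, |ψ z * f z| ≤ M * |f z|) :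
    ∃ m : Hz, m =ᵐ[volume] (fun z => ψ z * f z) ∧ ‖m‖ ≤ M * ‖f‖ ∧ ∀ g : Hz, ⟪m, g⟫_ℝ = ∫ z, ψ z * (f z * g z) := by
  have hmem : MemLp (fun z => ψ z * f z) 2 volume := by
    refine MemLp.of_le_mul (c := M) (Lp.memLp f) (hc.aestronglyMeasurable.mul (Lp.aestronglyMeasurable f)) ?_
    filter_upwards [hb] with z hz
    rw [Real.norm_eq_abs, Real.norm_eq_abs]
    exact hz
  refine ⟨hmem.toLp _, hmem.coeFn_toLp, ?_, fun g => ?_⟩
  · refine Lp.norm_le_mul_norm_of_ae_le_mul ?_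
    filter_upwards [hb, hmem.coeFn_toLp] with z hz h1
    rw [h1, Real.norm_eq_abs, Real.norm_eq_abs]
    exact hz
  · rw [L2.inner_def]
    refine integral_congr_ae ?_
    filter_upwards [hmem.coeFn_toLp] with z h1
    rw [h1]
    simp
    ring

/-- The integral of a product. -/
private theorem T4_prod {ψ : ℝ → ℝ} (hc : Continuous ψ) {M : ℝ} (hM : 0 ≤ M) {f : Hz} (hb : ∀ᵐ z : ℝ, |ψ z * f z| ≤ M * |f z|) (g : Hz) :
    Integrable (fun z => ψ z * (f z * g z)) ∧ |∫ z, ψ z * (f z * g z)| ≤ M * ‖f‖ * ‖g‖ := by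
  obtain ⟨m, h1, h2, h3⟩ := T4_mul hc hM hb
  constructor
  · have := L2.integrable_inner (𝕜 := ℝ) m g
    refine this.congr ?_
    filter_upwards [h1] with z hz
    rw [hz]
    simp
    ring
  · rw [← h3]
    refine (abs_real_inner_le_norm _ _).trans ?_
    exact mul_le_mul_of_nonneg_right h2 (norm_nonneg _)

private theorem T4_bd {φ : E3 → ℝ} (hφ : Cs φ) : ∃ M : ℝ, 0 ≤ M ∧ ∀ x, |φ x| ≤ M := by
  obtain ⟨M, hM⟩ := hφ.cont.bounded_above_of_compact_support hφ.cs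
  refine ⟨max M 0, le_max_right _ _, fun x => ?_⟩
  have := hM x
  rw [Real.norm_eq_abs] at this
  exact this.trans (le_max_left _ _)

private theorem T4_bil_cont {φ : E3 → ℝ} (hφ : Cs φ) {v w : ℝ × ℝ → Hz} (hv : Continuous v) (hw : Continuous w) :
    Continuous (fun q => ∫ z, φ (pt q z) * (v q z * w q z)) := by
  obtain ⟨M, hM, hb⟩ := T4_bd hφ
  obtain ⟨L, hL, hl⟩ := hφ.lip
  have hcq : ∀ q, Continuous (fun z => φ (pt q z)) := fun q => hφ.cont.comp (pt_cont' continuous_const continuous_id)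
  have hbq : ∀ (q : ℝ × ℝ) (f : Hz), ∀ᵐ z : ℝ, |φ (pt q z) * f z| ≤ M * |f z| := fun q f => by
    refine ae_of_all _ fun z => ?_
    rw [abs_mul]
    exact mul_le_mul_of_nonneg_right (hb _) (abs_nonneg _)
  choose m h1 h2 h3 using fun q => T4_mul (hcq q) hM (hbq q (v q))
  have he : (fun q => ∫ z, φ (pt q z) * (v q z * w q z)) = fun q => ⟪m q, w q⟫_ℝ := by
    funext q
    exact (h3 q (w q)).symm
  rw [he]
  refine Continuous.inner ?_ hw
  rw [continuous_iff_continuousAt]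
  intro q0
  rw [ContinuousAt, tendsto_iff_norm_sub_tendsto_zero]
  have hkey : ∀ q, ‖m q - m q0‖ ≤ L * ‖pt q 0 - pt q0 0‖ * ‖v q0‖ + M * ‖v q - v q0‖ := by
    intro q
    obtain ⟨m1, a1, a2, -⟩ := T4_mul (ψ := fun z => φ (pt q z)) (hcq q) hM (hbq q (v q - v q0))
    obtain ⟨m2, b1, b2, -⟩ := T4_mul (ψ := fun z => φ (pt q z) - φ (pt q0 z)) ((hcq q).sub (hcq q0))
      (M := L * ‖pt q 0 - pt q0 0‖) (f := v q0) (mul_nonneg hL (norm_nonneg _)) (by
        refine ae_of_all _ fun z => ?_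
        rw [abs_mul]
        refine mul_le_mul_of_nonneg_right ?_ (abs_nonneg _)
        refine (hl _ _).trans ?_
        rw [pt_sub_norm, pt_sub_norm])
    have e : m q - m q0 = m1 + m2 := by
      refine Lp.ext ?_
      filter_upwards [h1 q, h1 q0, a1, b1, Lp.coeFn_sub (m q) (m q0), Lp.coeFn_add m1 m2, Lp.coeFn_sub (v q) (v q0)] with z k1 k2 k3 k4 k5 k6 k7
      rw [k5, k6, Pi.sub_apply, Pi.add_apply, k1, k2, k3, k4, k7, Pi.sub_apply]
      ring
    rw [e]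
    refine (norm_add_le _ _).trans ?_
    linarith
  have hlim : Tendsto (fun q => L * ‖pt q 0 - pt q0 0‖ * ‖v q0‖ + M * ‖v q - v q0‖) (𝓝 q0) (𝓝 0) := by
    have hc : Continuous (fun q => L * ‖pt q 0 - pt q0 0‖ * ‖v q0‖ + M * ‖v q - v q0‖) := by
      have h5 : Continuous (fun q : ℝ × ℝ => pt q 0) := pt_cont' continuous_id continuous_const
      exact (((continuous_const.mul (h5.sub continuous_const).norm).mul continuous_const).add
        (continuous_const.mul (hv.sub continuous_const).norm))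
    have := hc.tendsto q0
    simpa using this
  exact squeeze_zero (fun q => norm_nonneg _) hkey hlim

private theorem T4_bil {φ : E3 → ℝ} (hφ : Cs φ) {v w : ℝ × ℝ → Hz} (hv : Continuous v) (hw : Continuous w)
    {A : ℝ} (hA : ∀ q, A ≤ sq2 q → v q = 0) :
    Integrable (fun q => ∫ z, φ (pt q z) * (v q z * w q z)) := by
  refine (T4_bil_cont hφ hv hw).integrable_of_hasCompactSupport (T4_cs (A := A) fun q hq => ?_)
  rw [hA q hq]
  have : (fun z => φ (pt q z) * ((0 : Hz) z * w q z)) =ᵐ[volume] fun _ => (0 : ℝ) := by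
    filter_upwards [Lp.coeFn_zero ℝ 2 (volume : Measure ℝ)] with z hz
    rw [hz]
    simp
  rw [integral_congr_ae this]
  simp

private theorem T4_cut (b l : ℝ) : ∃ η : E3 → ℝ, Cs η ∧ ∀ x : E3, rsq x ≤ 1 / 4 → |x 2 - b| ≤ l → η =ᶠ[𝓝 x] fun _ => 1 := by
  have hR : 0 < 1 + |b| + |l| := by positivity
  let f : ContDiffBump (0 : E3) := ⟨1 + |b| + |l|, 2 + |b| + |l|, hR, by linarith⟩
  refine ⟨f, ⟨f.contDiff, f.hasCompactSupport⟩, fun x h1 h2 => ?_⟩
  refine f.eventuallyEq_one_of_mem_ball ?_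
  rw [Metric.mem_ball, dist_zero_right]
  show ‖x‖ < 1 + |b| + |l|
  have h3 : ‖x‖ ^ 2 = rsq x + x 2 ^ 2 := by
    conv_lhs => rw [← pt_eta x]
    rw [pt_norm]
    rfl
  have h4 : |x 2| ≤ |b| + |l| := by
    have e : x 2 = (x 2 - b) + b := by ring
    rw [e]
    refine (abs_add_le _ _).trans ?_
    have := le_abs_self l
    linarith
  have h5 : x 2 ^ 2 ≤ (|b| + |l|) ^ 2 := by
    rw [← sq_abs (x 2)]
    exact pow_le_pow_left₀ (abs_nonneg _) h4 2
  have h6 : ‖x‖ ^ 2 < (1 + |b| + |l|) ^ 2 := by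
    rw [h3]
    linarith only [abs_nonneg b, abs_nonneg l, hR, h1, h5]
  exact lt_of_pow_lt_pow_left₀ 2 hR.le h6

private theorem T4_ev {f g : E3 → ℝ} {x : E3} (h : f =ᶠ[𝓝 x] g) (i : Fin 3) : pd i f =ᶠ[𝓝 x] pd i g := by
  have h1 : fderiv ℝ f =ᶠ[𝓝 x] fderiv ℝ g := h.fderiv
  filter_upwards [h1] with y hy
  unfold pd
  rw [hy]

/-- The derivatives of `x_i W`. -/
private theorem T4_xW {W : E3 → ℝ} (h : Ri W) {i : Fin 3} (hi : i = 0 ∨ i = 1) :
    (∀ x, pd i (fun y => y i * W y) x = W x + x i ^ 2 * dh W x) ∧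
    (pd 2 (fun y => y i * W y) = fun x => x i * pd 2 W x) := by
  have hc : ContDiff ℝ ∞ (fun y : E3 => y i) := VRep_coord contDiff_id i
  constructor
  · intro x
    rw [A_pd_mul hc h.sm i]
    show pd i (fun y : E3 => y i) x * W x + x i * pd i W x = _
    rw [LevX_pd_coord, if_pos rfl]
    obtain ⟨h0, h1⟩ := A_pdi h.sm h.rot x
    rcases hi with rfl | rfl
    · rw [h0]; ring
    · rw [h1]; ring
  · rw [A_pd_mul hc h.sm 2]
    funext x
    show pd 2 (fun y : E3 => y i) x * W x + x i * pd 2 W x = _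
    rw [LevX_pd_coord, if_neg (by rcases hi with rfl | rfl <;> decide)]
    ring

/-- The data of the cut fields. -/
private theorem T4_flds {b l : ℝ} {v : E3 → E3} (hv : Vs v) {F : E3 → ℝ} (hF : Cs F)
    (ha : ∀ θ x, F (rot θ x) = F x) (hb : ∀ x, F x ≠ 0 → rsq x ≤ 1 / 4 ∧ |x 2 - b| ≤ l) :
    ∃ a : Fin 3 → E3 → ℝ, (∀ i, Cs (a i)) ∧
      (∀ x, adv (v x) F x = a 0 x * pd 0 F x + a 1 x * pd 1 F x + a 2 x * pd 2 F x) ∧
      (∀ x, rsq x ≤ 1 / 4 → |x 2 - b| ≤ l → pd 0 (a 0) x + pd 1 (a 1) x + pd 2 (a 2) x = 0 ∧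
        (∀ i : Fin 3, i = 0 ∨ i = 1 → a i x = x i * sW v x ∧ pd i (a i) x = sW v x + x i ^ 2 * dh (sW v) x ∧
          pd 2 (a i) x = x i * pd 2 (sW v) x ∧ pd i (pd 2 (a i)) x = pd 2 (sW v) x + x i ^ 2 * dh (pd 2 (sW v)) x)) := by
  obtain ⟨η, hη, h1⟩ := T4_cut b l
  obtain ⟨-, hW, -, -, h2⟩ := vs_ri hv
  have hc : ∀ i, ContDiff ℝ ∞ (fun y : E3 => y i) := fun i => VRep_coord contDiff_id i
  have hcs : ∀ i, Cs (fun x => (x i * sW v x) * η x) := fun i => Cs.mul_left ((hc i).mul hW.sm) hη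
  have hcs2 : Cs (fun x => v x 2 * η x) := Cs.mul_left h2.sm hη
  refine ⟨![fun x => (x 0 * sW v x) * η x, fun x => (x 1 * sW v x) * η x, fun x => v x 2 * η x], ?_, ?_, ?_⟩
  · intro i
    fin_cases i
    · exact hcs 0
    · exact hcs 1
    · exact hcs2
  · intro x
    show adv (v x) F x = ((x 0 * sW v x) * η x) * pd 0 F x + ((x 1 * sW v x) * η x) * pd 1 F x + (v x 2 * η x) * pd 2 F x
    have ea : adv (v x) F x = v x 0 * pd 0 F x + v x 1 * pd 1 F x + v x 2 * pd 2 F x := by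
      unfold adv
      rw [Fin.sum_univ_three]
    obtain ⟨k0, k1⟩ := A_pdi hF.sm ha x
    have hfl := flux_eq hv.ax x
    unfold radFlux rsq at hfl
    have e1 : v x 0 * pd 0 F x + v x 1 * pd 1 F x = (x 0 * sW v x) * pd 0 F x + (x 1 * sW v x) * pd 1 F x := by
      rw [k0, k1]
      linear_combination (dh F x) * hfl
    by_cases hx : rsq x ≤ 1 / 4 ∧ |x 2 - b| ≤ l
    · have e2 : η x = 1 := (h1 x hx.1 hx.2).self_of_nhds
      rw [ea, e2, e1]
      ring
    · -- outside of the box all derivatives vanish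
      have hz : ∀ i, pd i F x = 0 := by
        intro i
        have hcl : IsClosed {y : E3 | rsq y ≤ 1 / 4 ∧ |y 2 - b| ≤ l} := by
          exact (isClosed_le A_rsq_cont continuous_const).inter
            (isClosed_le (f := fun y : E3 => |y 2 - b|) (g := fun _ => l) ((hc 2).continuous.sub continuous_const).abs continuous_const)
        have hev : F =ᶠ[𝓝 x] fun _ => 0 := by
          filter_upwards [hcl.isOpen_compl.mem_nhds (show x ∈ {y : E3 | rsq y ≤ 1 / 4 ∧ |y 2 - b| ≤ l}ᶜ from hx)] with y hy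
          by_contra hne
          exact hy (hb y hne)
        have := (T4_ev hev i).self_of_nhds
        rw [this]
        unfold pd
        simp
      rw [ea, hz 0, hz 1, hz 2]
      ring
  · intro x hx1 hx2
    have hη1 := h1 x hx1 hx2
    have hev : ∀ g : E3 → ℝ, (fun y => g y * η y) =ᶠ[𝓝 x] g := by
      intro g
      filter_upwards [hη1] with y hy
      rw [hy, mul_one]
    have e0 := hev (fun y => y 0 * sW v y)
    have e1 := hev (fun y => y 1 * sW v y)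
    have e2 := hev (fun y => v y 2)
    have d0 := (T4_ev e0 0).self_of_nhds
    have d1 := (T4_ev e1 1).self_of_nhds
    have d2 := (T4_ev e2 2).self_of_nhds
    obtain ⟨w0, w0'⟩ := T4_xW hW (i := 0) (Or.inl rfl)
    obtain ⟨w1, w1'⟩ := T4_xW hW (i := 1) (Or.inr rfl)
    obtain ⟨u0, -⟩ := T4_xW hW.pd2 (i := 0) (Or.inl rfl)
    obtain ⟨u1, -⟩ := T4_xW hW.pd2 (i := 1) (Or.inr rfl)
    refine ⟨?_, ?_⟩
    · show pd 0 (fun x => (x 0 * sW v x) * η x) x + pd 1 (fun x => (x 1 * sW v x) * η x) x + pd 2 (fun x => v x 2 * η x) x = 0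
      rw [d0, d1, d2, w0, w1, v2_pd2 hv]
      unfold rsq
      ring
    · intro i hi
      rcases hi with rfl | rfl
      · refine ⟨?_, ?_, ?_, ?_⟩
        · show (x 0 * sW v x) * η x = _
          rw [hη1.self_of_nhds, mul_one]
        · show pd 0 (fun x => (x 0 * sW v x) * η x) x = _
          rw [d0, w0]
        · show pd 2 (fun x => (x 0 * sW v x) * η x) x = _
          rw [(T4_ev e0 2).self_of_nhds, w0']
        · show pd 0 (pd 2 (fun x => (x 0 * sW v x) * η x)) x = _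
          rw [(T4_ev (T4_ev e0 2) 0).self_of_nhds, w0', u0]
      · refine ⟨?_, ?_, ?_, ?_⟩
        · show (x 1 * sW v x) * η x = _
          rw [hη1.self_of_nhds, mul_one]
        · show pd 1 (fun x => (x 1 * sW v x) * η x) x = _
          rw [d1, w1]
        · show pd 2 (fun x => (x 1 * sW v x) * η x) x = _
          rw [(T4_ev e1 2).self_of_nhds, w1']
        · show pd 1 (pd 2 (fun x => (x 1 * sW v x) * η x)) x = _
          rw [(T4_ev (T4_ev e1 2) 1).self_of_nhds, w1', u1]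

private theorem T4_Nb_one {b l : ℝ} (hl : 0 < l) {ψ f : E3 → ℝ} {α : ℝ} {q : ℝ × ℝ}
    (h : ∀ z ∈ Icc (b - l) (b + l), ψ (pt q z) = α * f (pt q z)) : Nb b l ψ q = |α| * Nb b l f q := by
  unfold Nb
  have h1 : ∫ z in (b - l)..(b + l), ψ (pt q z) ^ 2 = α ^ 2 * ∫ z in (b - l)..(b + l), f (pt q z) ^ 2 := by
    rw [← intervalIntegral.integral_const_mul]
    refine intervalIntegral.integral_congr fun z hz => ?_
    rw [uIcc_of_le (by linarith)] at hz
    show ψ (pt q z) ^ 2 = α ^ 2 * f (pt q z) ^ 2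
    rw [h z hz]
    ring
  rw [h1, Real.sqrt_mul (sq_nonneg α), Real.sqrt_sq_eq_abs]

private theorem T4_Nb_sq {b l : ℝ} (hl : 0 < l) (f : E3 → ℝ) (q : ℝ × ℝ) :
    Nb b l f q ^ 2 = ∫ z in (b - l)..(b + l), f (pt q z) ^ 2 := by
  unfold Nb
  exact Real.sq_sqrt (intervalIntegral.integral_nonneg (by linarith) fun z _ => sq_nonneg _)

private theorem T4_Nb_two {b l : ℝ} (hl : 0 < l) {ψ f g : E3 → ℝ} (hf : Continuous f) (hg : Continuous g) {α β : ℝ} {q : ℝ × ℝ}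
    (h : ∀ z ∈ Icc (b - l) (b + l), ψ (pt q z) = α * f (pt q z) + β * g (pt q z)) :
    Nb b l ψ q ≤ 2 * (|α| * Nb b l f q + |β| * Nb b l g q) := by
  have hcf : Continuous (fun z => f (pt q z)) := hf.comp (pt_cont' continuous_const continuous_id)
  have hcg : Continuous (fun z => g (pt q z)) := hg.comp (pt_cont' continuous_const continuous_id)
  have h1 : ∫ z in (b - l)..(b + l), ψ (pt q z) ^ 2 ≤ 2 * α ^ 2 * (Nb b l f q ^ 2) + 2 * β ^ 2 * (Nb b l g q ^ 2) := by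
    have i1 : IntervalIntegrable (fun z => 2 * α ^ 2 * f (pt q z) ^ 2) volume (b - l) (b + l) :=
      (continuous_const.mul (hcf.pow 2)).intervalIntegrable _ _
    have i2 : IntervalIntegrable (fun z => 2 * β ^ 2 * g (pt q z) ^ 2) volume (b - l) (b + l) :=
      (continuous_const.mul (hcg.pow 2)).intervalIntegrable _ _
    rw [T4_Nb_sq hl, T4_Nb_sq hl, ← intervalIntegral.integral_const_mul, ← intervalIntegral.integral_const_mul,
      ← intervalIntegral.integral_add i1 i2]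
    have e : ∫ z in (b - l)..(b + l), ψ (pt q z) ^ 2 = ∫ z in (b - l)..(b + l), (α * f (pt q z) + β * g (pt q z)) ^ 2 := by
      refine intervalIntegral.integral_congr fun z hz => ?_
      rw [uIcc_of_le (by linarith)] at hz
      show ψ (pt q z) ^ 2 = (α * f (pt q z) + β * g (pt q z)) ^ 2
      rw [h z hz]
    rw [e]
    refine intervalIntegral.integral_mono_on (by linarith) ((((continuous_const.mul hcf).add (continuous_const.mul hcg)).pow 2).intervalIntegrable _ _)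
      (i1.add i2) fun z _ => ?_
    nlinarith [sq_nonneg (α * f (pt q z) - β * g (pt q z))]
  have nf := T4_Nb_nn b l f q
  have ng := T4_Nb_nn b l g q
  have na := abs_nonneg α
  have nb := abs_nonneg β
  refine Real.sqrt_le_iff.2 ⟨by positivity, h1.trans ?_⟩
  have p1 : α ^ 2 = |α| ^ 2 := (sq_abs α).symm
  have p2 : β ^ 2 = |β| ^ 2 := (sq_abs β).symm
  rw [p1, p2]
  have p3 : 0 ≤ |α| * Nb b l f q := mul_nonneg na nf
  have p4 : 0 ≤ |β| * Nb b l g q := mul_nonneg nb ng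
  linarith only [mul_nonneg p3 p4, sq_nonneg (|α| * Nb b l f q), sq_nonneg (|β| * Nb b l g q), p3, p4]

private theorem T4_far {b l : ℝ} {F : E3 → ℝ} (hF : Cs F) (hb : ∀ x, F x ≠ 0 → rsq x ≤ 1 / 4 ∧ |x 2 - b| ≤ l)
    {q : ℝ × ℝ} (h : 1 / 4 < sq2 q) : fib F q = 0 ∧ ∀ i, fib (pd i F) q = 0 := by
  have hz : ∀ z, F =ᶠ[𝓝 (pt q z)] fun _ => 0 := by
    intro z
    have ho : IsOpen {y : E3 | 1 / 4 < rsq y} := isOpen_lt continuous_const A_rsq_cont
    filter_upwards [ho.mem_nhds (show pt q z ∈ {y : E3 | 1 / 4 < rsq y} from h)] with y hy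
    by_contra hne
    have := (hb y hne).1
    exact absurd hy (not_lt.2 this)
  constructor
  · rw [← norm_eq_zero, ← sq_eq_zero_iff, fib_norm hF]
    simp only [fun z => (hz z).self_of_nhds]
    simp
  · intro i
    rw [← norm_eq_zero, ← sq_eq_zero_iff, fib_norm (hF.pd i)]
    have : ∀ z, pd i F (pt q z) = 0 := by
      intro z
      rw [(T4_ev (hz z) i).self_of_nhds]
      unfold pd
      simp
    simp only [this]
    simp

private theorem T4_Eh {N r2 b l : ℝ} (hN : 0 < N) (hr : 0 < r2) (hl : 0 < l) {v : E3 → E3} (hv : Vs v) {F : E3 → ℝ} (hF : Cs F)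
    (hb : ∀ x, F x ≠ 0 → rsq x ≤ 1 / 4 ∧ |x 2 - b| ≤ l) {i : Fin 3} (hi : i = 0 ∨ i = 1) {a : E3 → ℝ}
    (h : ∀ x, rsq x ≤ 1 / 4 → |x 2 - b| ≤ l → pd 2 a x = x i * pd 2 (sW v) x ∧
      pd i (pd 2 a) x = pd 2 (sW v) x + x i ^ 2 * dh (pd 2 (sW v)) x) (q : ℝ × ℝ) :
    0 ≤ Eh i N r2 b l F a q ∧ Eh i N r2 b l F a q ≤ 4 * N * Tr r2 b l v F q := by
  have hW := (vs_ri hv).2.1
  have hD : 0 < sq2 q + r2 := by have := T4_sq2_nn q; linarith
  have hs := T4_sq2_nn q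
  obtain ⟨y, hy⟩ : ∃ y, y = pt q 0 i := ⟨_, rfl⟩
  have hyz : ∀ z, pt q z i = y := by
    intro z
    rw [hy]
    rcases hi with rfl | rfl <;> rfl
  have hys : y ^ 2 ≤ sq2 q := by
    rw [hy]
    unfold sq2
    rcases hi with rfl | rfl
    · rw [pt_0]; nlinarith [sq_nonneg q.2]
    · rw [pt_1]; nlinarith [sq_nonneg q.1]
  have hya : |y| ≤ √(sq2 q) := Real.abs_le_sqrt hys
  have n1 := T4_Nb_nn b l (fun x => pd i (pd 2 a) x - 2 * x i / (rsq x + r2) * pd 2 a x) q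
  have n2 := T4_Nb_nn b l (pd 2 a) q
  have n3 := T4_Nb_nn b l (dh (sW v)) q
  have n4 := T4_Nb_nn b l (dh (pd 2 (sW v))) q
  have n5 := T4_Nb_nn b l (pd 2 (sW v)) q
  have m1 := norm_nonneg (gq N r2 F q)
  have m2 := norm_nonneg (fib (pd i F) q)
  have m3 := norm_nonneg (fib F q)
  have m4 := norm_nonneg (fib (pd 0 F) q)
  have m5 := norm_nonneg (fib (pd 1 F) q)
  have m6 := norm_nonneg (fib (pd 2 F) q)
  have mi : ‖fib (pd i F) q‖ ≤ ‖fib (pd 0 F) q‖ + ‖fib (pd 1 F) q‖ := by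
    rcases hi with rfl | rfl <;> linarith
  have hcq : cq N r2 q = N / (sq2 q + r2) := rfl
  have hc0 : 0 ≤ cq N r2 q := (cq_pos hN hr q).le
  have hnn : 0 ≤ Eh i N r2 b l F a q := by
    unfold Eh
    rw [← hy]
    positivity
  refine ⟨hnn, ?_⟩
  rcases le_or_gt (sq2 q) (1 / 4) with hq | hq
  · have hbox : ∀ z ∈ Icc (b - l) (b + l), rsq (pt q z) ≤ 1 / 4 ∧ |(pt q z) 2 - b| ≤ l := by
      intro z hz
      refine ⟨hq, ?_⟩
      rw [pt_2, abs_le]
      constructor <;> linarith [hz.1, hz.2]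
    have k1 : Nb b l (pd 2 a) q = |y| * Nb b l (pd 2 (sW v)) q := by
      refine T4_Nb_one hl fun z hz => ?_
      obtain ⟨b1, b2⟩ := hbox z hz
      rw [(h _ b1 b2).1, hyz z]
    have k2 : Nb b l (fun x => pd i (pd 2 a) x - 2 * x i / (rsq x + r2) * pd 2 a x) q ≤
        2 * (|1 - 2 * (y ^ 2 / (sq2 q + r2))| * Nb b l (pd 2 (sW v)) q + |y ^ 2| * Nb b l (dh (pd 2 (sW v))) q) := by
      refine T4_Nb_two hl hW.pd2.sm.continuous hW.pd2.dh.sm.continuous fun z hz => ?_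
      obtain ⟨b1, b2⟩ := hbox z hz
      show pd i (pd 2 a) (pt q z) - 2 * (pt q z) i / (rsq (pt q z) + r2) * pd 2 a (pt q z) = _
      rw [(h _ b1 b2).1, (h _ b1 b2).2, hyz z]
      show _ - 2 * y / (sq2 q + r2) * _ = _
      field_simp
      ring
    have k3 : |1 - 2 * (y ^ 2 / (sq2 q + r2))| ≤ 1 := by
      have t1 : 0 ≤ y ^ 2 / (sq2 q + r2) := by positivity
      have t2 : y ^ 2 / (sq2 q + r2) ≤ 1 := by
        rw [div_le_one hD]
        linarith
      rw [abs_le]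
      constructor <;> linarith
    have k4 : |y ^ 2| ≤ sq2 q := by
      rw [abs_of_nonneg (sq_nonneg y)]
      exact hys
    have k5 : Nb b l (fun x => pd i (pd 2 a) x - 2 * x i / (rsq x + r2) * pd 2 a x) q ≤
        2 * (Nb b l (pd 2 (sW v)) q + sq2 q * Nb b l (dh (pd 2 (sW v))) q) := by
      refine k2.trans ?_
      have := mul_le_mul_of_nonneg_right k3 n5
      have := mul_le_mul_of_nonneg_right k4 n4
      linarith
    have hg : ‖gq N r2 F q‖ ≤ ‖fib F q‖ := (vq_le hN hr F q).2.1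
    -- the second term
    have k6 : 2 * |y| / (sq2 q + r2) * ‖fib F q‖ * |y| ≤ 2 * ‖fib F q‖ := by
      have t2 : |y| * |y| / (sq2 q + r2) ≤ 1 := by
        rw [div_le_one hD, abs_mul_abs_self]
        linarith only [hr, hys]
      have e : 2 * |y| / (sq2 q + r2) * ‖fib F q‖ * |y| = 2 * ‖fib F q‖ * (|y| * |y| / (sq2 q + r2)) := by ring
      rw [e]
      have := mul_le_mul_of_nonneg_left t2 (show 0 ≤ 2 * ‖fib F q‖ by positivity)
      linarith
    have k7 : ‖gq N r2 F q‖ * Nb b l (fun x => pd i (pd 2 a) x - 2 * x i / (rsq x + r2) * pd 2 a x) q +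
        Nb b l (pd 2 a) q * (‖fib (pd i F) q‖ + 2 * |pt q 0 i| / (sq2 q + r2) * ‖fib F q‖) ≤
        4 * (sq2 q * Nb b l (dh (sW v)) q * ‖fib (pd 2 F) q‖ +
        ‖fib F q‖ * (sq2 q * Nb b l (dh (pd 2 (sW v))) q + Nb b l (pd 2 (sW v)) q) +
        √(sq2 q) * Nb b l (pd 2 (sW v)) q * (‖fib (pd 0 F) q‖ + ‖fib (pd 1 F) q‖)) := by
      rw [k1, ← hy]
      have s1 := mul_le_mul hg k5 n1 m3
      have s2 : |y| * Nb b l (pd 2 (sW v)) q * ‖fib (pd i F) q‖ ≤
          √(sq2 q) * Nb b l (pd 2 (sW v)) q * (‖fib (pd 0 F) q‖ + ‖fib (pd 1 F) q‖) := by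
        have s3 : |y| * Nb b l (pd 2 (sW v)) q ≤ √(sq2 q) * Nb b l (pd 2 (sW v)) q := mul_le_mul_of_nonneg_right hya n5
        exact mul_le_mul s3 mi m2 (by positivity)
      have s4 : |y| * Nb b l (pd 2 (sW v)) q * (2 * |y| / (sq2 q + r2) * ‖fib F q‖) ≤
          2 * ‖fib F q‖ * Nb b l (pd 2 (sW v)) q := by
        have := mul_le_mul_of_nonneg_right k6 n5
        calc |y| * Nb b l (pd 2 (sW v)) q * (2 * |y| / (sq2 q + r2) * ‖fib F q‖)
            = 2 * |y| / (sq2 q + r2) * ‖fib F q‖ * |y| * Nb b l (pd 2 (sW v)) q := by ring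
          _ ≤ _ := this
      have s5 : 0 ≤ sq2 q * Nb b l (dh (sW v)) q * ‖fib (pd 2 F) q‖ := by positivity
      have s6 : 0 ≤ √(sq2 q) * Nb b l (pd 2 (sW v)) q * (‖fib (pd 0 F) q‖ + ‖fib (pd 1 F) q‖) := by positivity
      have s7 : 0 ≤ ‖fib F q‖ * (sq2 q * Nb b l (dh (pd 2 (sW v))) q) := by positivity
      have s8 : 0 ≤ ‖fib F q‖ * Nb b l (pd 2 (sW v)) q := by positivity
      linarith only [s1, s2, s4, s5, s6, s7, s8, s1, s2, s4, s5, s6, s7]
    unfold Eh Tr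
    rw [hcq]
    have := mul_le_mul_of_nonneg_left k7 (show 0 ≤ N / (sq2 q + r2) by positivity)
    refine this.trans (le_of_eq ?_)
    field_simp
  · obtain ⟨f1, f2⟩ := T4_far hF hb hq
    have f3 := (vq_out hN hr f1).2.1
    have e0 : Eh i N r2 b l F a q = 0 := by
      unfold Eh
      rw [f1, f2 i, f3]
      simp
    rw [e0]
    unfold Tr
    positivity

private theorem T4_dz {G : E3 → ℝ} (hG : ContDiff ℝ ∞ G) (q : ℝ × ℝ) (z : ℝ) :
    HasDerivAt (fun z => G (pt q z)) (pd 2 G (pt q z)) z := by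
  have h1 : ∀ t, pt q t = pt q 0 + t • e 2 := by
    intro t
    ext i
    fin_cases i <;> simp [pt, e]
  have h2 : HasDerivAt (fun t : ℝ => pt q 0 + t • e 2) (e 2) z := by
    have := ((hasDerivAt_id z).smul_const (e 2)).const_add (pt q 0)
    simpa using this
  have h3 := ((hG.differentiable (by simp)) (pt q 0 + z • e 2)).hasFDerivAt.comp_hasDerivAt z h2
  have h4 : (fun z => G (pt q z)) = G ∘ fun t : ℝ => pt q 0 + t • e 2 := by
    funext t
    show G (pt q t) = G (pt q 0 + t • e 2)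
    rw [h1 t]
  rw [h4]
  unfold pd
  rw [h1 z]
  exact h3

private theorem T4_cd1 {G : E3 → ℝ} (hG : ContDiff ℝ ∞ G) (q : ℝ × ℝ) : ContDiff ℝ 1 (fun z => G (pt q z)) := by
  have h1 : (fun z => pt q z) = fun t : ℝ => pt q 0 + t • e 2 := by
    funext t
    ext i
    fin_cases i <;> simp [pt, e]
  have h2 : ContDiff ℝ 1 (fun z => pt q z) := by
    rw [h1]
    exact contDiff_const.add (contDiff_id.smul contDiff_const)
  exact (hG.of_le (by simp)).comp h2

private theorem T4_vg {N r2 b l : ℝ} (hN : 0 < N) (hr : 0 < r2) (hl : 0 < l) {F : E3 → ℝ} (hF : Cs F)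
    (hb : ∀ x, F x ≠ 0 → rsq x ≤ 1 / 4 ∧ |x 2 - b| ≤ l) {G : E3 → ℝ} (hG : ContDiff ℝ ∞ G) (q : ℝ × ℝ) :
    |∫ z, G (pt q z) * (vq N r2 F q z * gq N r2 F q z)| ≤ N / (sq2 q + r2) * (Nb b l G q * ‖fib (pd 2 F) q‖ +
      ‖fib F q‖ * Nb b l (pd 2 G) q) := by
  have h := vg_le (c := cq N r2 q) (a := b - l) (b := b + l) (cq_pos hN hr q).le (by linarith) (f := fun z => F (pt q z))
    (T4_cd1 hF.sm q) (by
      intro z hz
      by_contra hne
      have := (hb _ hne).2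
      rw [pt_2, abs_le] at this
      exact hz ⟨by linarith [this.1], by linarith [this.2]⟩) (fib_coe hF q) (ψ := fun z => G (pt q z)) (T4_cd1 hG q)
  have e1 : ∫ z, G (pt q z) * (vq N r2 F q z * gq N r2 F q z) = ∫ z, Pc (cq N r2 q) (fib F q) z * gc (cq N r2 q) (fib F q) z * G (pt q z) := by
    refine integral_congr_ae (ae_of_all _ fun z => ?_)
    show G (pt q z) * (Pc (cq N r2 q) (fib F q) z * gc (cq N r2 q) (fib F q) z) = _
    ring
  have d1 : deriv (fun z => F (pt q z)) = fun z => pd 2 F (pt q z) := by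
    funext z
    exact (T4_dz hF.sm q z).deriv
  have d2 : deriv (fun z => G (pt q z)) = fun z => pd 2 G (pt q z) := by
    funext z
    exact (T4_dz hG q z).deriv
  rw [e1]
  refine h.trans ?_
  rw [d1, d2]
  have e2 : √(∫ z, pd 2 F (pt q z) ^ 2) = ‖fib (pd 2 F) q‖ := by
    rw [← fib_norm (hF.pd 2), Real.sqrt_sq (norm_nonneg _)]
  rw [e2]
  have hg : ‖gc (cq N r2 q) (fib F q)‖ ≤ ‖fib F q‖ := (vq_le hN hr F q).2.1
  show cq N r2 q * (Nb b l G q * ‖fib (pd 2 F) q‖ + ‖gc (cq N r2 q) (fib F q)‖ * Nb b l (pd 2 G) q) ≤ _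
  have hc : N / (sq2 q + r2) = cq N r2 q := rfl
  rw [hc]
  refine mul_le_mul_of_nonneg_left ?_ (cq_pos hN hr q).le
  have := mul_le_mul_of_nonneg_right hg (T4_Nb_nn b l (pd 2 G) q)
  linarith

private theorem T4_Bpt {N r2 b l M : ℝ} (hN : 0 < N) (hr : 0 < r2) (hl : 0 < l) {v : E3 → E3} (hv : Vs v) {F : E3 → ℝ} (hF : Cs F)
    (hb : ∀ x, F x ≠ 0 → rsq x ≤ 1 / 4 ∧ |x 2 - b| ≤ l)
    (hM : ∀ x, rsq x ≤ 1 / 4 → |x 2 - b| ≤ l → |sW v x| ≤ M) {a : Fin 3 → E3 → ℝ} (ha : ∀ i, Cs (a i))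
    (h : ∀ x, rsq x ≤ 1 / 4 → |x 2 - b| ≤ l → ∀ i : Fin 3, i = 0 ∨ i = 1 → a i x = x i * sW v x ∧
      pd i (a i) x = sW v x + x i ^ 2 * dh (sW v) x) (q : ℝ × ℝ) :
    - ((∫ z, (pd 0 (a 0) (pt q z) - 2 * pt q z 0 / (sq2 q + r2) * a 0 (pt q z)) * (vq N r2 F q z * gq N r2 F q z)) +
      (∫ z, (pd 1 (a 1) (pt q z) - 2 * pt q z 1 / (sq2 q + r2) * a 1 (pt q z)) * (vq N r2 F q z * gq N r2 F q z))) ≤
      N * Tr r2 b l v F q + M * (r2 / (sq2 q + r2) * ‖fib F q‖ ^ 2) := by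
  have hW := (vs_ri hv).2.1
  have hD : 0 < sq2 q + r2 := by have := T4_sq2_nn q; linarith
  have hs := T4_sq2_nn q
  have n3 := T4_Nb_nn b l (dh (sW v)) q
  have n4 := T4_Nb_nn b l (dh (pd 2 (sW v))) q
  have n5 := T4_Nb_nn b l (pd 2 (sW v)) q
  have hM0 : 0 ≤ M := by
    refine (abs_nonneg _).trans (hM (pt 0 b) ?_ ?_)
    · show (0 : ℝ) ^ 2 + (0 : ℝ) ^ 2 ≤ 1 / 4
      norm_num
    · rw [pt_2]
      simpa using hl.le
  have hTr : 0 ≤ Tr r2 b l v F q := by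
    unfold Tr
    positivity
  have hR : 0 ≤ N * Tr r2 b l v F q + M * (r2 / (sq2 q + r2) * ‖fib F q‖ ^ 2) := by positivity
  rcases le_or_gt (sq2 q) (1 / 4) with hq | hq
  · have hvS := (vq_Sz (a := b - l) (b := b + l) hN hr (by linarith) hF (fun x hx => by
      have := (hb x hx).2
      rw [abs_le] at this
      exact ⟨by linarith [this.1], by linarith [this.2]⟩) q).2.1
    have hvS' : ∀ᵐ z : ℝ, z ∉ Icc (b - l) (b + l) → vq N r2 F q z = 0 := hvS
    have hcc : ∀ {φ : E3 → ℝ}, Continuous φ → Continuous (fun z => φ (pt q z)) := fun hφ =>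
      hφ.comp (pt_cont' continuous_const continuous_id)
    -- bounded multipliers
    have hi : ∀ i : Fin 3, Integrable (fun z => (pd i (a i) (pt q z) - 2 * pt q z i / (sq2 q + r2) * a i (pt q z)) * (vq N r2 F q z * gq N r2 F q z)) := by
      intro i
      have hC : Cs (fun x => pd i (a i) x - 2 / (sq2 q + r2) * (x i * a i x)) := by
        refine ((ha i).pd i).sub (Cs.smul _ (Cs.mul_left ?_ (ha i)))
        exact VRep_coord contDiff_id i
      obtain ⟨B, hB, hB2⟩ := T4_bd hC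
      have := (T4_prod (ψ := fun z => pd i (a i) (pt q z) - 2 / (sq2 q + r2) * (pt q z i * a i (pt q z))) (hcc hC.cont) hB
        (f := vq N r2 F q) (ae_of_all _ fun z => by
          rw [abs_mul]
          exact mul_le_mul_of_nonneg_right (hB2 _) (abs_nonneg _)) (gq N r2 F q)).1
      refine this.congr (ae_of_all _ fun z => ?_)
      show (pd i (a i) (pt q z) - 2 / (sq2 q + r2) * (pt q z i * a i (pt q z))) * _ = _
      ring
    obtain ⟨B0, hB0⟩ := hW.db 0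
    obtain ⟨B1, hB1⟩ := hW.dh.db 0
    have hB0' : ∀ x, |sW v x| ≤ B0 := hB0.1
    have hB1' : ∀ x, |dh (sW v) x| ≤ B1 := hB1.1
    have hB0n : 0 ≤ B0 := (abs_nonneg _).trans (hB0' 0)
    have hB1n : 0 ≤ B1 := (abs_nonneg _).trans (hB1' 0)
    have j1 := T4_prod (ψ := fun z => sW v (pt q z)) (hcc hW.sm.continuous) hM0 (f := vq N r2 F q) (by
      filter_upwards [hvS'] with z hz
      by_cases h1 : z ∈ Icc (b - l) (b + l)
      · rw [abs_mul]
        refine mul_le_mul_of_nonneg_right (hM _ hq ?_) (abs_nonneg _)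
        rw [pt_2, abs_le]
        constructor <;> linarith [h1.1, h1.2]
      · rw [hz h1]
        simp) (gq N r2 F q)
    have j2 := (T4_prod (ψ := fun z => dh (sW v) (pt q z)) (hcc hW.dh.sm.continuous) hB1n (f := vq N r2 F q) (ae_of_all _ fun z => by
        rw [abs_mul]
        exact mul_le_mul_of_nonneg_right (hB1' _) (abs_nonneg _)) (gq N r2 F q)).1
    have hsum : (∫ z, (pd 0 (a 0) (pt q z) - 2 * pt q z 0 / (sq2 q + r2) * a 0 (pt q z)) * (vq N r2 F q z * gq N r2 F q z)) +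
        (∫ z, (pd 1 (a 1) (pt q z) - 2 * pt q z 1 / (sq2 q + r2) * a 1 (pt q z)) * (vq N r2 F q z * gq N r2 F q z)) =
        (2 * (r2 / (sq2 q + r2))) * (∫ z, sW v (pt q z) * (vq N r2 F q z * gq N r2 F q z)) +
        sq2 q * (∫ z, dh (sW v) (pt q z) * (vq N r2 F q z * gq N r2 F q z)) := by
      rw [← integral_add (hi 0) (hi 1), ← integral_const_mul, ← integral_const_mul,
        ← integral_add (j1.1.const_mul _) (j2.const_mul _)]
      refine integral_congr_ae ?_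
      filter_upwards [hvS'] with z hz
      by_cases h1 : z ∈ Icc (b - l) (b + l)
      · obtain ⟨a0, a0'⟩ := h (pt q z) hq (by
          rw [pt_2, abs_le]
          constructor <;> linarith [h1.1, h1.2]) 0 (Or.inl rfl)
        obtain ⟨a1, a1'⟩ := h (pt q z) hq (by
          rw [pt_2, abs_le]
          constructor <;> linarith [h1.1, h1.2]) 1 (Or.inr rfl)
        rw [a0, a0', a1, a1', pt_0, pt_1]
        have e1 : q.1 ^ 2 + q.2 ^ 2 = sq2 q := rfl
        have e2 : 2 * q.1 / (sq2 q + r2) * (q.1 * sW v (pt q z)) + 2 * q.2 / (sq2 q + r2) * (q.2 * sW v (pt q z)) =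
            2 * sW v (pt q z) - 2 * (r2 / (sq2 q + r2)) * sW v (pt q z) := by
          field_simp
          rw [← e1]
          ring
        rw [← e1] at e2 ⊢
        linear_combination (- (vq N r2 F q z * gq N r2 F q z)) * e2
      · rw [hz h1]
        simp
    rw [hsum]
    have g1 : |∫ z, sW v (pt q z) * (vq N r2 F q z * gq N r2 F q z)| * 2 ≤ M * ‖fib F q‖ ^ 2 := by
      obtain ⟨-, -, h3⟩ := vq_le hN hr F q
      have h4 := two_mul_le_add_sq ‖vq N r2 F q‖ ‖gq N r2 F q‖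
      have h5 : M * (2 * ‖vq N r2 F q‖ * ‖gq N r2 F q‖) ≤ M * ‖fib F q‖ ^ 2 := mul_le_mul_of_nonneg_left (h4.trans h3) hM0
      have := j1.2
      linarith
    have g2 := T4_vg hN hr hl hF hb hW.dh.sm q
    have g3 : - ((2 * (r2 / (sq2 q + r2))) * (∫ z, sW v (pt q z) * (vq N r2 F q z * gq N r2 F q z))) ≤ M * (r2 / (sq2 q + r2) * ‖fib F q‖ ^ 2) := by
      have t1 : 0 ≤ r2 / (sq2 q + r2) := by positivity
      have t2 := neg_abs_le (∫ z, sW v (pt q z) * (vq N r2 F q z * gq N r2 F q z))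
      have t3 := mul_le_mul_of_nonneg_left g1 t1
      nlinarith only [t1, t2, t3]
    have g4 : - (sq2 q * (∫ z, dh (sW v) (pt q z) * (vq N r2 F q z * gq N r2 F q z))) ≤ N * Tr r2 b l v F q := by
      have t2 := neg_abs_le (∫ z, dh (sW v) (pt q z) * (vq N r2 F q z * gq N r2 F q z))
      have t3 := mul_le_mul_of_nonneg_left g2 hs
      have t4 : sq2 q * (N / (sq2 q + r2) * (Nb b l (dh (sW v)) q * ‖fib (pd 2 F) q‖ + ‖fib F q‖ * Nb b l (pd 2 (dh (sW v))) q)) ≤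
          N * Tr r2 b l v F q := by
        rw [← dh_pd2 hW]
        unfold Tr
        have t5 : sq2 q * (N / (sq2 q + r2) * (Nb b l (dh (sW v)) q * ‖fib (pd 2 F) q‖ + ‖fib F q‖ * Nb b l (dh (pd 2 (sW v))) q)) =
            N / (sq2 q + r2) * (sq2 q * Nb b l (dh (sW v)) q * ‖fib (pd 2 F) q‖ + ‖fib F q‖ * (sq2 q * Nb b l (dh (pd 2 (sW v))) q)) := by ring
        have t6 : N * ((sq2 q * Nb b l (dh (sW v)) q * ‖fib (pd 2 F) q‖ +
            ‖fib F q‖ * (sq2 q * Nb b l (dh (pd 2 (sW v))) q + Nb b l (pd 2 (sW v)) q) +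
            √(sq2 q) * Nb b l (pd 2 (sW v)) q * (‖fib (pd 0 F) q‖ + ‖fib (pd 1 F) q‖)) / (sq2 q + r2)) =
            N / (sq2 q + r2) * ((sq2 q * Nb b l (dh (sW v)) q * ‖fib (pd 2 F) q‖ +
            ‖fib F q‖ * (sq2 q * Nb b l (dh (pd 2 (sW v))) q + Nb b l (pd 2 (sW v)) q) +
            √(sq2 q) * Nb b l (pd 2 (sW v)) q * (‖fib (pd 0 F) q‖ + ‖fib (pd 1 F) q‖))) := by ring
        rw [t5, t6]
        refine mul_le_mul_of_nonneg_left ?_ (by positivity)
        have t7 : 0 ≤ ‖fib F q‖ * Nb b l (pd 2 (sW v)) q := by positivity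
        have t8 : 0 ≤ √(sq2 q) * Nb b l (pd 2 (sW v)) q * (‖fib (pd 0 F) q‖ + ‖fib (pd 1 F) q‖) := by positivity
        linarith
      nlinarith only [hs, t2, t3, t4]
    linarith
  · obtain ⟨f1, -⟩ := T4_far hF hb hq
    have f3 := (vq_out hN hr f1).1
    have hz : ∀ ψ : ℝ → ℝ, ∫ z, ψ z * (vq N r2 F q z * gq N r2 F q z) = 0 := by
      intro ψ
      rw [f3]
      have : (fun z => ψ z * ((0 : Hz) z * gq N r2 F q z)) =ᵐ[volume] fun _ => (0 : ℝ) := by
        filter_upwards [Lp.coeFn_zero ℝ 2 (volume : Measure ℝ)] with z hz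
        rw [hz]
        simp
      rw [integral_congr_ae this]
      simp
    rw [hz, hz]
    simpa using hR

private theorem T4_vert {N r2 : ℝ} (hN : 0 < N) (hr : 0 < r2) {F : E3 → ℝ} (hF : Cs F) {a : E3 → ℝ} (ha : Cs a) :
    ∫ q : ℝ × ℝ, ⟪vq N r2 F q, fib (fun x => a x * pd 2 F x) q⟫_ℝ =
      - (1 / 2) * (∫ q : ℝ × ℝ, ∫ z, pd 2 a (pt q z) * vq N r2 F q z ^ 2) := by
  rw [← integral_const_mul]
  refine integral_congr_ae (ae_of_all _ fun q => ?_)
  show ⟪vq N r2 F q, fib (fun x => a x * pd 2 F x) q⟫_ℝ = - (1 / 2) * ∫ z, pd 2 a (pt q z) * vq N r2 F q z ^ 2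
  rw [fib_inner' (Cs.mul_left ha.sm (hF.pd 2))]
  have h := v_dz (c := cq N r2 q) (cq_pos hN hr q).le (f := fun z => F (pt q z)) (T4_cd1 hF.sm q) (hF.slice q).2
    (fib_coe hF q) (β := fun z => a (pt q z)) (T4_cd1 ha.sm q)
  have d1 : deriv (fun z => F (pt q z)) = fun z => pd 2 F (pt q z) := by
    funext z
    exact (T4_dz hF.sm q z).deriv
  have d2 : deriv (fun z => a (pt q z)) = fun z => pd 2 a (pt q z) := by
    funext z
    exact (T4_dz ha.sm q z).deriv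
  rw [d1, d2] at h
  refine Eq.trans ?_ h
  refine integral_congr_ae (ae_of_all _ fun z => ?_)
  show vq N r2 F q z * (a (pt q z) * pd 2 F (pt q z)) = a (pt q z) * vq N r2 F q z * pd 2 F (pt q z)
  ring

private theorem T4_Apt {N r2 b l : ℝ} (hN : 0 < N) (hr : 0 < r2) (hl : 0 < l) {F : E3 → ℝ} (hF : Cs F)
    (hb : ∀ x, F x ≠ 0 → rsq x ≤ 1 / 4 ∧ |x 2 - b| ≤ l) {a : Fin 3 → E3 → ℝ} (ha : ∀ i, Cs (a i))
    (h : ∀ x, rsq x ≤ 1 / 4 → |x 2 - b| ≤ l → pd 0 (a 0) x + pd 1 (a 1) x + pd 2 (a 2) x = 0) (q : ℝ × ℝ) :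
    (∫ z, pd 0 (a 0) (pt q z) * vq N r2 F q z ^ 2) + (∫ z, pd 1 (a 1) (pt q z) * vq N r2 F q z ^ 2) +
      (∫ z, pd 2 (a 2) (pt q z) * vq N r2 F q z ^ 2) = 0 := by
  have hi : ∀ i : Fin 3, Integrable (fun z => pd i (a i) (pt q z) * vq N r2 F q z ^ 2) := by
    intro i
    obtain ⟨B, hB, hB2⟩ := T4_bd ((ha i).pd i)
    have := (T4_prod (ψ := fun z => pd i (a i) (pt q z)) (((ha i).pd i).cont.comp (pt_cont' continuous_const continuous_id)) hB
      (f := vq N r2 F q) (ae_of_all _ fun z => by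
        rw [abs_mul]
        exact mul_le_mul_of_nonneg_right (hB2 _) (abs_nonneg _)) (vq N r2 F q)).1
    refine this.congr (ae_of_all _ fun z => ?_)
    show pd i (a i) (pt q z) * (vq N r2 F q z * vq N r2 F q z) = _
    ring
  have e1 := integral_add (hi 0) (hi 1)
  have e2 := integral_add ((hi 0).add (hi 1)) (hi 2)
  have e3 : (∫ z, (pd 0 (a 0) (pt q z) * vq N r2 F q z ^ 2 + pd 1 (a 1) (pt q z) * vq N r2 F q z ^ 2) +
      pd 2 (a 2) (pt q z) * vq N r2 F q z ^ 2) = 0 := by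
    have e4 : (fun z => (pd 0 (a 0) (pt q z) * vq N r2 F q z ^ 2 + pd 1 (a 1) (pt q z) * vq N r2 F q z ^ 2) +
      pd 2 (a 2) (pt q z) * vq N r2 F q z ^ 2) =ᵐ[volume] fun _ => (0 : ℝ) := by
      rcases le_or_gt (sq2 q) (1 / 4) with hq | hq
      · have hvS := (vq_Sz (a := b - l) (b := b + l) hN hr (by linarith) hF (fun x hx => by
          have := (hb x hx).2
          rw [abs_le] at this
          exact ⟨by linarith [this.1], by linarith [this.2]⟩) q).2.1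
        have hvS' : ∀ᵐ z : ℝ, z ∉ Icc (b - l) (b + l) → vq N r2 F q z = 0 := hvS
        filter_upwards [hvS'] with z hz
        by_cases h1 : z ∈ Icc (b - l) (b + l)
        · have h2 := h (pt q z) hq (by
            rw [pt_2, abs_le]
            constructor <;> linarith [h1.1, h1.2])
          linear_combination (vq N r2 F q z ^ 2) * h2
        · rw [hz h1]
          ring
      · obtain ⟨f1, -⟩ := T4_far hF hb hq
        have f3 := (vq_out hN hr f1).1
        rw [f3]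
        filter_upwards [Lp.coeFn_zero ℝ 2 (volume : Measure ℝ)] with z hz
        rw [hz]
        simp
    rw [integral_congr_ae e4]
    simp
  rw [← e1, ← e3]
  exact e2.symm

theorem fixmu {N r2 b l M : ℝ} (hN : 0 < N) (hr : 0 < r2) (hl : 0 < l) {v : E3 → E3} (hv : Vs v) {F : E3 → ℝ} (hF : Cs F)
    (ha : ∀ θ x, F (rot θ x) = F x) (hb : ∀ x, F x ≠ 0 → rsq x ≤ 1 / 4 ∧ |x 2 - b| ≤ l)
    (hM : ∀ x, rsq x ≤ 1 / 4 → |x 2 - b| ≤ l → |sW v x| ≤ M) :
    ∫ q : ℝ × ℝ, ⟪vq N r2 F q, fib (fun x => adv (v x) F x) q⟫_ℝ ≤ 10 * N * (∫ q : ℝ × ℝ, Tr r2 b l v F q) +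
      M * ∫ q : ℝ × ℝ, r2 / (sq2 q + r2) * ‖fib F q‖ ^ 2 := by
  obtain ⟨a, haC, hadv, hbox⟩ := T4_flds hv hF ha hb
  have hD : ∀ q : ℝ × ℝ, 0 < sq2 q + r2 := fun q => by have := T4_sq2_nn q; linarith
  obtain ⟨A, hA⟩ := T4_outs hF
  have hvout : ∀ q, A ≤ sq2 q → vq N r2 F q = 0 := fun q hq => (vq_out hN hr (hA q hq).1).1
  obtain ⟨cv, cg, -⟩ := vq_cont hN hr hF
  have hbz : ∀ x, F x ≠ 0 → |x 2 - b| ≤ l := fun x hx => (hb x hx).2
  have H0 := horiz hN hr hl hF (haC 0) hbz (i := 0) (d := (1, 0)) (Or.inl ⟨rfl, rfl⟩)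
  have H1 := horiz hN hr hl hF (haC 1) hbz (i := 1) (d := (0, 1)) (Or.inr ⟨rfl, rfl⟩)
  have H2 := T4_vert hN hr hF (haC 2)
  -- the left side
  have hfC : ∀ i : Fin 3, Cs (fun x => a i x * pd i F x) := fun i => Cs.mul_left (haC i).sm (hF.pd i)
  have hfi : ∀ i : Fin 3, Integrable (fun q : ℝ × ℝ => ⟪vq N r2 F q, fib (fun x => a i x * pd i F x) q⟫_ℝ) := by
    intro i
    refine (cv.inner (fib_cont (hfC i))).integrable_of_hasCompactSupport (T4_cs (A := A) fun q hq => ?_)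
    rw [hvout q hq, inner_zero_left]
  have hL : ∫ q : ℝ × ℝ, ⟪vq N r2 F q, fib (fun x => adv (v x) F x) q⟫_ℝ =
      (∫ q : ℝ × ℝ, ⟪vq N r2 F q, fib (fun x => a 0 x * pd 0 F x) q⟫_ℝ) +
      (∫ q : ℝ × ℝ, ⟪vq N r2 F q, fib (fun x => a 1 x * pd 1 F x) q⟫_ℝ) +
      (∫ q : ℝ × ℝ, ⟪vq N r2 F q, fib (fun x => a 2 x * pd 2 F x) q⟫_ℝ) := by
    have e1 := integral_add (hfi 0) (hfi 1)
    have e2 := integral_add ((hfi 0).add (hfi 1)) (hfi 2)
    rw [← e1]
    refine Eq.trans ?_ e2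
    refine integral_congr_ae (ae_of_all _ fun q => ?_)
    show ⟪vq N r2 F q, fib (fun x => adv (v x) F x) q⟫_ℝ = (⟪vq N r2 F q, fib (fun x => a 0 x * pd 0 F x) q⟫_ℝ +
      ⟪vq N r2 F q, fib (fun x => a 1 x * pd 1 F x) q⟫_ℝ) + ⟪vq N r2 F q, fib (fun x => a 2 x * pd 2 F x) q⟫_ℝ
    have e3 : (fun x => adv (v x) F x) = fun x => (a 0 x * pd 0 F x + a 1 x * pd 1 F x) + a 2 x * pd 2 F x := by
      funext x
      exact hadv x
    rw [e3, fib_add ((hfC 0).add (hfC 1)) (hfC 2), fib_add (hfC 0) (hfC 1), inner_add_right, inner_add_right]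
  -- the squares
  have hAi : ∀ i : Fin 3, Integrable (fun q : ℝ × ℝ => ∫ z, pd i (a i) (pt q z) * vq N r2 F q z ^ 2) := by
    intro i
    have := T4_bil ((haC i).pd i) cv cv hvout
    refine this.congr (ae_of_all _ fun q => ?_)
    refine integral_congr_ae (ae_of_all _ fun z => ?_)
    show pd i (a i) (pt q z) * (vq N r2 F q z * vq N r2 F q z) = _
    ring
  have hS : (∫ q : ℝ × ℝ, ∫ z, pd 0 (a 0) (pt q z) * vq N r2 F q z ^ 2) + (∫ q : ℝ × ℝ, ∫ z, pd 1 (a 1) (pt q z) * vq N r2 F q z ^ 2) +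
      (∫ q : ℝ × ℝ, ∫ z, pd 2 (a 2) (pt q z) * vq N r2 F q z ^ 2) = 0 := by
    have e1 := integral_add (hAi 0) (hAi 1)
    have e2 := integral_add ((hAi 0).add (hAi 1)) (hAi 2)
    rw [← e1]
    refine e2.symm.trans ?_
    have e3 : (fun q : ℝ × ℝ => ((∫ z, pd 0 (a 0) (pt q z) * vq N r2 F q z ^ 2) + (∫ z, pd 1 (a 1) (pt q z) * vq N r2 F q z ^ 2)) +
      (∫ z, pd 2 (a 2) (pt q z) * vq N r2 F q z ^ 2)) = fun _ => 0 := by
      funext q
      exact T4_Apt hN hr hl hF hb haC (fun x h1 h2 => (hbox x h1 h2).1) q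
    show (∫ q : ℝ × ℝ, ((∫ z, pd 0 (a 0) (pt q z) * vq N r2 F q z ^ 2) + (∫ z, pd 1 (a 1) (pt q z) * vq N r2 F q z ^ 2)) +
      (∫ z, pd 2 (a 2) (pt q z) * vq N r2 F q z ^ 2)) = 0
    rw [e3]
    simp
  -- the products
  have hBi : ∀ i : Fin 3, Integrable (fun q : ℝ × ℝ => ∫ z, (pd i (a i) (pt q z) - 2 * pt q z i / (sq2 q + r2) * a i (pt q z)) *
      (vq N r2 F q z * gq N r2 F q z)) := by
    intro i
    have hC : Cs (fun x => pd i (a i) x - (2 * x i / (rsq x + r2)) * a i x) := by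
      refine ((haC i).pd i).sub (Cs.mul_left ?_ (haC i))
      refine ContDiff.div (contDiff_const.mul (VRep_coord contDiff_id i)) (LevX_rsq_cd.add contDiff_const) fun x => ?_
      have : 0 ≤ rsq x := by unfold rsq; positivity
      exact (by linarith : (0 : ℝ) < rsq x + r2).ne'
    exact T4_bil hC cv cg hvout
  have hTr := Tr_int (b := b) hr hl hv hF
  have hTi : Integrable (Tr r2 b l v F) := hTr.1.integrable_of_hasCompactSupport hTr.2.1
  have hRi : Integrable (fun q : ℝ × ℝ => r2 / (sq2 q + r2) * ‖fib F q‖ ^ 2) := by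
    refine Continuous.integrable_of_hasCompactSupport ?_ (T4_cs (A := A) fun q hq => ?_)
    · exact (continuous_const.div (T4_sq2_cont.add continuous_const) fun q => (hD q).ne').mul ((fib_cont hF).norm.pow 2)
    · rw [(hA q hq).1]
      simp
  have hB : - ((∫ q : ℝ × ℝ, ∫ z, (pd 0 (a 0) (pt q z) - 2 * pt q z 0 / (sq2 q + r2) * a 0 (pt q z)) * (vq N r2 F q z * gq N r2 F q z)) +
      (∫ q : ℝ × ℝ, ∫ z, (pd 1 (a 1) (pt q z) - 2 * pt q z 1 / (sq2 q + r2) * a 1 (pt q z)) * (vq N r2 F q z * gq N r2 F q z))) ≤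
      N * (∫ q : ℝ × ℝ, Tr r2 b l v F q) + M * ∫ q : ℝ × ℝ, r2 / (sq2 q + r2) * ‖fib F q‖ ^ 2 := by
    rw [← integral_add (hBi 0) (hBi 1), ← integral_neg, ← integral_const_mul, ← integral_const_mul,
      ← integral_add (hTi.const_mul _) (hRi.const_mul _)]
    refine integral_mono ((hBi 0).add (hBi 1)).neg ((hTi.const_mul _).add (hRi.const_mul _)) fun q => ?_
    exact T4_Bpt hN hr hl hv hF hb hM haC (fun x h1 h2 i hi => ⟨((hbox x h1 h2).2 i hi).1, ((hbox x h1 h2).2 i hi).2.1⟩) q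
  -- the errors
  have hE : ∀ i : Fin 3, i = 0 ∨ i = 1 → ∫ q : ℝ × ℝ, Eh i N r2 b l F (a i) q ≤ 4 * N * ∫ q : ℝ × ℝ, Tr r2 b l v F q := by
    intro i hi
    have h := T4_Eh (r2 := r2) (b := b) (l := l) hN hr hl hv hF hb hi (a := a i)
      (fun x h1 h2 => ((hbox x h1 h2).2 i hi).2.2)
    rw [← integral_const_mul]
    exact integral_mono_of_nonneg (ae_of_all _ fun q => (h q).1) (hTi.const_mul _) (ae_of_all _ fun q => (h q).2)
  have hE0 := hE 0 (Or.inl rfl)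
  have hE1 := hE 1 (Or.inr rfl)
  have hT0 : 0 ≤ ∫ q : ℝ × ℝ, Tr r2 b l v F q := integral_nonneg hTr.2.2
  have hNT := mul_nonneg hN.le hT0
  rw [hL]
  linarith only [H0, H1, H2, hS, hB, hE0, hE1, hNT, H0, H1, H2, hS, hB, hE0, hE1, hNT]

end Pool.Agent.H42.TQ
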